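import Pool.Agent.Lib.MP_1126ca_gt.Fold

set_option autoImplicit false

open Set Topology Filter Function

namespace Pool.Agent.Lib.MP_1126ca_gt

variable {X : Type} [TopologicalSpace X]

theorem endpoint [T2Space X] {A : Set X} {b : X} (hA : IsCompact A) (hb : b ∈ A)
    (hn : Nested A b) {g : X → ℝ} (hg : Continuous g) {E : ℝ} (hE : 0 < E) :
    ∃ h : X → ℝ, ContinuousOn h A ∧ (∀ x ∈ A, h x ≤ h b) ∧ ∃ θ > 0,
      ∀ x ∈ A, ∀ y ∈ A, |h x - h y| ≤ θ → |g x - g y| ≤ E := by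
  obtain ⟨M, hM⟩ := hA.exists_bound_of_continuousOn hg.continuousOn
  set κ : ℝ := E / 13 with hκ
  have hκ0 : 0 < κ := by positivity
  obtain ⟨k, hk⟩ := exists_nat_ge (2 * M / κ)
  have hk' : 2 * M ≤ k * κ := by rwa [div_le_iff₀ hκ0] at hk
  have hk1 : (0 : ℝ) < k + 1 := by positivity
  have hη : κ / (k + 1) ≤ κ := div_le_self hκ0.le (by linarith [Nat.cast_nonneg (α := ℝ) k])
  have hkη : (k : ℝ) * (κ / (k + 1)) ≤ κ := by
    rw [mul_div_assoc', div_le_iff₀ hk1]
    nlinarith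
  have hkη0 : 0 ≤ (k : ℝ) * (κ / (k + 1)) := by positivity
  obtain ⟨h, ψ, a1, a2, -, -, a5, a6, -, -⟩ := fold hn (κ := κ) (η := κ / (k + 1))
    (by positivity) hη k A (fun x => g x + M) hA Subset.rfl hb (hg.add continuous_const) (by
      intro x hx
      have := abs_le.1 (show |g x| ≤ M from hM x hx)
      constructor <;> linarith [this.1, this.2])
  refine ⟨fun x => min (h x) (h b), a1.inf continuousOn_const, fun x _ => ?_, κ, hκ0,
    fun x hx y hy hxy => ?_⟩
  · simp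
  · have m1 : h x - 2 * κ ≤ min (h x) (h b) := le_min (by linarith) (by linarith [a6 x hx])
    have m2 : h y - 2 * κ ≤ min (h y) (h b) := le_min (by linarith) (by linarith [a6 y hy])
    have m3 : min (h x) (h b) ≤ h x := min_le_left _ _
    have m4 : min (h y) (h b) ≤ h y := min_le_left _ _
    have m5 := lip_abs a2 (h x) (h y)
    have m6 : |h x - h y| ≤ 3 * κ := by
      rw [abs_le] at hxy ⊢
      constructor <;> linarith [hxy.1, hxy.2]
    have m7 := abs_le.1 (m5.trans m6)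
    have m8 := abs_le.1 (a5 x hx)
    have m9 := abs_le.1 (a5 y hy)
    rw [abs_le]
    constructor <;> linarith [m7.1, m7.2, m8.1, m8.2, m9.1, m9.2]

/-- A continuous pseudometric. -/
structure PM (D : X → X → ℝ) : Prop where
  cont : Continuous (uncurry D)
  self : ∀ x, D x x = 0
  nonneg : ∀ x y, 0 ≤ D x y
  symm : ∀ x y, D x y = D y x
  tri : ∀ x y z, D x z ≤ D x y + D y z

def Good (D : X → X → ℝ) (ε : ℝ) (M : Set X) : Prop :=
  ∃ g : X → ℝ, Continuous g ∧ ∀ x ∈ M, ∀ y ∈ M, g x = g y → D x y < ε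

theorem Good.slack {D : X → X → ℝ} (hD : PM D) {ε : ℝ} {M : Set X} (hM : IsCompact M)
    (h : Good D ε M) : ∃ g : X → ℝ, Continuous g ∧ ∃ E > 0,
      ∀ x ∈ M, ∀ y ∈ M, |g x - g y| ≤ E → D x y < ε := by
  obtain ⟨g, hg, h⟩ := h
  have hc : IsCompact ((M ×ˢ M) ∩ {p : X × X | ε ≤ uncurry D p}) :=
    (hM.prod hM).inter_right (isClosed_le continuous_const hD.cont)
  have hcont : Continuous fun p : X × X => |g p.1 - g p.2| := by fun_prop
  rcases ((M ×ˢ M) ∩ {p : X × X | ε ≤ uncurry D p}).eq_empty_or_nonempty with he | hne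
  · refine ⟨g, hg, 1, one_pos, fun x hx y hy _ => ?_⟩
    by_contra hcon
    have : (x, y) ∈ (M ×ˢ M) ∩ {p : X × X | ε ≤ uncurry D p} := ⟨⟨hx, hy⟩, not_lt.1 hcon⟩
    rw [he] at this
    exact this
  · obtain ⟨p, hp, hmin⟩ := hc.exists_isMinOn hne hcont.continuousOn
    have hpos : 0 < |g p.1 - g p.2| := by
      rw [abs_pos, sub_ne_zero]
      intro he
      exact absurd (h _ hp.1.1 _ hp.1.2 he) (not_lt.2 hp.2)
    refine ⟨g, hg, |g p.1 - g p.2| / 2, by positivity, fun x hx y hy hxy => ?_⟩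
    by_contra hcon
    have : |g p.1 - g p.2| ≤ |g x - g y| :=
      hmin (show (x, y) ∈ (M ×ˢ M) ∩ {p : X × X | ε ≤ uncurry D p} from ⟨⟨hx, hy⟩, not_lt.1 hcon⟩)
    linarith

theorem Good.pointed [T2Space X] {D : X → X → ℝ} (hD : PM D) {ε : ℝ} {A : Set X} {m : X}
    (hA : IsCompact A) (hm : m ∈ A) (hn : Nested A m) (h : Good D ε A) :
    ∃ f : X → ℝ, ContinuousOn f A ∧ f m = 0 ∧ (∀ x ∈ A, f x ≤ 0) ∧
      (∀ x ∈ A, f x = 0 → D x m = 0) ∧ ∀ x ∈ A, ∀ y ∈ A, f x = f y → D x y < ε := by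
  obtain ⟨g, hg, E, hE, h1⟩ := h.slack hD hA
  obtain ⟨h, a1, a2, θ, hθ, a3⟩ := endpoint hA hm hn hg hE
  have hc : Continuous fun x => D x m := hD.cont.comp (continuous_id.prodMk continuous_const)
  obtain ⟨B, hB⟩ := hA.exists_bound_of_continuousOn hc.continuousOn
  have hB0 : 0 ≤ B := (norm_nonneg _).trans (hB m hm)
  have hB' : ∀ x ∈ A, D x m ≤ B := fun x hx => (le_abs_self _).trans (hB x hx)
  set θ' : ℝ := θ / (B + 1) with hθ'
  have hθ0 : 0 < θ' := by positivity
  have hθB : θ' * B ≤ θ := by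
    rw [hθ', div_mul_eq_mul_div, div_le_iff₀ (by positivity)]
    nlinarith
  refine ⟨fun x => h x - h m - θ' * D x m,
    (a1.sub continuousOn_const).sub (continuousOn_const.mul hc.continuousOn), by simp [hD.self],
    fun x hx => ?_, fun x hx h0 => ?_, fun x hx y hy hxy => h1 x hx y hy (a3 x hx y hy ?_)⟩
  · have := mul_nonneg hθ0.le (hD.nonneg x m)
    linarith [a2 x hx]
  · have h2 : θ' * D x m ≤ 0 := by
      simp only at h0
      linarith [a2 x hx]
    exact le_antisymm (nonpos_of_mul_nonpos_right h2 hθ0 |> fun h => h) (hD.nonneg x m)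
  · simp only at hxy
    have e1 := mul_nonneg hθ0.le (hD.nonneg x m)
    have e2 := mul_nonneg hθ0.le (hD.nonneg y m)
    have e3 := mul_le_mul_of_nonneg_left (hB' x hx) hθ0.le
    have e4 := mul_le_mul_of_nonneg_left (hB' y hy) hθ0.le
    rw [abs_le]
    constructor <;> linarith

/-- `M` is cut at `m` into two proper pieces, each having `m` as an end point. -/
def HasCut (M : Set X) : Prop :=
  ∃ (A B : Set X) (m : X), IsCompact A ∧ IsCompact B ∧ A ∪ B = M ∧ A ≠ M ∧ B ≠ M ∧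
    A ∩ B ⊆ {m} ∧ m ∈ A ∧ m ∈ B ∧ Nested A m ∧ Nested B m

theorem good_univ [CompactSpace X] [T2Space X] [PreconnectedSpace X]
    (hcut : ∀ M : Set X, IsCompact M → IsPreconnected M → M.Nontrivial → HasCut M)
    {D : X → X → ℝ} (hD : PM D) {ε : ℝ} (hε : 0 < ε) : Good D ε univ := by
  by_contra hbad
  obtain ⟨M, -, hM, hMp, hMb, hmin⟩ := exists_minimal_bad (fun M => ¬ Good D ε M) isCompact_univ
    isPreconnected_univ hbad (by
      rintro 𝒞 hne hc hk - hb ⟨g, hg, h⟩
      have hS := chain_compact hne hk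
      have hO : IsOpen ({p : X × X | g p.1 ≠ g p.2} ∪ {p : X × X | uncurry D p < ε}) :=
        (isOpen_ne_fun (by fun_prop) (by fun_prop)).union (isOpen_lt hD.cont continuous_const)
      obtain ⟨U, V, hU, hV, h1, h2, h3⟩ := generalized_tube_lemma hS hS hO (by
        rintro ⟨x, y⟩ ⟨hx, hy⟩
        by_cases he : g x = g y
        · exact Or.inr (h x hx y hy he)
        · exact Or.inl he)
      obtain ⟨C, hC, hCs⟩ := chain_subset_open hne hc hk (hU.inter hV) (subset_inter h1 h2)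
      refine hb C hC ⟨g, hg, fun x hx y hy he => ?_⟩
      rcases h3 (show (x, y) ∈ U ×ˢ V from ⟨(hCs hx).1, (hCs hy).2⟩) with h4 | h4
      · exact absurd he h4
      · exact h4)
  have hnt : M.Nontrivial := by
    by_contra hs
    rw [not_nontrivial_iff] at hs
    refine hMb ⟨fun _ => 0, continuous_const, fun x hx y hy _ => ?_⟩
    rw [hs hx hy, hD.self]
    exact hε
  obtain ⟨A, B, m, hA, hB, hAB, hAM, hBM, hi, hmA, hmB, nA, nB⟩ := hcut M hM hMp hnt
  have gA : Good D ε A := by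
    by_contra h
    exact hAM (hmin A (hAB ▸ subset_union_left) hA
      (preconnected_of_cut hA.isClosed hB.isClosed (hAB ▸ hMp) hi) h)
  have gB : Good D ε B := by
    by_contra h
    exact hBM (hmin B (hAB ▸ subset_union_right) hB
      (preconnected_of_cut hB.isClosed hA.isClosed (by rw [union_comm, hAB]; exact hMp)
        (by rwa [inter_comm])) h)
  obtain ⟨f₁, a1, a2, a3, a4, a5⟩ := gA.pointed hD hA hmA nA
  obtain ⟨f₂, b1, b2, b3, b4, b5⟩ := gB.pointed hD hB hmB nB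
  obtain ⟨f, c1, c2, c3⟩ := glue (f := f₁) (g := fun x => -f₂ x) hA.isClosed hB.isClosed a1 b1.neg
    (by
      intro x hx hx'
      have : x = m := hi ⟨hx, hx'⟩
      rw [this, a2, b2, neg_zero])
  obtain ⟨g, hg, hgf⟩ := exists_extend (hA.isClosed.union hB.isClosed) c1
  have cross : ∀ x ∈ A, ∀ y ∈ B, g x = g y → D x y < ε := by
    intro x hx y hy he
    rw [hgf (Or.inl hx), hgf (Or.inr hy), c2 hx, c3 hy] at he
    simp only at he
    have e1 : f₁ x = 0 := by linarith [a3 x hx, b3 y hy]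
    have e2 : f₂ y = 0 := by linarith [a3 x hx, b3 y hy]
    have := hD.tri x m y
    rw [a4 x hx e1, hD.symm m y, b4 y hy e2] at this
    linarith
  refine hMb ⟨g, hg, ?_⟩
  rw [← hAB]
  rintro x (hx | hx) y (hy | hy) he
  · rw [hgf (Or.inl hx), hgf (Or.inl hy), c2 hx, c2 hy] at he
    exact a5 x hx y hy he
  · exact cross x hx y hy he
  · rw [hD.symm]
    exact cross y hy x hx he.symm
  · rw [hgf (Or.inr hx), hgf (Or.inr hy), c3 hx, c3 hy] at he
    exact b5 x hx y hy (neg_injective he)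

theorem exists_chainable [CompactSpace X] [ConnectedSpace X] {E : Type} [MetricSpace E]
    {π : X → E} (hπ : Continuous π)
    (hgood : ∀ D : X → X → ℝ, PM D → ∀ ε : ℝ, 0 < ε → Good D ε univ) :
    ∃ (Y : Type) (_ : MetricSpace Y), CompactSpace Y ∧ ConnectedSpace Y ∧
      (∀ ε : ℝ, 0 < ε → ∃ g : Y → ℝ, Continuous g ∧
        ∀ y y' : Y, g y = g y' → dist y y' < ε) ∧
      ∃ f : Y → E, Continuous f ∧ Set.range f = Set.range π := by
  choose G hG1 hG2 using hgood
  have pos : ∀ n : ℕ, (0 : ℝ) < 1 / (n + 1) := fun n => Nat.one_div_pos_of_nat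
  let step : ℕ → {D : X → X → ℝ // PM D} → {D : X → X → ℝ // PM D} := fun n D =>
    ⟨fun x y => D.1 x y + |G D.1 D.2 _ (pos n) x - G D.1 D.2 _ (pos n) y|, by
      have hc := hG1 D.1 D.2 _ (pos n)
      refine ⟨D.2.cont.add (by fun_prop), fun x => by simp [D.2.self],
        fun x y => add_nonneg (D.2.nonneg x y) (abs_nonneg _),
        fun x y => by rw [D.2.symm x y, abs_sub_comm], fun x y z => ?_⟩
      linarith [D.2.tri x y z, abs_sub_le (G D.1 D.2 _ (pos n) x) (G D.1 D.2 _ (pos n) y)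
        (G D.1 D.2 _ (pos n) z)]⟩
  let D : ℕ → {D : X → X → ℝ // PM D} := fun n => Nat.rec
    ⟨fun x y => dist (π x) (π y), ⟨by fun_prop, fun x => dist_self _, fun x y => dist_nonneg,
      fun x y => dist_comm _ _, fun x y z => dist_triangle _ _ _⟩⟩ step n
  let g : ℕ → X → ℝ := fun n => G (D n).1 (D n).2 _ (pos n)
  have hg : ∀ n, Continuous (g n) := fun n => hG1 _ _ _ _
  have hD : ∀ n x y, (D (n + 1)).1 x y = (D n).1 x y + |g n x - g n y| := fun n x y => rfl
  have hD0 : ∀ n x y, dist (π x) (π y) ≤ (D n).1 x y ∧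
      ∀ k < n, |g k x - g k y| ≤ (D n).1 x y := by
    intro n x y
    induction n with
    | zero => exact ⟨le_rfl, fun k hk => absurd hk (Nat.not_lt_zero k)⟩
    | succ n ih =>
      rw [hD]
      refine ⟨by linarith [ih.1, abs_nonneg (g n x - g n y)], fun k hk => ?_⟩
      rcases Nat.lt_succ_iff_lt_or_eq.1 hk with h | h
      · linarith [ih.2 k h, abs_nonneg (g n x - g n y)]
      · rw [h]
        linarith [(D n).2.nonneg x y]
  let Θ : X → E × (ℕ → ℝ) := fun x => (π x, fun n => g n x)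
  have hΘ : Continuous Θ := hπ.prodMk (continuous_pi hg)
  have hYc : CompactSpace (range Θ) := isCompact_iff_compactSpace.1 (isCompact_range hΘ)
  have hYp : ConnectedSpace (range Θ) := isConnected_iff_connectedSpace.1 (isConnected_range hΘ)
  let mY : MetricSpace (range Θ) := TopologicalSpace.metrizableSpaceMetric (range Θ)
  refine ⟨range Θ, mY, hYc, hYp, fun ε hε => ?_, fun y => y.1.1, by fun_prop, ?_⟩
  · by_contra hcon
    push Not at hcon
    let S : ℕ → Set (range Θ × range Θ) := fun n => {p | ε ≤ dist p.1 p.2} ∩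
      ({p | dist p.1.1.1 p.2.1.1 ≤ 1 / (n + 1)} ∩
        ⋂ k ∈ {k : ℕ | k < n}, {p | |p.1.1.2 k - p.2.1.2 k| ≤ 1 / (n + 1)})
    have hS : ∀ n, IsClosed (S n) := fun n =>
      (isClosed_le continuous_const continuous_dist).inter
        ((isClosed_le (by fun_prop) continuous_const).inter
          (isClosed_biInter fun k _ => isClosed_le (by fun_prop) continuous_const))
    obtain ⟨p, hp⟩ := IsCompact.nonempty_iInter_of_sequence_nonempty_isCompact_isClosed S (by
      rintro n p ⟨h1, h2, h3⟩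
      have hle : (1 : ℝ) / ((n + 1 : ℕ) + 1) ≤ 1 / (n + 1) :=
        Nat.one_div_le_one_div (Nat.le_succ n)
      refine ⟨h1, le_trans h2 hle, mem_iInter₂.2 fun k hk => ?_⟩
      exact le_trans (mem_iInter₂.1 h3 k (Nat.lt_succ_of_lt hk)) hle) (by
      intro n
      obtain ⟨⟨_, x, rfl⟩, ⟨_, y, rfl⟩, h1, h2⟩ := hcon (fun y => y.1.2 n) (by fun_prop)
      have h3 := hG2 (D n).1 (D n).2 _ (pos n) x (mem_univ _) y (mem_univ _) h1
      exact ⟨(⟨_, x, rfl⟩, ⟨_, y, rfl⟩), h2, ((hD0 n x y).1.trans h3.le),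
        mem_iInter₂.2 fun k hk => ((hD0 n x y).2 k hk).trans h3.le⟩) (hS 0).isCompact hS
    rw [mem_iInter] at hp
    have lim : ∀ (a : ℝ) (N : ℕ), (∀ n ≥ N, a ≤ 1 / ((n : ℝ) + 1)) → a ≤ 0 := fun a N h =>
      ge_of_tendsto tendsto_one_div_add_atTop_nhds_zero_nat (eventually_atTop.2 ⟨N, h⟩)
    have e1 : p.1.1.1 = p.2.1.1 := dist_le_zero.1 (lim _ 0 fun n _ => (hp n).2.1)
    have e2 : p.1.1.2 = p.2.1.2 := by
      funext k
      have := lim _ (k + 1) fun n hn => mem_iInter₂.1 (hp n).2.2 k hn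
      exact sub_eq_zero.1 (abs_nonpos_iff.1 this)
    have e3 : p.1 = p.2 := Subtype.ext (Prod.ext e1 e2)
    have := (hp 0).1
    rw [mem_ofPred_eq, e3, dist_self] at this
    linarith
  · ext e
    constructor
    · rintro ⟨⟨_, x, rfl⟩, rfl⟩
      exact ⟨x, rfl⟩
    · rintro ⟨x, rfl⟩
      exact ⟨⟨_, x, rfl⟩, rfl⟩

end Pool.Agent.Lib.MP_1126ca_gt
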