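import Pool.Agent.Lib.MP_1126ca_gt.Zed

set_option autoImplicit false

open Set Topology Filter Function Complex Metric

namespace Pool.Agent.Lib.MP_1126ca_gt

variable {K : Set ℂ}

theorem PD.same_dir (hK : PD K) {ν ν' : Z K} {x u v : ℂ} (hx : x ∈ K) (hu : u ∈ K)
    (e : pj ν' = pj ν) (h1 : v ∈ Ar K x) (h2 : v ∈ Ar K u) (h3 : pj ν ∈ Ar K v)
    (h4 : pj ν ≠ v) (h5 : sg ν' u = sg ν u) : sg ν' x = sg ν x := by
  have hJ := (hK.Up_cont hx h1).union (hK.Up_cont hu h2) (left_mem_Up h1) (left_mem_Up h2)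
  have hy : pj ν ∉ Up K v x ∪ Up K v u := by
    rintro (h | h)
    · exact h4 (hK.antisymm (hK.Ar_sub hx h1) h3 h.2)
    · exact h4 (hK.antisymm (hK.Ar_sub hx h1) h3 h.2)
  rw [hK.dir ν hJ (Or.inl (right_mem_Up h1)) (Or.inr (right_mem_Up h2)) hy,
    hK.dir ν' hJ (Or.inl (right_mem_Up h1)) (Or.inr (right_mem_Up h2)) (e ▸ hy), e, h5]

theorem PD.planarZ (hK : PD K) {x u c : ℂ} (ν : Z K) (hx : x ∈ K) (hu : u ∈ K)
    (h1 : pj ν ∈ Ar K x) (h2 : pj ν ∈ Ar K u) (h : Ar K x ∩ Ar K u ⊆ Ar K (pj ν))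
    (nx : x ≠ pj ν) (nu : u ≠ pj ν) (hc : c ^ 2 = -1) (e : sr K x u = c * sr K u x)
    (hs : sg ν x = c * sr K x (pj ν)) : sg ν u = c * sr K u (pj ν) := by
  have T := hK.tri_meet hx hu h1 h2 h nx nu
  have := (T.planar_lim hc (by rwa [hK.union_Up hx h1, hK.union_Up hu h2])).self_of_nhds (fl ν)
    (fl_le ν)
  rw [hK.union_Up hx h1, hK.union_Up hu h2, rr_self nx.symm, rr_self nu.symm] at this
  refine tendsto_nhds_unique (hK.fl_sr ν hu) (this ?_ ?_)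
  · filter_upwards [fl_V ν] with w hw
    exact ⟨fun e => hw (Or.inl (hK.Ar_sub hx e)), fun e => hw (Or.inl (hK.Ar_sub hu e)),
      fun e => hw (Or.inr e)⟩
  · have := hK.fl_sr ν hx
    rwa [hs] at this

theorem PD.leg_limit (hK : PD K) {ν ν' μ : Z K} {x u : ℂ} (hx : x ∈ K) (hu : u ∈ K)
    (e : pj ν' = pj ν) (e' : pj μ = pj ν) (h1 : pj ν ∈ Ar K x) (hd : sg ν' x ≠ sg ν x)
    (h5 : sg ν' u = sg ν u) {l : Filter ℂ} [l.NeBot] (hl : l ≤ 𝓝[Up K (pj ν) x \ {pj ν}] pj ν)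
    {κ : ℂ → Z K} (hκ : ∀ᶠ v in l, pj (κ v) = v) (hμ : Tendsto κ l (𝓝 μ)) :
    sg μ u = sg ν u := by
  by_cases h2 : pj ν ∈ Ar K u
  swap
  · rw [hK.sg_eq ν hu h2, hK.sg_eq μ hu (e' ▸ h2), e']
  by_cases nu : u = pj ν
  · have a1 := hK.sg_sq ν hu
    have a2 := hK.sg_sq μ hu
    rw [e'] at a2
    rw [← nu, sub_self, pow_eq_zero_iff two_ne_zero] at a1 a2
    rw [a1, a2]
  have nx : x ≠ pj ν := by
    intro nx
    have a1 := hK.sg_sq ν hx
    have a2 := hK.sg_sq ν' hx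
    rw [e] at a2
    rw [← nx, sub_self, pow_eq_zero_iff two_ne_zero] at a1 a2
    exact hd (a2.trans a1.symm)
  obtain ⟨b, b1, b2, b3⟩ := hK.meet hx hu
  have hb : pj ν = b := by
    by_contra hb
    exact hd (hK.same_dir hx hu e b1 b2 (b3 ⟨h1, h2⟩) hb h5)
  rw [← hb] at b3
  have T := hK.tri_meet hx hu h1 h2 b3 nx nu
  obtain ⟨c, hc, ec⟩ := T.exists_sign
  have hc2 := sign_sq hc
  have hleg := T.leg hc2 ec
  rw [hK.union_Up hx h1, hK.union_Up hu h2] at ec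
  rw [hK.union_Up hu h2] at hleg
  have a1 : sg ν u = c * sr K u (pj ν) := by
    have q : ∀ μ : Z K, pj μ = pj ν → sg μ x ^ 2 = (c * sr K x (pj ν)) ^ 2 := fun μ h => by
      rw [hK.sg_sq μ hx, mul_pow, hK.sr_sq (pj_mem ν) T.xL, hc2, h]
      ring
    rcases eq_or_eq_neg_of_sq_eq_sq _ _ (q ν rfl) with a | a
    · exact hK.planarZ ν hx hu h1 h2 b3 nx nu hc2 ec a
    · rcases eq_or_eq_neg_of_sq_eq_sq _ _ (q ν' e) with a' | a'
      · rw [← h5, ← e]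
        rw [← e] at h1 h2 b3 nx nu a'
        exact hK.planarZ ν' hx hu h1 h2 b3 nx nu hc2 ec a'
      · exact absurd (a'.trans a.symm) hd
  rw [a1]
  have hl' : l ≤ 𝓝 (pj ν) := hl.trans nhdsWithin_le_nhds
  refine tendsto_nhds_unique (((sg_cont u).tendsto μ).comp hμ) ?_
  have a2 : Tendsto (fun v => c * rr (Ar K (pj ν)) (pj ν) u v) l (𝓝 (c * sr K u (pj ν))) := by
    rw [sr, ← rr_self (Ne.symm nu)]
    exact tendsto_const_nhds.mul ((rr_cont' nu).tendsto.mono_left hl')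
  refine a2.congr' ?_
  filter_upwards [hl self_mem_nhdsWithin, hl' hleg, hκ] with v c1 c2 c3
  have c4 := (T.out c1.1 c1.2).1
  rw [hK.union_Up hu h2] at c4
  rw [← c2 c1.1 c1.2, Function.comp_apply, hK.sg_eq (κ v) hu (c3.symm ▸ c4), c3, sr]

theorem PD.connZ (hK : PD K) : ConnectedSpace (Z K) := by
  classical
  have := hK.compactZ
  have hne : Nonempty (Z K) := by
    obtain ⟨ν, -⟩ : (0 : ℂ) ∈ range (pj : Z K → ℂ) := hK.range_pj.symm ▸ hK.zero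
    exact ⟨ν⟩
  suffices PreconnectedSpace (Z K) from ⟨hne⟩
  refine preconnectedSpace_of_forall_constant fun col hcol α β => ?_
  by_contra hαβ
  let S : Set (Z K × Z K) := {p | pj p.1 = pj p.2} ∩ {p | col p.1 ≠ col p.2}
  have hS : IsClosed S :=
    (isClosed_eq (pj_cont.comp continuous_fst) (pj_cont.comp continuous_snd)).inter
      ((isClosed_discrete {q : Bool × Bool | q.1 ≠ q.2}).preimage
        ((hcol.comp continuous_fst).prodMk (hcol.comp continuous_snd)))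
  have hE : ∀ t : ℂ, IsClosed {p : Z K × Z K | sg p.1 t = sg p.2 t} := fun t =>
    isClosed_eq ((sg_cont t).comp continuous_fst) ((sg_cont t).comp continuous_snd)
  obtain ⟨Fs, hFs⟩ := hS.isCompact.elim_finite_subfamily_closed
    (fun t : K => {p : Z K × Z K | sg p.1 t = sg p.2 t}) (fun t => hE t) (by
      rw [eq_empty_iff_forall_notMem]
      rintro p ⟨⟨h1, h2⟩, h3⟩
      exact h2 (congrArg col (Z_ext h1 fun t ht => mem_iInter.1 h3 ⟨t, ht⟩)))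
  have hSne : S.Nonempty := by
    have hc : ∀ b : Bool, IsClosed (pj '' (col ⁻¹' {b})) := fun b =>
      (((isClosed_discrete _).preimage hcol).isCompact.image pj_cont).isClosed
    obtain ⟨y, -, ⟨ν, h1, h2⟩, μ, h3, h4⟩ := isPreconnected_closed_iff.1 hK.self.conn
      (pj '' (col ⁻¹' {col α})) (pj '' (col ⁻¹' {col β})) (hc _) (hc _) (by
        intro y hy
        obtain ⟨ν, rfl⟩ : y ∈ range (pj : Z K → ℂ) := hK.range_pj.symm ▸ hy
        by_cases h : col ν = col α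
        · exact Or.inl ⟨ν, h, rfl⟩
        · exact Or.inr ⟨ν, (Bool.eq_not_of_ne h).trans (Bool.eq_not_of_ne (Ne.symm hαβ)).symm, rfl⟩)
      ⟨_, pj_mem α, α, rfl, rfl⟩ ⟨_, pj_mem β, β, rfl, rfl⟩
    refine ⟨(ν, μ), h2.trans h4.symm, fun h => hαβ ?_⟩
    rw [← mem_singleton_iff.1 h1, ← mem_singleton_iff.1 h3]
    exact h
  let Df : Z K × Z K → Finset K := fun p => Fs.filter fun t => sg p.1 t ≠ sg p.2 t
  obtain ⟨p₀, hp₀, hmin⟩ := exists_minimalFor_of_wellFoundedLT (· ∈ S) (fun p => (Df p).card) hSne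
  obtain ⟨x, hx⟩ : (Df p₀).Nonempty := by
    rw [Finset.nonempty_iff_ne_empty]
    intro h
    have : p₀ ∈ S ∩ ⋂ t ∈ Fs, {p : Z K × Z K | sg p.1 t = sg p.2 t} := by
      refine ⟨hp₀, mem_iInter₂.2 fun t ht => ?_⟩
      by_contra h'
      have : t ∈ Df p₀ := Finset.mem_filter.2 ⟨ht, h'⟩
      simp [h] at this
    rw [hFs] at this
    exact this
  let S₀ : Set (Z K × Z K) := S ∩ ⋂ t ∈ Fs \ Df p₀, {p : Z K × Z K | sg p.1 t = sg p.2 t}
  have hS₀ : IsClosed S₀ := hS.inter (isClosed_biInter fun t _ => hE t)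
  have key : ∀ p ∈ S₀, sg p.1 x ≠ sg p.2 x := by
    intro p hp
    have h1 : Df p ⊆ Df p₀ := by
      intro t ht
      by_contra h
      exact (Finset.mem_filter.1 ht).2 (mem_iInter₂.1 hp.2 t
        (Finset.mem_sdiff.2 ⟨(Finset.mem_filter.1 ht).1, h⟩))
    have h2 := Finset.eq_of_subset_of_card_le h1 (hmin hp.1 (Finset.card_le_card h1))
    exact (Finset.mem_filter.1 (h2.symm ▸ hx : x ∈ Df p)).2
  have hAr : ∀ p ∈ S₀, pj p.1 ∈ Ar K x := by
    intro p hp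
    by_contra h
    have e : pj p.1 = pj p.2 := hp.1.1
    exact key p hp (by rw [hK.sg_eq p.1 x.2 h, hK.sg_eq p.2 x.2 (e ▸ h), e])
  have hp₀' : p₀ ∈ S₀ := ⟨hp₀, mem_iInter₂.2 fun t ht => by
    by_contra h
    exact (Finset.mem_sdiff.1 ht).2 (Finset.mem_filter.2 ⟨(Finset.mem_sdiff.1 ht).1, h⟩)⟩
  obtain ⟨_, ⟨hy, ⟨ν, ν'⟩, hp, rfl⟩, hmax⟩ := hK.exists_max x.2
    (P := (fun p : Z K × Z K => pj p.1) '' S₀)
    (hS₀.isCompact.image (pj_cont.comp continuous_fst)).isClosed ⟨_, hAr p₀ hp₀', p₀, hp₀', rfl⟩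
  simp only at hy hmax
  have e : pj ν = pj ν' := hp.1.1
  have hcn : col ν ≠ col ν' := hp.1.2
  have hd : sg ν x ≠ sg ν' x := key _ hp
  have hoff : ∀ u ∈ Fs \ Df p₀, sg ν u = sg ν' u := fun u hu => mem_iInter₂.1 hp.2 u hu
  have nx : (x : ℂ) ≠ pj ν := by
    intro nx
    have a1 := hK.sg_sq ν x.2
    have a2 := hK.sg_sq ν' x.2
    rw [← e] at a2
    rw [← nx, sub_self, pow_eq_zero_iff two_ne_zero] at a1 a2
    exact hd (a1.trans a2.symm)
  have hacc : (𝓝[Up K (pj ν) x \ {pj ν}] pj ν).NeBot := by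
    have := (hK.Up_cont x.2 hy).conn.preperfect_of_nontrivial
      ⟨_, right_mem_Up hy, _, left_mem_Up hy, nx⟩ _ (left_mem_Up hy)
    rwa [accPt_principal_iff_nhdsWithin] at this
  obtain ⟨U, hU⟩ := Ultrafilter.exists_le (𝓝[Up K (pj ν) x \ {pj ν}] pj ν)
  have hU' : Tendsto id U (𝓝 (pj ν)) := hU.trans nhdsWithin_le_nhds
  have lift : ∀ ν₁ ν₂ : Z K, pj ν₁ = pj ν → pj ν₂ = pj ν → sg ν₂ x ≠ sg ν₁ x →
      (∀ u ∈ Fs \ Df p₀, sg ν₂ u = sg ν₁ u) →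
      ∀ᶠ v in (U : Filter ℂ), ∃ κ : Z K, pj κ = v ∧ col κ = col ν₁ := by
    intro ν₁ ν₂ e1 e2 hd hoff
    have h1 : ∀ v, ∃ κ : Z K, v ∈ Up K (pj ν) x \ {pj ν} → v ≠ x →
        pj κ = v ∧ sg κ x = sg ν₁ x * rt v (pj ν) x := by
      intro v
      by_cases h : v ∈ Up K (pj ν) x \ {pj ν} ∧ v ≠ x
      · obtain ⟨κ, hκ⟩ := hK.both x.2 h.1.1.1 (fun e => h.1.2 (by
          have := h.1.1.2
          rw [e] at this ⊢
          exact (hK.Ar_zero this).symm)) h.2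
          (mul_rt_sq' (p := v) nx.symm (by rw [hK.sg_sq ν₁ x.2, e1]))
        exact ⟨κ, fun _ _ => hκ⟩
      · exact ⟨ν, fun a1 a2 => absurd ⟨a1, a2⟩ h⟩
    choose κ hκ using h1
    have h2 : ∀ᶠ v in (U : Filter ℂ), pj (κ v) = v ∧ sg (κ v) x = sg ν₁ x * rt v (pj ν) x := by
      filter_upwards [hU self_mem_nhdsWithin, hU' (eventually_ne_nhds nx.symm)] with v a1 a2
      exact hκ v a1 a2
    obtain ⟨μ, -, hμ⟩ := isCompact_univ.ultrafilter_le_nhds (U.map κ) (by simp)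
    have hμ' : Tendsto κ U (𝓝 μ) := hμ
    have a1 : pj μ = pj ν := tendsto_nhds_unique ((pj_cont.tendsto μ).comp hμ')
      (hU'.congr' (h2.mono fun v h => h.1.symm))
    have a2 : sg μ x = sg ν₁ x := by
      refine tendsto_nhds_unique (((sg_cont x).tendsto μ).comp hμ')
        (Tendsto.congr' (h2.mono fun v h => h.2.symm) ?_)
      simpa using (tendsto_const_nhds (x := sg ν₁ x)).mul (tendsto_rt_one hU' tendsto_const_nhds
        tendsto_const_nhds nx.symm)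
    have a3 : col μ = col ν₁ := by
      by_contra h
      refine key (μ, ν₁) ⟨⟨a1.trans e1.symm, h⟩, mem_iInter₂.2 fun u hu => ?_⟩ a2
      exact hK.leg_limit x.2 u.2 (e2.trans e1.symm) (a1.trans e1.symm) (e1.symm ▸ hy) hd
        (hoff u hu) (l := U) (e1.symm ▸ hU) (h2.mono fun v h => h.1) hμ'
    have a4 : ∀ᶠ v in (U : Filter ℂ), col (κ v) = col μ :=
      ((hcol.tendsto μ).comp hμ').eventually (p := fun b => b = col μ)
        ((isOpen_discrete {col μ}).mem_nhds rfl)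
    filter_upwards [h2, a4] with v b1 b2
    exact ⟨κ v, b1.1, b2.trans a3⟩
  obtain ⟨v, ⟨κ, a1, a2⟩, ⟨κ', a3, a4⟩, a5⟩ := ((lift ν ν' rfl e.symm hd.symm
    fun u hu => (hoff u hu).symm).and ((lift ν' ν e.symm rfl hd hoff).and
      (hU self_mem_nhdsWithin))).exists
  have a6 : (κ, κ') ∈ S₀ := by
    refine ⟨⟨a1.trans a3.symm, fun h => hcn (a2.symm.trans (h.trans a4))⟩,
      mem_iInter₂.2 fun u hu => ?_⟩
    have hv : v ∉ Ar K u := fun h => hd (hK.same_dir x.2 u.2 e.symm a5.1.1 h a5.1.2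
      (Ne.symm a5.2) (hoff u hu).symm).symm
    change sg κ u = sg κ' u
    rw [hK.sg_eq κ u.2 (a1.symm ▸ hv), hK.sg_eq κ' u.2 (a3.symm ▸ hv), a1, a3]
  exact a5.2 (hK.antisymm (pj_mem ν) (hmax ⟨a5.1.1, _, a6, a1⟩) a5.1.2)

end Pool.Agent.Lib.MP_1126ca_gt
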