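import Pool.Agent.Lib.MP_1126ca_gt.Hair
import Pool.Agent.Lib.MP_1126ca_gt.Chain

set_option autoImplicit false

open Set Topology Filter Function Complex Metric

namespace Pool.Agent.Lib.MP_1126ca_gt

variable {K : Set ℂ} {N : Set (Z K)}

theorem PD.near (hK : PD K) {L : Set ℂ} (hL : Cont K L) (hne : L.Nonempty) :
    ∃ (n : ℂ → ℂ) (y₀ : ℂ), ∀ ν : Z K, pj ν ∈ L → pj ν ≠ y₀ → pj ν ≠ 0 →
      Tendsto n (fl ν) (𝓝 (pj ν)) ∧ ∀ᶠ w in fl ν, Hair K L w (n w) := by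
  obtain ⟨y₀, h1, h2, h3⟩ := hK.hull_eq hL hne
  have hC : IsClosed (hull K L ∪ Ray) := (hK.hull_cont hL hne).cpt.isClosed.union isClosed_Ray
  choose n hn1 hn2 using fun w => hC.exists_infDist_eq_dist ⟨0, Or.inr zero_mem_Ray⟩ w
  have hle : ∀ w, ∀ p ∈ hull K L ∪ Ray, dist w (n w) ≤ dist w p := fun w p hp =>
    hn2 w ▸ infDist_le_dist_of_mem hp
  refine ⟨n, y₀, fun ν a1 a2 a3 => ?_⟩
  have b1 : Tendsto n (fl ν) (𝓝 (pj ν)) := by
    rw [tendsto_iff_dist_tendsto_zero]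
    have : Tendsto (fun w => 2 * dist w (pj ν)) (fl ν) (𝓝 0) := by
      simpa using (tendsto_iff_dist_tendsto_zero.1 (fl_le ν)).const_mul 2
    refine squeeze_zero (fun _ => dist_nonneg) (fun w => ?_) this
    have := hle w (pj ν) (Or.inl (Ar_subset_hull a1 (self_mem_Ar _)))
    linarith [dist_triangle_left (n w) (pj ν) w]
  refine ⟨b1, ?_⟩
  have b2 : pj ν ∉ Ar K y₀ ∪ Ray := fun e =>
    e.elim (fun e => a2 (h3 ⟨e, a1⟩)) (hK.not_ray (pj_mem ν) a3)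
  filter_upwards [fl_V ν, b1 (((hK.Ar_cont (hL.sub h1)).cpt.isClosed.union
    isClosed_Ray).isOpen_compl.mem_nhds b2)] with w c1 c2
  have c3 : n w ∈ L := by
    have := hn1 w
    rw [h2] at this
    rcases this with (e | e) | e
    · exact absurd (Or.inl e) c2
    · exact e
    · exact absurd (Or.inr e) c2
  refine ⟨c3, fun e => c2 (Or.inr (e ▸ zero_mem_Ray)), fun e => c1 (Or.inl (e ▸ hL.sub c3)),
    fun p hp hp' => ?_⟩
  have c4 := dist_add_dist_of_mem_segment hp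
  exact dist_le_zero.1 (by linarith [hle w p hp'])

theorem PD.loc (hK : PD K) (hN : IsCompact N) (hp : IsPreconnected N) {ν : Z K} (hν : ν ∈ N)
    {n : ℂ → ℂ} (hn : Tendsto n (fl ν) (𝓝 (pj ν))) {U : Set (Z K)} (hU : U ∈ 𝓝 ν) :
    ∀ᶠ w in fl ν, ∀ m ∈ N, Land (pj '' N) w (n w) m → m ∈ U := by
  have h1 : ∀ w, ∃ m : Z K, (∃ m ∈ N, Land (pj '' N) w (n w) m) →
      m ∈ N ∧ Land (pj '' N) w (n w) m := by
    intro w
    by_cases h : ∃ m ∈ N, Land (pj '' N) w (n w) m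
    · obtain ⟨m, hm⟩ := h
      exact ⟨m, fun _ => hm⟩
    · exact ⟨ν, fun e => absurd e h⟩
  choose m hm using h1
  set l := fl ν ⊓ 𝓟 {w | ∃ m ∈ N, Land (pj '' N) w (n w) m} with hl
  have h2 : ∀ᶠ w in l, m w ∈ N ∧ Land (pj '' N) w (n w) (m w) :=
    Eventually.mono (mem_inf_of_right (mem_principal_self _)) hm
  have hle : l ≤ fl ν := inf_le_left
  have h3 : Tendsto (fun w => pj (m w)) l (𝓝 (pj ν)) :=
    (hn.mono_left hle).congr' (h2.mono fun w h => h.2.1.symm)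
  have h4 : Tendsto m l (𝓝 ν) := by
    refine Z_tendsto h3 fun t ht => ?_
    by_cases h : t ∈ pj '' N
    swap
    · obtain ⟨r, a1, a2⟩ := hK.block hN hp ht h
      rw [a2 ν hν]
      refine ((a1 _ ⟨ν, hν, rfl⟩).tendsto.comp (tendsto_nhdsWithin_iff.2 ⟨h3,
        h2.mono fun w h => ⟨_, h.1, rfl⟩⟩)).congr' (h2.mono fun w h => (a2 _ h.1).symm)
    by_cases h' : pj ν = t
    · have a1 := hK.sg_sq ν ht
      rw [h', sub_self, pow_eq_zero_iff two_ne_zero] at a1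
      rw [a1, tendsto_zero_iff_norm_tendsto_zero]
      have a2 : Tendsto (fun w => √‖t - pj (m w)‖) l (𝓝 0) := by
        have := (((tendsto_const_nhds (x := t)).sub h3).norm).sqrt
        simpa [h'] using this
      refine a2.congr fun w => ?_
      rw [← hK.sg_sq (m w) ht, norm_pow, Real.sqrt_sq (norm_nonneg _)]
    · have := ((hK.fl_sr ν ht).mul (tendsto_rt_one hn (fl_le ν) tendsto_const_nhds h')).mono_left hle
      rw [mul_one] at this
      exact this.congr' (h2.mono fun w hw => (hw.2.2 t h).symm)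
  have h5 : ∀ᶠ w in l, m w ∈ U := h4 hU
  rw [hl, eventually_inf_principal] at h5
  filter_upwards [h5] with w hw m' a1 a2
  rw [hK.land_unique hN hp a1 (hm w ⟨m', a1, a2⟩).1 a2 (hm w ⟨m', a1, a2⟩).2]
  exact hw ⟨m', a1, a2⟩

/-- All of `N` lies on the side `c` of the hair. -/
def One (N : Set (Z K)) (c z y : ℂ) : Prop :=
  Hair K (pj '' N) z y ∧ ∀ ν ∈ N, pj ν ≠ y → ν ∈ Side z y c N

theorem PD.step (hK : PD K) (hL : Cont K (pj '' N)) {c z t : ℂ} (hc : c ^ 2 = -1)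
    (h : One N c z t) {ν : Z K} (hν : ν ∈ N) (hνt : pj ν ≠ t) {n : ℂ → ℂ}
    (hn : Tendsto n (fl ν) (𝓝 (pj ν))) (hh : ∀ᶠ w in fl ν, Hair K (pj '' N) w (n w)) :
    ∀ᶠ w in fl ν, One N c w (n w) → t ∈ Ar K (n w) := by
  have hc0 : c ≠ 0 := by
    rintro rfl
    simp at hc
  have htK := hL.sub h.1.mem
  have ha : pj ν ∈ pj '' N := ⟨ν, hν, rfl⟩
  have hr := h.1.sr_root hK hL
  have hseg := h.1.not_seg ha hνt
  have hnt : ∀ᶠ w in fl ν, n w ≠ t := hn (eventually_ne_nhds hνt)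
  have h1 : ∀ᶠ w in fl ν, sr K w t * rt (n w) w t * rt z t (n w) = c * sr K z (n w) := by
    refine sq_ev (a := c * sr K z (pj ν)) ?_ (tendsto_const_nhds.mul ((hr.1 _ ha).tendsto.comp
      (tendsto_nhdsWithin_iff.2 ⟨hn, hh.mono fun w h => h.mem⟩)))
      (mul_ne_zero hc0 (h.1.sr_ne hK hL ha)) ?_
    · have := ((hK.fl_sr ν htK).mul (tendsto_rt_one hn (fl_le ν) tendsto_const_nhds hνt)).mul
        (tendsto_rt tendsto_const_nhds tendsto_const_nhds hn hseg)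
      rwa [mul_one, (h.2 ν hν hνt).2.2] at this
    · filter_upwards [hh, hnt] with w a1 a2
      have a3 := a1.not_Ar h.1.mem
      have a4 : w ≠ t := fun e => a3 (e.symm ▸ self_mem_Ar t)
      rw [mul_rt_sq a2.symm (mul_rt_sq' a4 (hK.sr_sq htK a3)),
        mul_pow, hr.2 _ a1.mem, hc]
      ring
  filter_upwards [h1, hnt, ev_segment (tame_segment z t).cpt.isClosed hseg (fl_le ν) hn]
    with w a1 a2 a3 a4
  by_contra a5
  have a6 := anti (Set.disjoint_right.2 a3) (hr.2 _ a4.1.mem)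
    ((a4.1.sr_root hK hL).2 t h.1.mem) hc a1
  obtain ⟨μ, b1, b2⟩ := h.1.mem
  have b3 := (a4.2 μ b1 (b2 ▸ a2.symm)).2.2
  have b4 := hK.sr_seg (hL.sub a4.1.mem) (convex_segment z t).isPreconnected
    (left_mem_segment ℝ z t) Subset.rfl (fun p hp e => by
      have : p = t := h.1.seg p hp (e.imp (fun e => Ar_subset_hull a4.1.mem e) id)
      rw [this] at e
      exact e.elim a5 (hK.not_ray htK h.1.ne0)) (h.1.not_seg a4.1.mem a2) t
    (right_mem_segment ℝ z t)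
  rw [hK.sg_eq μ (hL.sub a4.1.mem) (b2 ▸ a5), b2, b4] at b3
  refine ne_neg_self (mul_ne_zero hc0 (a4.1.sr_ne hK hL h.1.mem)) ?_
  rw [← neg_mul, ← a6]
  exact b3.symm

theorem PD.exists_hair (hK : PD K) (hN : IsCompact N) (hp : IsPreconnected N)
    (hnt : N.Nontrivial) {U : Set (Z K)} (hU : IsOpen U) (hne : (N ∩ U).Nonempty) {G : Set ℂ}
    (hG : IsClosed G) (hfin : (G ∩ pj '' N).Finite) :
    ∃ z y m, Hair K (pj '' N) z y ∧ Disjoint (segment ℝ z y) G ∧ (Side z y I N).Nonempty ∧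
      (Side z y (-I) N).Nonempty ∧ m ∈ closure (Side z y I N) ∧ m ∈ closure (Side z y (-I) N) ∧
      m ∈ U := by
  by_contra hcon
  have hL := cont_pj hN hp
  obtain ⟨n, y₀, hn⟩ := hK.near hL (hnt.nonempty.image _)
  let S : Set ℂ := insert y₀ (insert 0 (G ∩ pj '' N))
  have hS : S.Finite := (hfin.insert _).insert _
  have good : ∀ ν ∈ N, pj ν ∉ S →
      Tendsto n (fl ν) (𝓝 (pj ν)) ∧ ∀ᶠ w in fl ν, Hair K (pj '' N) w (n w) := fun ν h1 h2 =>
    hn ν ⟨ν, h1, rfl⟩ (fun e => h2 (Or.inl e)) fun e => h2 (Or.inr (Or.inl e))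
  have h1 : ∀ ν ∈ N ∩ U, pj ν ∉ S → (∃ᶠ w in fl ν, One N I w (n w)) ∨
      ∃ᶠ w in fl ν, One N (-I) w (n w) := by
    intro ν hν hs
    rw [← frequently_or_distrib]
    refine Eventually.frequently ?_
    filter_upwards [(good ν hν.1 hs).2, hK.loc hN hp hν.1 (good ν hν.1 hs).1 (hU.mem_nhds hν.2),
      ev_segment hG (fun e => hs (Or.inr (Or.inr ⟨e, ν, hν.1, rfl⟩))) (fl_le ν)
        (good ν hν.1 hs).1] with w a1 a2 a3
    by_contra a4
    simp only [One, a1, true_and, not_or, not_forall] at a4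
    obtain ⟨⟨μ, b1, b2, b3⟩, μ', b4, b5, b6⟩ := a4
    have c1 : (Side w (n w) I N).Nonempty := ⟨μ', (a1.dich hK hL b4 b5).resolve_right b6⟩
    have c2 : (Side w (n w) (-I) N).Nonempty := ⟨μ, (a1.dich hK hL b1 b2).resolve_left b3⟩
    obtain ⟨m, c3, c4⟩ := a1.exists_land hK hN hp hnt c1 c2
    exact hcon ⟨w, n w, m, a1, Set.disjoint_left.2 a3, c1, c2, c3, c4,
      a2 m (closure_side hN c3) (a1.land hK hN hL c3 c4)⟩
  have h2 : ∀ c : ℂ, c ^ 2 = -1 → ∀ ν ∈ N, pj ν ∉ S → (∃ᶠ w in fl ν, One N c w (n w)) →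
      ∀ μ ∈ N, pj μ ∉ S → (∃ᶠ w in fl μ, One N c w (n w)) → pj μ ∈ Ar K (pj ν) := by
    intro c hc ν a1 a2 a3 μ b1 b2 b3
    have := hK.borsuk (Y := {y | ∃ z, One N c z y}) (a := pj ν)
      (fun y ⟨z, hz⟩ => hL.sub hz.1.mem) (by
        rintro y ⟨z, hz⟩ hy ε hε
        obtain ⟨w, c1, c2, c3⟩ := (a3.and_eventually ((hK.step hL hc hz a1 hy.symm
          (good ν a1 a2).1 (good ν a1 a2).2).and
          ((good ν a1 a2).1 (ball_mem_nhds _ hε)))).exists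
        exact ⟨n w, ⟨w, c1⟩, c2 c1, c3⟩)
    exact (hK.Ar_cont (pj_mem ν)).cpt.isClosed.mem_of_frequently_of_tendsto
      (b3.mono fun w hw => this ⟨w, hw⟩) (good μ b1 b2).1
  have h3 : ∀ c : ℂ, c ^ 2 = -1 → ∀ ν ∈ N, pj ν ∉ S → (∃ᶠ w in fl ν, One N c w (n w)) →
      ∀ μ ∈ N, pj μ ∉ S → (∃ᶠ w in fl μ, One N c w (n w)) → pj μ = pj ν :=
    fun c hc ν a1 a2 a3 μ b1 b2 b3 => hK.antisymm (pj_mem ν) (h2 c hc ν a1 a2 a3 μ b1 b2 b3)
      (h2 c hc μ b1 b2 b3 ν a1 a2 a3)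
  have hI : (-I) ^ 2 = -1 := by simp
  obtain ⟨ν₁, a1, a2⟩ := hK.small hN hp hnt hU hne hS
  obtain ⟨ν₂, b1, b2⟩ := hK.small hN hp hnt hU hne (hS.insert (pj ν₁))
  obtain ⟨ν₃, c1, c2⟩ := hK.small hN hp hnt hU hne ((hS.insert (pj ν₁)).insert (pj ν₂))
  simp only [mem_insert_iff (s := S), mem_insert_iff (s := insert (pj ν₁) S), not_or] at b2 c2
  rcases h1 ν₁ a1 a2 with d1 | d1 <;> rcases h1 ν₂ b1 b2.2 with d2 | d2 <;>
    rcases h1 ν₃ c1 c2.2.2 with d3 | d3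
  · exact b2.1 (h3 _ I_sq _ a1.1 a2 d1 _ b1.1 b2.2 d2)
  · exact b2.1 (h3 _ I_sq _ a1.1 a2 d1 _ b1.1 b2.2 d2)
  · exact c2.2.1 (h3 _ I_sq _ a1.1 a2 d1 _ c1.1 c2.2.2 d3)
  · exact c2.1 (h3 _ hI _ b1.1 b2.2 d2 _ c1.1 c2.2.2 d3)
  · exact c2.1 (h3 _ I_sq _ b1.1 b2.2 d2 _ c1.1 c2.2.2 d3)
  · exact c2.2.1 (h3 _ hI _ a1.1 a2 d1 _ c1.1 c2.2.2 d3)
  · exact b2.1 (h3 _ hI _ a1.1 a2 d1 _ b1.1 b2.2 d2)
  · exact b2.1 (h3 _ hI _ a1.1 a2 d1 _ b1.1 b2.2 d2)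

theorem PD.anti_land (hK : PD K) {L L' : Set ℂ} (hL : Cont K L) (hL' : Cont K L')
    {z y z' y' c : ℂ} (h : Hair K L z y) (h' : Hair K L' z' y') (hy : y ∈ L') (hy' : y' ∈ L)
    (hd : Disjoint (segment ℝ z y) (segment ℝ z' y')) {m m' : Z K} (hm : Land L z y m)
    (hm' : Land L' z' y' m') (hc : c ^ 2 = -1)
    (e : sg m' y * rt z y (pj m') = c * sr K z (pj m')) :
    sg m y' * rt z' y' (pj m) = -c * sr K z' (pj m) := by
  rw [hm'.1, hm'.2 y hy] at e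
  rw [hm.1, hm.2 y' hy']
  exact anti hd ((h.sr_root hK hL).2 y' hy') ((h'.sr_root hK hL').2 y hy) hc e

theorem Hair.nested {z y c : ℂ} (h : Hair K (pj '' N) z y) (hK : PD K) (hN : IsCompact N)
    (hp : IsPreconnected N) (hc : c = I ∨ c = -I) {m : Z K} (hm : Land (pj '' N) z y m) :
    Nested (closure (Side z y c N)) m := by
  intro C D hC hD cC cD pC pD mC mD
  by_contra hcon
  rw [not_or, not_subset, not_subset] at hcon
  obtain ⟨⟨ν₁, a1, a2⟩, ν₂, a3, a4⟩ := hcon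
  have hL := cont_pj hN hp
  have hc2 := sign_sq hc
  have hc' : -c = I ∨ -c = -I := by
    rcases hc with rfl | rfl <;> simp
  have cN : IsCompact (C ∪ D) := cC.union cD
  have pN : IsPreconnected (C ∪ D) := pC.union m mC mD pD
  have nN : (C ∪ D).Nontrivial := ⟨ν₁, Or.inl a1, m, Or.inr mD, fun e => a2 (e ▸ mD)⟩
  have sA : C ∪ D ⊆ closure (Side z y c N) := union_subset hC hD
  have sL : pj '' (C ∪ D) ⊆ pj '' N := image_mono (sA.trans (closure_side hN))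
  have hL' := cont_pj cN pN
  have fin : ∀ {L : Set ℂ} {z y : ℂ}, Hair K L z y → pj '' (C ∪ D) ⊆ L →
      (segment ℝ z y ∩ pj '' (C ∪ D)).Finite := fun {L z y} h hs =>
    (finite_singleton y).subset fun p hp => by
      by_contra e
      exact h.not_seg (hs hp.2) e hp.1
  obtain ⟨z', y', m', b1, b2, -, -, b3, b4, b5⟩ := hK.exists_hair cN pN nN
    cD.isClosed.isOpen_compl ⟨ν₁, Or.inl a1, a2⟩ (tame_segment z y).cpt.isClosed (fin h sL)
  obtain ⟨z'', y'', m'', c1, c2, -, -, c3, c4, c5⟩ := hK.exists_hair cN pN nN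
    cC.isClosed.isOpen_compl ⟨ν₂, Or.inr a3, a4⟩
    ((tame_segment z y).cpt.isClosed.union (tame_segment z' y').cpt.isClosed) (by
      rw [union_inter_distrib_right]
      exact (fin h sL).union (fin b1 Subset.rfl))
  rw [disjoint_union_right] at c2
  have b6 := b1.land hK cN hL' b3 b4
  have c6 := c1.land hK cN hL' c3 c4
  have b7 := closure_side cN b3
  have c7 := closure_side cN c3
  have ne : ∀ {z y z' y' : ℂ}, Disjoint (segment ℝ z y) (segment ℝ z' y') → y ≠ y' :=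
    fun {z y z' y'} hd e => Set.disjoint_left.1 hd (right_mem_segment ℝ z y)
      (e ▸ right_mem_segment ℝ z' y)
  have behind : ∀ {z' y' : ℂ} {m' : Z K} {E : Set (Z K)}, Hair K (pj '' (C ∪ D)) z' y' →
      Disjoint (segment ℝ z' y') (segment ℝ z y) → m' ∈ C ∪ D → Land (pj '' (C ∪ D)) z' y' m' →
      IsPreconnected E → E ⊆ C ∪ D → m ∈ E → m' ∉ E → ∀ μ ∈ E, pj μ ≠ y' →
      μ ∈ Side z' y' (-c) (C ∪ D) := by
    intro z' y' m' E d1 d2 d3 d4 d5 d6 d7 d8 μ d9 d10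
    have e1 := h.rel_closed hK hN hL (sA d3) (d4.1 ▸ ne d2)
    have e2 := hK.anti_land hL hL' h d1 ⟨m, d6 d7, hm.1⟩ (sL d1.mem) d2.symm hm d4 hc2 e1.2.2
    exact d1.cross hK cN pN nN hc' d5 d6 d3 d4 d8 d7 ⟨d6 d7, hm.1 ▸ ne d2.symm, e2⟩ d9 d10
  have d1 := behind b1 b2 b7 b6 pD subset_union_right mD b5 m'' (c7.resolve_left c5)
    (c6.1 ▸ ne c2.2)
  have d2 := behind c1 c2.1 c7 c6 pC subset_union_left mC c5 m' (b7.resolve_right b5)
    (b6.1 ▸ ne c2.2.symm)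
  have d3 := hK.anti_land hL' hL' b1 c1 b1.mem c1.mem c2.2.symm b6 c6 (sign_sq hc') d1.2.2
  exact c1.not_both hK hL' (sign_sq hc') d2 ⟨d2.1, d2.2.1, d3⟩

theorem PD.hasCut (hK : PD K) (hN : IsCompact N) (hp : IsPreconnected N) (hnt : N.Nontrivial) :
    HasCut N := by
  have := hK.compactZ
  have hL := cont_pj hN hp
  obtain ⟨z, y, m, a1, -, ⟨μ, a2⟩, ⟨μ', a3⟩, a4, a5, -⟩ := hK.exists_hair hN hp hnt isOpen_univ
    (by simpa using hnt.nonempty) isClosed_empty (by simp)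
  have a6 := a1.land hK hN hL a4 a5
  refine ⟨_, _, m, isClosed_closure.isCompact, isClosed_closure.isCompact,
    a1.cover hK hN hp hnt, fun e => ?_, fun e => ?_, fun ν hν => ?_, a4, a5,
    a1.nested hK hN hp (Or.inl rfl) a6, a1.nested hK hN hp (Or.inr rfl) a6⟩
  · exact a1.not_both hK hL I_sq (a1.rel_closed hK hN hL (e.symm ▸ a3.1) a3.2.1) a3
  · exact a1.not_both hK hL I_sq a2 (a1.rel_closed hK hN hL (e.symm ▸ a2.1) a2.2.1)
  · exact hK.land_unique hN hp (closure_side hN hν.1) (closure_side hN a4)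
      (a1.land hK hN hL hν.1 hν.2) a6

end Pool.Agent.Lib.MP_1126ca_gt
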