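import Pool.Agent.Lib.MP_1126ca_gt.Planar
import Pool.Agent.Lib.MP_1126ca_gt.Arc

set_option autoImplicit false

open Set Topology Filter Function Complex Metric

namespace Pool.Agent.Lib.MP_1126ca_gt

/-- A (possibly empty) subcontinuum of `K`. -/
structure Cont (K C : Set ℂ) : Prop where
  sub : C ⊆ K
  cpt : IsCompact C
  conn : IsPreconnected C

/-- A plane dendroid in normal position. -/
structure PD (K : Set ℂ) : Prop where
  cpt : IsCompact K
  path : IsPathConnected K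
  hu : ∀ A B, Cont K A → Cont K B → IsPreconnected (A ∩ B)
  zero : (0 : ℂ) ∈ K
  ray : K ∩ Ray ⊆ {0}

variable {K : Set ℂ}

theorem Cont.union {A B : Set ℂ} (hA : Cont K A) (hB : Cont K B) {p : ℂ} (h1 : p ∈ A)
    (h2 : p ∈ B) : Cont K (A ∪ B) :=
  ⟨union_subset hA.sub hB.sub, hA.cpt.union hB.cpt, hA.conn.union p h1 h2 hB.conn⟩

theorem PD.self (hK : PD K) : Cont K K :=
  ⟨Subset.rfl, hK.cpt, hK.path.isConnected.isPreconnected⟩

theorem cont_image {α : ℝ → ℂ} (hα : Continuous α) {a b : ℝ} (h : α '' Icc a b ⊆ K) :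
    Cont K (α '' Icc a b) :=
  ⟨h, isCompact_Icc.image hα, isPreconnected_Icc.image _ hα.continuousOn⟩

theorem PD.arc_sub (hK : PD K) {α : ℝ → ℂ} (hα : Continuous α) {a b : ℝ} (hab : a ≤ b)
    (hi : InjOn α (Icc a b)) (h : α '' Icc a b ⊆ K) {C : Set ℂ} (hC : Cont K C) (ha : α a ∈ C)
    (hb : α b ∈ C) : α '' Icc a b ⊆ C := by
  rintro _ ⟨s, hs, rfl⟩
  obtain ⟨p, ⟨-, hp⟩, ⟨s₁, h1, e1⟩, ⟨s₂, h2, e2⟩⟩ := isPreconnected_closed_iff.1
    (hK.hu _ _ (cont_image hα h) hC) (α '' Icc a s) (α '' Icc s b)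
    (isCompact_Icc.image hα).isClosed (isCompact_Icc.image hα).isClosed (by
      rw [← image_union, Icc_union_Icc_eq_Icc hs.1 hs.2]
      exact inter_subset_left)
    ⟨α a, ⟨⟨a, left_mem_Icc.2 hab, rfl⟩, ha⟩, a, left_mem_Icc.2 hs.1, rfl⟩
    ⟨α b, ⟨⟨b, right_mem_Icc.2 hab, rfl⟩, hb⟩, b, right_mem_Icc.2 hs.2, rfl⟩
  have := hi ⟨h1.1, h1.2.trans hs.2⟩ ⟨hs.1.trans h2.1, h2.2⟩ (e1.trans e2.symm)
  rw [show s = s₁ from le_antisymm (this ▸ h2.1) h1.2, e1]
  exact hp

theorem PD.exists_arc (hK : PD K) {C : Set ℂ} (hC : Cont K C) {p q : ℂ} (hp : p ∈ C)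
    (hq : q ∈ C) (hpq : p ≠ q) : ∃ α, IsArc α p q ∧ α '' Icc 0 1 ⊆ C := by
  obtain ⟨α, hα, h⟩ := MP_1126ca_gt.exists_arc (hK.path.joinedIn p (hC.sub hp) q (hC.sub hq)) hpq
  exact ⟨α, hα, hK.arc_sub hα.cont zero_le_one hα.inj h hC (hα.zero.symm ▸ hp)
    (hα.one.symm ▸ hq)⟩

theorem conn_union_of_split {X : Type} [TopologicalSpace X] {C P Q : Set X} (hC : IsClosed C)
    (hP : IsClosed P) (hQ : IsClosed Q) (hCp : IsPreconnected C)
    (hM : IsPreconnected (C ∪ P ∪ Q)) (hPQ : Disjoint P Q) : IsPreconnected (C ∪ P) := by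
  rw [isPreconnected_iff_subset_of_disjoint_closed]
  have key : ∀ u v : Set X, IsClosed u → IsClosed v → C ∪ P ⊆ u ∪ v → (C ∪ P) ∩ (u ∩ v) = ∅ →
      C ⊆ u → C ∪ P ⊆ u ∨ C ∪ P ⊆ v := by
    intro u v hu hv hs huv hCu
    have := (isPreconnected_iff_subset_of_disjoint_closed.1 hM) (((C ∪ P) ∩ u) ∪ Q) (P ∩ v)
      (((hC.union hP).inter hu).union hQ) (hP.inter hv) (by
        rintro x ((hx | hx) | hx)
        · exact Or.inl (Or.inl ⟨Or.inl hx, hCu hx⟩)
        · rcases hs (Or.inr hx) with h | h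
          · exact Or.inl (Or.inl ⟨Or.inr hx, h⟩)
          · exact Or.inr ⟨hx, h⟩
        · exact Or.inl (Or.inr hx)) (by
        rw [eq_empty_iff_forall_notMem]
        rintro x ⟨-, (⟨h1, h2⟩ | h1), h3, h4⟩
        · have : x ∈ (C ∪ P) ∩ (u ∩ v) := ⟨h1, h2, h4⟩
          rw [huv] at this
          exact this
        · exact Set.disjoint_left.1 hPQ h3 h1)
    rcases this with h | h
    · left
      intro x hx
      rcases h (Or.inl hx) with h' | h'
      · exact h'.2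
      · exact hCu (hx.resolve_right fun e => Set.disjoint_left.1 hPQ e h')
    · right
      exact fun x hx => (h (Or.inl hx)).2
  intro u v hu hv hs huv
  rcases (isPreconnected_iff_subset_of_disjoint_closed.1 hCp) u v hu hv
    (subset_union_left.trans hs) (by
      rw [eq_empty_iff_forall_notMem]
      intro x hx
      have : x ∈ (C ∪ P) ∩ (u ∩ v) := ⟨Or.inl hx.1, hx.2⟩
      rw [huv] at this
      exact this) with h | h
  · exact key u v hu hv hs huv h
  · exact (key v u hv hu (by rwa [union_comm v u]) (by rwa [inter_comm v u]) h).symm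

theorem PD.decomp (hK : PD K) {M : Set ℂ} (hM : Cont K M) (hnt : M.Nontrivial) :
    ∃ C D, Cont K C ∧ Cont K D ∧ C ∪ D = M ∧ C ≠ M ∧ D ≠ M := by
  obtain ⟨p, hp⟩ := hnt.nonempty
  by_cases harc : ∃ (α : ℝ → ℂ) (q : ℂ), IsArc α p q ∧ α '' Icc 0 1 = M
  · obtain ⟨α, q, hα, rfl⟩ := harc
    have h1 : Icc (0 : ℝ) (1 / 2) ⊆ Icc 0 1 := Icc_subset_Icc_right (by norm_num)
    have h2 : Icc (1 / 2 : ℝ) 1 ⊆ Icc 0 1 := Icc_subset_Icc_left (by norm_num)
    refine ⟨α '' Icc 0 (1 / 2), α '' Icc (1 / 2) 1,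
      cont_image hα.cont ((image_mono h1).trans hM.sub),
      cont_image hα.cont ((image_mono h2).trans hM.sub), ?_, fun e => ?_, fun e => ?_⟩
    · rw [← image_union, Icc_union_Icc_eq_Icc (by norm_num) (by norm_num)]
    · obtain ⟨s, hs, e'⟩ : α 1 ∈ α '' Icc 0 (1 / 2) := e ▸ ⟨1, by norm_num, rfl⟩
      have := hα.inj (h1 hs) (by norm_num) e'
      linarith [hs.2]
    · obtain ⟨s, hs, e'⟩ : α 0 ∈ α '' Icc (1 / 2) 1 := e ▸ ⟨0, by norm_num, rfl⟩
      have := hα.inj (h2 hs) (by norm_num) e'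
      linarith [hs.1]
  obtain ⟨𝔅, hc, -, hB⟩ := TopologicalSpace.exists_countable_basis ℂ
  let ι := {B : Set ℂ // B ∈ 𝔅 ∧ (B ∩ M).Nonempty}
  have : Countable ι := (hc.mono fun B (h : B ∈ 𝔅 ∧ (B ∩ M).Nonempty) => h.1).to_subtype
  have hcomp : ∀ B : ι, IsCompact (connectedComponentIn (M \ B.1) p) := fun B =>
    compact_component (hM.cpt.diff (hB.isOpen B.2.1)) p
  have : CompactSpace M := isCompact_iff_compactSpace.1 hM.cpt
  have : Nonempty M := ⟨⟨p, hp⟩⟩
  obtain ⟨B, o, ho⟩ := nonempty_interior_of_iUnion_of_closed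
    (f := fun B : ι => ((↑) : M → ℂ) ⁻¹' connectedComponentIn (M \ B.1) p)
    (fun B => (hcomp B).isClosed.preimage continuous_subtype_val) (by
      rw [eq_univ_iff_forall]
      rintro ⟨q, hq⟩
      obtain ⟨A, a1, a2, a3, a4, a5, a6⟩ : ∃ A : Set ℂ, IsClosed A ∧ IsPreconnected A ∧ p ∈ A ∧
          q ∈ A ∧ A ⊆ M ∧ A ≠ M := by
        by_cases hpq : p = q
        · exact ⟨{p}, isClosed_singleton, isPreconnected_singleton, rfl, hpq.symm,
            singleton_subset_iff.2 hp, fun e => hnt.ne_singleton e.symm⟩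
        · obtain ⟨α, hα, h⟩ := hK.exists_arc hM hp hq hpq
          exact ⟨α '' Icc 0 1, (isCompact_Icc.image hα.cont).isClosed,
            isPreconnected_Icc.image _ hα.cont.continuousOn, ⟨0, by norm_num, hα.zero⟩,
            ⟨1, by norm_num, hα.one⟩, h, fun e => harc ⟨α, q, hα, e⟩⟩
      obtain ⟨m, hm, hmA⟩ := exists_of_ssubset (a5.ssubset_of_ne a6)
      obtain ⟨B, b1, b2, b3⟩ := hB.exists_subset_of_mem_open hmA a1.isOpen_compl
      exact mem_iUnion.2 ⟨⟨B, b1, m, b2, hm⟩, a2.subset_connectedComponentIn a3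
        (fun z hz => (⟨a5 hz, fun e => b3 e hz⟩ : z ∈ M \ B)) a4⟩)
  set C := connectedComponentIn (M \ B.1) p with hCdef
  have hCM : C ⊆ M := (connectedComponentIn_subset _ _).trans sdiff_subset
  have hC : Cont K C := ⟨hCM.trans hM.sub, hcomp B, isPreconnected_connectedComponentIn⟩
  have hD : closure (M \ C) ⊆ M := closure_minimal sdiff_subset hM.cpt.isClosed
  have hDc : IsCompact (closure (M \ C)) := hM.cpt.of_isClosed_subset isClosed_closure hD
  have hcov : C ∪ closure (M \ C) = M := Subset.antisymm (union_subset hCM hD) fun z hz => by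
    by_cases h : z ∈ C
    · exact Or.inl h
    · exact Or.inr (subset_closure ⟨hz, h⟩)
  by_cases hconn : IsPreconnected (closure (M \ C))
  · refine ⟨C, closure (M \ C), hC, ⟨hD.trans hM.sub, hDc, hconn⟩, hcov, fun e => ?_, fun e => ?_⟩
    · obtain ⟨m, h1, h2⟩ := B.2.2
      exact (connectedComponentIn_subset _ _ (show m ∈ C from e ▸ h2)).2 h1
    · rw [mem_interior_iff_mem_nhds, mem_nhds_subtype] at ho
      obtain ⟨O, h1, h2⟩ := ho
      have : (o : ℂ) ∈ closure (M \ C) := e.symm ▸ o.2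
      obtain ⟨z, h3, h4⟩ := mem_closure_iff_nhds.1 this O h1
      exact h4.2 (h2 (show (⟨z, h4.1⟩ : M) ∈ Subtype.val ⁻¹' O from h3))
  rw [isPreconnected_iff_subset_of_disjoint_closed] at hconn
  push Not at hconn
  obtain ⟨u, v, hu, hv, h1, h2, h3, h4⟩ := hconn
  have key : ∀ u v : Set ℂ, IsClosed u → IsClosed v → closure (M \ C) ⊆ u ∪ v →
      closure (M \ C) ∩ (u ∩ v) = ∅ → ¬ closure (M \ C) ⊆ u →
      Cont K (C ∪ (closure (M \ C) ∩ u)) ∧ C ∪ (closure (M \ C) ∩ u) ≠ M := by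
    intro u v hu hv h1 h2 h3
    refine ⟨⟨union_subset hC.sub (inter_subset_left.trans (hD.trans hM.sub)),
      hC.cpt.union (hDc.inter_right hu), conn_union_of_split (Q := closure (M \ C) ∩ v)
        hC.cpt.isClosed (isClosed_closure.inter hu) (isClosed_closure.inter hv) hC.conn ?_ ?_⟩,
      fun e => h3 (closure_minimal (fun z hz => ?_) hu)⟩
    · rw [union_assoc, ← inter_union_distrib_left, inter_eq_left.2 h1, hcov]
      exact hM.conn
    · rw [Set.disjoint_left]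
      intro z a1 a2
      have : z ∈ closure (M \ C) ∩ (u ∩ v) := ⟨a1.1, a1.2, a2.2⟩
      rw [h2] at this
      exact this
    · have : z ∈ C ∪ (closure (M \ C) ∩ u) := e.symm ▸ hz.1
      exact (this.resolve_left hz.2).2
  obtain ⟨k1, k2⟩ := key u v hu hv h1 h2 h3
  obtain ⟨k3, k4⟩ := key v u hv hu (by rwa [union_comm]) (by rwa [inter_comm v u]) h4
  refine ⟨_, _, k1, k3, ?_, k2, k4⟩
  rw [← union_union_distrib_left, ← inter_union_distrib_left, inter_eq_left.2 h1, hcov]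

theorem PD.tame (hK : PD K) {J : Set ℂ} (hJ : Cont K J) : Tame J := by
  refine ⟨hJ.cpt, hJ.conn, fun w hw => ?_⟩
  by_contra hbad
  obtain ⟨M, hMJ, hM, hMp, hMb, hmin⟩ := exists_minimal_bad (fun M => ¬ Root M w) hJ.cpt hJ.conn
    hbad (by
      rintro 𝒞 hne hc hk hs hb ⟨f, hf⟩
      obtain ⟨g, hg, hgf⟩ := exists_extend (chain_compact hne hk).isClosed hf.1
      obtain ⟨C, hC, hCs⟩ := chain_subset_open hne hc hk
        (U := {x | ‖g x ^ 2 - (x - w)‖ < ‖x - w‖}) (isOpen_lt (by fun_prop) (by fun_prop)) (by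
          intro x hx
          obtain ⟨C, hC⟩ := hne
          have : x ≠ w := fun e => hw (e ▸ hs C hC (hx C hC))
          simp only [mem_ofPred_eq, hgf hx, hf.2 x hx, sub_self, norm_zero, norm_pos_iff]
          exact sub_ne_zero.2 this)
      have h1 : ∀ x ∈ C, x - w ≠ 0 := fun x hx => sub_ne_zero.2 fun e => hw (e ▸ hs C hC hx)
      have h2 : ∀ x ∈ C, g x ^ 2 / (x - w) ∈ slitPlane := by
        intro x hx
        apply ball_one_subset_slitPlane
        rw [mem_ball_iff_norm, div_sub_one (h1 x hx), norm_div,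
          div_lt_one (norm_pos_iff.2 (h1 x hx))]
        exact hCs hx
      refine hb C hC ⟨fun x => g x / sqrt (g x ^ 2 / (x - w)), ?_, fun x hx => ?_⟩
      · refine hg.continuousOn.div (continuousOn_sqrt.comp ((hg.pow 2).continuousOn.div
          (by fun_prop) h1) h2) fun x hx e => slitPlane_ne_zero (h2 x hx) ?_
        rw [← sqrt_sq' (g x ^ 2 / (x - w)), e]
        simp
      · have h3 : g x ^ 2 ≠ 0 := fun e => slitPlane_ne_zero (h2 x hx) (by rw [e, zero_div])
        rw [div_pow, sqrt_sq', div_div_cancel₀ h3])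
  have hnt : M.Nontrivial := by
    by_contra hs
    rw [not_nontrivial_iff] at hs
    exact hMb ⟨fun x => sqrt (x - w), hs.finite.continuousOn _, fun x _ => sqrt_sq' _⟩
  obtain ⟨C, D, hC, hD, hCD, h1, h2⟩ := hK.decomp ⟨hMJ.trans hJ.sub, hM, hMp⟩ hnt
  have rC : Root C w := by
    by_contra h
    exact h1 (hmin C (hCD ▸ subset_union_left) hC.cpt hC.conn h)
  have rD : Root D w := by
    by_contra h
    exact h2 (hmin D (hCD ▸ subset_union_right) hD.cpt hD.conn h)
  exact hMb (hCD ▸ root_union hC.cpt.isClosed hD.cpt.isClosed (hK.hu C D hC hD)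
    (fun e => hw (hMJ (hCD ▸ Or.inl e))) rC rD)

theorem PD.dense (hK : PD K) : Dense (K ∪ Ray)ᶜ := by
  have h1 : Dense Kᶜ := by
    rw [← interior_eq_empty_iff_dense_compl, eq_empty_iff_forall_notMem]
    intro y hy
    obtain ⟨ε, hε, h⟩ := Metric.mem_nhds_iff.1 (mem_interior_iff_mem_nhds.1 hy)
    exact no_root_sphere y (half_pos hε) ((hK.tame ⟨(sphere_subset_ball (half_lt_self hε)).trans h,
      isCompact_sphere _ _, sphere_conn _ _⟩).root y (by simpa using (half_pos hε).ne))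
  have h2 : Dense Rayᶜ := by
    rw [← interior_eq_empty_iff_dense_compl, eq_empty_iff_forall_notMem]
    intro y hy
    obtain ⟨ε, hε, h⟩ := Metric.mem_nhds_iff.1 (mem_interior_iff_mem_nhds.1 hy)
    have a1 := (h (mem_ball_self hε)).2
    have a2 := (h (show y + (ε / 2 : ℝ) * I ∈ ball y ε by
      simp [abs_of_pos hε, hε])).2
    simp [a1] at a2
    exact hε.ne' a2
  rw [compl_union]
  exact h1.inter_of_isOpen_left h2 hK.cpt.isClosed.isOpen_compl

end Pool.Agent.Lib.MP_1126ca_gt
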