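import Pool.Agent.Lib.MP_1126ca_gt.Top

set_option autoImplicit false

open Set Topology Filter Function

namespace Pool.Agent.Lib.MP_1126ca_gt

variable {X : Type} [TopologicalSpace X]

/-- The subcontinua of `A` through `b` are linearly ordered. -/
def Nested (A : Set X) (b : X) : Prop :=
  ∀ C D : Set X, C ⊆ A → D ⊆ A → IsCompact C → IsCompact D → IsPreconnected C →
    IsPreconnected D → b ∈ C → b ∈ D → C ⊆ D ∨ D ⊆ C

theorem lip_abs {ψ : ℝ → ℝ} (h : LipschitzWith 1 ψ) (s t : ℝ) : |ψ s - ψ t| ≤ |s - t| := by
  simpa [Real.dist_eq] using h.dist_le_mul s t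

theorem lip_of_abs {ψ : ℝ → ℝ} (h : ∀ s t, |ψ s - ψ t| ≤ |s - t|) : LipschitzWith 1 ψ :=
  LipschitzWith.of_dist_le_mul fun s t => by simpa [Real.dist_eq] using h s t

theorem fold [T2Space X] {A : Set X} {b : X} (hn : Nested A b) {κ η : ℝ} (hη : 0 < η)
    (hκ : η ≤ κ) (k : ℕ) : ∀ (P : Set X) (u : X → ℝ), IsCompact P → P ⊆ A → b ∈ P →
      Continuous u → (∀ x ∈ P, 0 ≤ u x ∧ u x ≤ k * κ) →
      ∃ (h : X → ℝ) (ψ : ℝ → ℝ), ContinuousOn h P ∧ LipschitzWith 1 ψ ∧
        (∀ x ∈ P, u x = 0 → h x = 0) ∧ (∀ s, s ≤ -(k * η) → ψ s = -s) ∧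
        (∀ x ∈ P, |u x - ψ (h x)| ≤ κ + 3 * (k * η)) ∧ (∀ x ∈ P, h x ≤ h b + κ + k * η) ∧
        (∀ x ∈ P, -u x ≤ h x) ∧ -(k * η) ≤ h b := by
  have hlneg : LipschitzWith 1 (fun s : ℝ => -s) := lip_of_abs fun s t => by
    rw [show -s - -t = -(s - t) by ring, abs_neg]
  induction k with
  | zero =>
    intro P u _ _ _ _ hu
    have h0 : ∀ x ∈ P, u x = 0 := fun x hx => le_antisymm (by simpa using (hu x hx).2) (hu x hx).1
    refine ⟨fun _ => 0, fun s => -s, continuousOn_const, hlneg, fun _ _ _ => rfl,
      fun _ _ => rfl, fun x hx => ?_, fun x hx => ?_, fun x hx => ?_, by simp⟩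
    · simp [h0 x hx]; linarith
    · simp; linarith
    · simp [h0 x hx]
  | succ k ih =>
    intro P u hP hPA hb hu hr
    have hk0 : (0 : ℝ) ≤ k := Nat.cast_nonneg k
    have hkη : 0 ≤ (k : ℝ) * η := by positivity
    have hkk : (k : ℝ) * η ≤ k * κ := by gcongr
    have e1 : ((k + 1 : ℕ) : ℝ) * η = k * η + η := by push_cast; ring
    have e2 : ((k + 1 : ℕ) : ℝ) * κ = k * κ + κ := by push_cast; ring
    rw [e1]
    simp only [e2] at hr
    set c : ℝ := k * κ with hc
    set e : ℝ := k * η with he
    by_cases hb1 : c ≤ u b
    · refine ⟨u, fun s => |s|, hu.continuousOn, lip_of_abs fun s t => abs_abs_sub_abs_le_abs_sub s t,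
        fun _ _ h => h, fun s hs => abs_of_nonpos (by linarith), fun x hx => ?_, fun x hx => ?_,
        fun x hx => ?_, ?_⟩
      · simp only [abs_of_nonneg (hr x hx).1]; simp; linarith
      · linarith [(hr x hx).2]
      · linarith [(hr x hx).1]
      · linarith [(hr b hb).1]
    by_cases hb2 : u b ≤ η
    · refine ⟨fun x => -u x, fun s => -s, hu.neg.continuousOn, hlneg, fun _ _ h => by simp [h],
        fun _ _ => rfl, fun x hx => ?_, fun x hx => ?_, fun x hx => le_rfl, ?_⟩
      · simp; linarith
      · linarith [(hr x hx).1]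
      · linarith
    push Not at hb1 hb2
    have hW1 : IsCompact (P ∩ {x | u x ≤ c}) := hP.inter_right (isClosed_le hu continuous_const)
    have hW2 : IsCompact (P ∩ {x | η ≤ u x}) := hP.inter_right (isClosed_le continuous_const hu)
    have hbW1 : b ∈ P ∩ {x | u x ≤ c} := ⟨hb, hb1.le⟩
    have hbW2 : b ∈ P ∩ {x | η ≤ u x} := ⟨hb, hb2.le⟩
    rcases hn _ _ ((connectedComponentIn_subset _ _).trans (inter_subset_left.trans hPA))
      ((connectedComponentIn_subset _ _).trans (inter_subset_left.trans hPA))
      (compact_component hW1 b) (compact_component hW2 b) isPreconnected_connectedComponentIn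
      isPreconnected_connectedComponentIn (mem_connectedComponentIn hbW1)
      (mem_connectedComponentIn hbW2) with hcase | hcase
    · obtain ⟨P', Q, hP', hQ, hPQ, hd, hbP', hG⟩ := exists_split (G := {x | u x ≤ 0}) hW1 hbW1
        (isClosed_le hu continuous_const) (by
          rw [Set.disjoint_left]
          intro x hx hx'
          have h1 : η ≤ u x := (connectedComponentIn_subset _ _ (hcase hx)).2
          have h2 : u x ≤ 0 := hx'
          linarith)
      have hP's : ∀ x ∈ P', x ∈ P ∧ u x ≤ c := fun x hx => by
        have : x ∈ P' ∪ Q := Or.inl hx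
        rwa [hPQ] at this
      have hQs : ∀ x ∈ Q, x ∈ P ∧ u x ≤ c := fun x hx => by
        have : x ∈ P' ∪ Q := Or.inr hx
        rwa [hPQ] at this
      obtain ⟨h', ψ', a1, a2, a3, a4, a5, a6, a7, a8⟩ := ih P' (fun x => c - u x) hP'
        (fun x hx => hPA (hP's x hx).1) hbP' (continuous_const.sub hu) (fun x hx =>
          ⟨by linarith [(hP's x hx).2], by linarith [(hr x (hP's x hx).1).1]⟩)
      have hP1 : IsClosed (Q ∪ (P ∩ {x | c ≤ u x})) :=
        hQ.isClosed.union (hP.isClosed.inter (isClosed_le continuous_const hu))
      obtain ⟨h, b1, b2, b3⟩ := glue (f := fun x => min (u x) c) (g := fun x => c + h' x) hP1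
        hP'.isClosed (hu.min continuous_const).continuousOn (continuousOn_const.add a1) (by
          rintro x (hx | hx) hx'
          · exact absurd hx (Set.disjoint_left.1 hd hx')
          · have h1 : u x = c := le_antisymm (hP's x hx').2 hx.2
            rw [a3 x hx' (by simp [h1]), h1]
            simp)
      have hcov : ∀ x ∈ P, x ∈ Q ∪ (P ∩ {x | c ≤ u x}) ∨ x ∈ P' := by
        intro x hx
        rcases le_total (u x) c with h1 | h1
        · have : x ∈ P' ∪ Q := by rw [hPQ]; exact ⟨hx, h1⟩
          rcases this with h2 | h2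
          · exact Or.inr h2
          · exact Or.inl (Or.inl h2)
        · exact Or.inl (Or.inr ⟨hx, h1⟩)
      have hψc : ψ' (-c) = c := by rw [a4 (-c) (by linarith), neg_neg]
      have hψe : ψ' (-e) = e := by rw [a4 (-e) le_rfl, neg_neg]
      let ψ : ℝ → ℝ := fun s => max (-s) (c - ψ' (max s 0 - c))
      have hψ1 : ∀ s, 0 ≤ s → ψ s = c - ψ' (s - c) := by
        intro s hs
        simp only [ψ, max_eq_left hs]
        apply max_eq_right
        have := lip_abs a2 (s - c) (-c)
        rw [hψc, show s - c - -c = s by ring, abs_of_nonneg hs] at this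
        linarith [(abs_le.1 this).2]
      have hψ2 : ∀ s, s ≤ 0 → ψ s = -s := by
        intro s hs
        simp only [ψ, max_eq_right hs, zero_sub, hψc, sub_self]
        exact max_eq_left (by linarith)
      have hhb : h b = c + h' b := b3 hbP'
      refine ⟨h, ψ, b1.mono fun x hx => hcov x hx, ?_, fun x hx h0 => ?_,
        fun s hs => hψ2 s (by linarith), fun x hx => ?_, fun x hx => ?_, fun x hx => ?_, ?_⟩
      · have h2 : LipschitzWith 1 (fun s : ℝ => c - ψ' (max s 0 - c)) := lip_of_abs fun s t => by
          rw [show c - ψ' (max s 0 - c) - (c - ψ' (max t 0 - c)) =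
            -(ψ' (max s 0 - c) - ψ' (max t 0 - c)) by ring, abs_neg]
          refine (lip_abs a2 _ _).trans ?_
          rw [show max s 0 - c - (max t 0 - c) = max s 0 - max t 0 by ring]
          exact abs_max_sub_max_le_abs s t 0
        simpa using hlneg.max h2
      · rcases hcov x hx with h1 | h1
        · rw [b2 h1]
          simp only [h0]
          exact min_eq_left (by linarith)
        · exact absurd (show u x ≤ 0 from h0.le) (Set.disjoint_left.1 hG h1)
      · rcases hcov x hx with h1 | h1
        · rw [b2 h1]
          simp only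
          have m1 : min (u x) c ≤ c := min_le_right _ _
          have m2 : min (u x) c ≤ u x := min_le_left _ _
          have m3 : 0 ≤ min (u x) c := le_min (hr x hx).1 (by linarith)
          have m4 : u x - κ ≤ min (u x) c := le_min (by linarith) (by linarith [(hr x hx).2])
          rw [hψ1 _ m3, abs_le]
          rcases le_total (min (u x) c - c) (-e) with h2 | h2
          · rw [a4 _ h2]
            constructor <;> linarith
          · have := lip_abs a2 (min (u x) c - c) (-e)
            rw [hψe, abs_of_nonneg (show 0 ≤ min (u x) c - c - -e by linarith), abs_le] at this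
            constructor <;> linarith [this.1, this.2]
        · rw [b3 h1]
          simp only
          have m1 := a7 x h1
          have m2 := a5 x h1
          rw [hψ1 _ (by linarith [(hr x hx).1]), show c + h' x - c = h' x by ring]
          rw [abs_le] at m2 ⊢
          constructor <;> linarith [m2.1, m2.2]
      · rcases hcov x hx with h1 | h1
        · rw [b2 h1, hhb]
          have m1 : min (u x) c ≤ c := min_le_right _ _
          simp only
          linarith
        · rw [b3 h1, hhb]
          have := a6 x h1
          simp only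
          linarith
      · rcases hcov x hx with h1 | h1
        · rw [b2 h1]
          have m3 : 0 ≤ min (u x) c := le_min (hr x hx).1 (by linarith)
          simp only
          linarith [(hr x hx).1]
        · rw [b3 h1]
          have m1 := a7 x h1
          simp only at m1 ⊢
          linarith [(hr x hx).1]
      · rw [hhb]
        linarith
    · obtain ⟨P', Q, hP', hQ, hPQ, hd, hbP', hG⟩ := exists_split (G := {x | c + η ≤ u x}) hW2 hbW2
        (isClosed_le continuous_const hu) (by
          rw [Set.disjoint_left]
          intro x hx hx'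
          have h1 : u x ≤ c := (connectedComponentIn_subset _ _ (hcase hx)).2
          have h2 : c + η ≤ u x := hx'
          linarith)
      have hP's : ∀ x ∈ P', x ∈ P ∧ η ≤ u x := fun x hx => by
        have : x ∈ P' ∪ Q := Or.inl hx
        rwa [hPQ] at this
      have hP't : ∀ x ∈ P', u x < c + η := fun x hx =>
        lt_of_not_ge (Set.disjoint_left.1 hG hx)
      obtain ⟨h', ψ', a1, a2, a3, a4, a5, a6, a7, a8⟩ := ih P' (fun x => u x - η) hP'
        (fun x hx => hPA (hP's x hx).1) hbP' (hu.sub continuous_const) (fun x hx =>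
          ⟨by linarith [(hP's x hx).2], by linarith [hP't x hx]⟩)
      have hP1 : IsClosed (Q ∪ (P ∩ {x | u x ≤ η})) :=
        hQ.isClosed.union (hP.isClosed.inter (isClosed_le hu continuous_const))
      obtain ⟨h, b1, b2, b3⟩ := glue (f := fun x => -u x) (g := fun x => h' x - η) hP1
        hP'.isClosed hu.neg.continuousOn (a1.sub continuousOn_const) (by
          rintro x (hx | hx) hx'
          · exact absurd hx (Set.disjoint_left.1 hd hx')
          · have h1 : u x = η := le_antisymm hx.2 (hP's x hx').2
            rw [a3 x hx' (by simp [h1]), h1]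
            simp)
      have hcov : ∀ x ∈ P, x ∈ Q ∪ (P ∩ {x | u x ≤ η}) ∨ x ∈ P' := by
        intro x hx
        rcases le_total η (u x) with h1 | h1
        · have : x ∈ P' ∪ Q := by rw [hPQ]; exact ⟨hx, h1⟩
          rcases this with h2 | h2
          · exact Or.inr h2
          · exact Or.inl (Or.inl h2)
        · exact Or.inl (Or.inr ⟨hx, h1⟩)
      let ψ : ℝ → ℝ := fun s => η + ψ' (s + η)
      have hψl : LipschitzWith 1 ψ := lip_of_abs fun s t => by
        have := lip_abs a2 (s + η) (t + η)
        rw [show s + η - (t + η) = s - t by ring] at this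
        simpa [ψ] using this
      have hψ1 : ∀ s, s ≤ -(e + η) → ψ s = -s := by
        intro s hs
        simp only [ψ]
        rw [a4 _ (by linarith)]
        ring
      have hhb : h b = h' b - η := b3 hbP'
      refine ⟨h, ψ, b1.mono fun x hx => hcov x hx, hψl, fun x hx h0 => ?_, hψ1,
        fun x hx => ?_, fun x hx => ?_, fun x hx => ?_, ?_⟩
      · rcases hcov x hx with h1 | h1
        · rw [b2 h1]
          simp [h0]
        · linarith [(hP's x h1).2]
      · rcases hcov x hx with h1 | h1
        · rw [b2 h1]
          simp only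
          rcases le_total (-u x) (-(e + η)) with h2 | h2
          · rw [hψ1 _ h2]
            simp
            linarith
          · have := lip_abs hψl (-u x) (-(e + η))
            rw [hψ1 _ le_rfl, abs_of_nonneg (show 0 ≤ -u x - -(e + η) by linarith), abs_le] at this
            rw [abs_le]
            constructor <;> linarith [this.1, this.2, (hr x hx).1]
        · rw [b3 h1]
          have m2 := a5 x h1
          simp only [ψ, sub_add_cancel] at m2 ⊢
          rw [abs_le] at m2 ⊢
          constructor <;> linarith [m2.1, m2.2]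
      · rcases hcov x hx with h1 | h1
        · rw [b2 h1, hhb]
          simp only
          linarith [(hr x hx).1]
        · rw [b3 h1, hhb]
          have := a6 x h1
          simp only
          linarith
      · rcases hcov x hx with h1 | h1
        · rw [b2 h1]
        · rw [b3 h1]
          have m1 := a7 x h1
          simp only at m1 ⊢
          linarith
      · rw [hhb]
        linarith

end Pool.Agent.Lib.MP_1126ca_gt
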