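import Pool.Agent.Lib.MP_1126ca_gt.Zed

set_option autoImplicit false

open Set Topology Filter Function Complex Metric

namespace Pool.Agent.Lib.MP_1126ca_gt

/-- A straight segment from `z` that first meets the hull of `L` and the ray at `y ∈ L`. -/
structure Hair (K L : Set ℂ) (z y : ℂ) : Prop where
  mem : y ∈ L
  ne0 : y ≠ 0
  ne : z ≠ y
  seg : ∀ p ∈ segment ℝ z y, p ∈ hull K L ∪ Ray → p = y

variable {K : Set ℂ}

def Side (z y c : ℂ) (N : Set (Z K)) : Set (Z K) :=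
  {ν | ν ∈ N ∧ pj ν ≠ y ∧ sg ν y * rt z y (pj ν) = c * sr K z (pj ν)}

def Land (L : Set ℂ) (z y : ℂ) (m : Z K) : Prop :=
  pj m = y ∧ ∀ t ∈ L, sg m t = sr K z t * rt y z t

variable {L : Set ℂ} {z y c : ℂ}

theorem Hair.out (h : Hair K L z y) : z ∉ hull K L ∪ Ray := fun e =>
  h.ne (h.seg z (left_mem_segment ℝ z y) e)

theorem Hair.not_seg (h : Hair K L z y) {t : ℂ} (ht : t ∈ L) (hy : t ≠ y) :
    t ∉ segment ℝ z y := fun e => hy (h.seg t e (Or.inl (Ar_subset_hull ht (self_mem_Ar t))))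

theorem Hair.not_Ar (h : Hair K L z y) {t : ℂ} (ht : t ∈ L) : z ∉ Ar K t := fun e =>
  h.out (Or.inl (Ar_subset_hull ht e))

theorem Hair.sr_root (h : Hair K L z y) (hK : PD K) (hL : Cont K L) : IsRoot L z (sr K z) := by
  have hH := hK.hull_cont hL ⟨y, h.mem⟩
  have h0 : (0 : ℂ) ∈ hull K L := Ar_subset_hull h.mem (zero_mem_Ar y)
  have hz : z ∉ hull K L := fun e => h.out (Or.inl e)
  have hs : L ⊆ hull K L := fun t ht => Ar_subset_hull ht (self_mem_Ar t)
  exact ⟨(((hK.tame hH).F_root h0 hz).1.mono hs).congr fun t ht => hK.sr_eq hH h0 hz (hs ht),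
    fun t ht => hK.sr_sq (hL.sub ht) (h.not_Ar ht)⟩

theorem Hair.sr_ne (h : Hair K L z y) (hK : PD K) (hL : Cont K L) {t : ℂ} (ht : t ∈ L) :
    sr K z t ≠ 0 := (h.sr_root hK hL).ne (fun e => h.not_Ar e (self_mem_Ar z)) ht

theorem PD.sr_seg (hK : PD K) {t : ℂ} (ht : t ∈ K) {S : Set ℂ} (hS : IsPreconnected S)
    (hz : z ∈ S) (h1 : S ⊆ segment ℝ z y) (h2 : ∀ p ∈ S, p ∉ Ar K t ∪ Ray)
    (h3 : t ∉ segment ℝ z y) : ∀ p ∈ S, sr K p t = sr K z t * rt p z t := by
  have hzt : z ≠ t := fun e => h3 (e ▸ left_mem_segment ℝ z y)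
  have q : ∀ p, (sr K z t * rt p z t) ^ 2 = t - p := fun p =>
    mul_rt_sq' hzt (hK.sr_sq ht fun e => h2 z hz (Or.inl e))
  refine sq_conn hS (fun p hp => (hK.sr_cont ht (fun e => h2 p hp (Or.inl e))
    fun e => h2 p hp (Or.inr e)).continuousWithinAt) (fun p hp => ContinuousAt.continuousWithinAt
      (tendsto_const_nhds.mul (tendsto_rt tendsto_id tendsto_const_nhds tendsto_const_nhds
        fun e => h3 ((convex_segment z y).segment_subset (h1 hp) (left_mem_segment ℝ z y) e))))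
    (fun p hp => by rw [q, hK.sr_sq ht fun e => h2 p hp (Or.inl e)])
    (fun p hp => ne_zero_of_sq (q p) fun e => h3 (e ▸ h1 hp)) hz (by rw [rt_self hzt, mul_one])

theorem conn_seg_diff (h : z ≠ y) : IsPreconnected (segment ℝ z y \ {y}) :=
  (convex_openSegment z y).isPreconnected.subset_closure (fun _ hp =>
    ⟨openSegment_subset_segment ℝ z y hp, fun e => h (right_mem_openSegment_iff.1
      (mem_singleton_iff.1 e ▸ hp))⟩) (sdiff_subset.trans segment_subset_closure_openSegment)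

theorem Hair.tri (h : Hair K L z y) (hK : PD K) (hL : Cont K L) {t : ℂ} (ht : t ∈ L)
    (h1 : y ∈ Ar K t) (h2 : t ≠ y) : Tri (Ar K y) (segment ℝ z y) (Up K y t) y z t :=
  ⟨hK.leg_Ar (hL.sub h.mem), ⟨tame_segment z y, right_mem_segment ℝ z y, conn_seg_diff h.ne,
    fun p hp => absurd (h.seg p hp.1 (Or.inr hp.2) ▸ hp.2) (hK.not_ray (hL.sub h.mem) h.ne0)⟩,
    hK.leg_Up (hL.sub ht) h1, zero_mem_Ar y, fun e => absurd e h.ne0,
    fun p hp => h.seg p hp.2 (Or.inl (Ar_subset_hull h.mem hp.1)), hK.inter_Up (hL.sub h.mem),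
    fun p hp => h.seg p hp.1 (Or.inl (Ar_subset_hull ht hp.2.1)), left_mem_segment ℝ z y,
    right_mem_Up h1, h.ne, h2⟩

theorem F_hair {A : Set ℂ} (hA : Tame A) (h0 : (0 : ℂ) ∈ A) (hy : y ∈ A)
    (hi : A ∩ segment ℝ z y ⊆ {y}) {w : ℂ} (hw : w ∉ A ∪ segment ℝ z y) :
    F (A ∪ segment ℝ z y) w z = F A w y * rt z y w := by
  have hU := hA.union (tame_segment z y) hy (right_mem_segment ℝ z y) hi
  have hr := hU.F_root (Or.inl h0) hw
  have hwA : w ∉ A := fun e => hw (Or.inl e)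
  have hws : w ∉ segment ℝ z y := fun e => hw (Or.inr e)
  refine (hr.mono subset_union_right).eq (convex_segment z y).isPreconnected hws
    (isRoot_segment hws ((hA.F_root h0 hwA).2 y hy)) (right_mem_segment ℝ z y) ?_ z
    (left_mem_segment ℝ z y)
  rw [rt_self fun e : y = w => hwA (e ▸ hy), mul_one,
    F_mono hA.conn h0 hwA subset_union_left ⟨_, hr⟩ y hy]

variable {N : Set (Z K)}

theorem Hair.dich (h : Hair K (pj '' N) z y) (hK : PD K) (hL : Cont K (pj '' N)) {ν : Z K}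
    (hν : ν ∈ N) (hy : pj ν ≠ y) : ν ∈ Side z y I N ∨ ν ∈ Side z y (-I) N := by
  rcases eq_or_eq_neg_of_sq_eq_sq (sg ν y * rt z y (pj ν)) (I * sr K z (pj ν)) (by
    rw [mul_rt_sq hy.symm (hK.sg_sq ν (hL.sub h.mem)), mul_pow,
      (h.sr_root hK hL).2 _ ⟨ν, hν, rfl⟩, I_sq]
    ring) with e | e
  · exact Or.inl ⟨hν, hy, e⟩
  · exact Or.inr ⟨hν, hy, by rw [e, neg_mul]⟩

theorem Hair.not_both (h : Hair K (pj '' N) z y) (hK : PD K) (hL : Cont K (pj '' N)) {ν : Z K}
    (hc : c ^ 2 = -1) (h1 : ν ∈ Side z y c N) (h2 : ν ∈ Side z y (-c) N) : False := by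
  have hc0 : c ≠ 0 := by
    rintro rfl
    simp at hc
  refine ne_neg_self (mul_ne_zero hc0 (h.sr_ne hK hL ⟨ν, h1.1, rfl⟩)) ?_
  rw [← neg_mul, ← h2.2.2, h1.2.2]

theorem closure_side (hN : IsCompact N) : closure (Side z y c N) ⊆ N :=
  closure_minimal (fun _ h => h.1) hN.isClosed

theorem Hair.rel_closed (h : Hair K (pj '' N) z y) (hK : PD K) (hN : IsCompact N)
    (hL : Cont K (pj '' N)) {ν : Z K} (hν : ν ∈ closure (Side z y c N)) (hy : pj ν ≠ y) :
    ν ∈ Side z y c N := by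
  have hνN := closure_side hN hν
  refine ⟨hνN, hy, ?_⟩
  have := mem_closure_iff_nhdsWithin_neBot.1 hν
  have h1 : Tendsto pj (𝓝[Side z y c N] ν) (𝓝[pj '' N] (pj ν)) :=
    pj_cont.continuousWithinAt.tendsto_nhdsWithin fun μ hμ => ⟨μ, hμ.1, rfl⟩
  refine tendsto_nhds_unique (l := 𝓝[Side z y c N] ν) ((sg_cont y).continuousWithinAt.tendsto.mul
    (tendsto_rt tendsto_const_nhds tendsto_const_nhds pj_cont.continuousWithinAt.tendsto
      (h.not_seg ⟨ν, hνN, rfl⟩ hy))) ((tendsto_const_nhds.mul (Tendsto.comp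
        ((h.sr_root hK hL).1 _ ⟨ν, hνN, rfl⟩) h1)).congr' ?_)
  filter_upwards [self_mem_nhdsWithin] with μ hμ
  exact hμ.2.2.symm

theorem PD.land_unique (hK : PD K) (hN : IsCompact N) (hp : IsPreconnected N) {m m' : Z K}
    (hm : m ∈ N) (hm' : m' ∈ N) (h1 : Land (pj '' N) z y m) (h2 : Land (pj '' N) z y m') :
    m = m' := by
  refine Z_ext (h1.1.trans h2.1.symm) fun t ht => ?_
  by_cases h : t ∈ pj '' N
  · rw [h1.2 t h, h2.2 t h]
  · obtain ⟨r, -, hr⟩ := hK.block hN hp ht h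
    rw [hr m hm, hr m' hm', h1.1, h2.1]

theorem Hair.land (h : Hair K (pj '' N) z y) (hK : PD K) (hN : IsCompact N)
    (hL : Cont K (pj '' N)) {ν : Z K} (h1 : ν ∈ closure (Side z y I N))
    (h2 : ν ∈ closure (Side z y (-I) N)) : Land (pj '' N) z y ν := by
  have hy : pj ν = y := by
    by_contra hy
    exact h.not_both hK hL I_sq (h.rel_closed hK hN hL h1 hy) (h.rel_closed hK hN hL h2 hy)
  refine ⟨hy, fun t ht => ?_⟩
  have htK := hL.sub ht
  have hyK := hL.sub h.mem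
  by_cases hty : t = y
  · have := hK.sg_sq ν htK
    rw [hy, hty, sub_self, pow_eq_zero_iff two_ne_zero] at this
    rw [hty, this, rt]
    simp
  by_cases hA : y ∈ Ar K t
  swap
  · rw [hK.sg_eq ν htK (hy ▸ hA), hy]
    refine hK.sr_seg htK (convex_segment z y).isPreconnected (left_mem_segment ℝ z y) Subset.rfl
      (fun p hp e => ?_) (h.not_seg ht hty) y (right_mem_segment ℝ z y)
    have : p = y := h.seg p hp (e.imp (fun e => Ar_subset_hull ht e) id)
    rw [this] at e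
    exact e.elim hA (hK.not_ray hyK h.ne0)
  have T := h.tri hK hL ht hA hty
  obtain ⟨c, hc, ec⟩ := T.exists_sign
  have hc2 := sign_sq hc
  have hν : ν ∈ closure (Side z y c N) := by
    rcases hc with rfl | rfl
    · exact h1
    · exact h2
  have a1 : sr K z t * rt y z t = c * rr (Ar K y) y t y := by
    have hleg := T.leg hc2 ec
    rw [hK.union_Up htK hA] at hleg
    have hacc : (𝓝[segment ℝ z y \ {y}] y).NeBot := by
      have := (convex_segment z y).isPreconnected.preperfect_of_nontrivial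
        ⟨_, left_mem_segment ℝ z y, _, right_mem_segment ℝ z y, h.ne⟩ _ (right_mem_segment ℝ z y)
      rwa [accPt_principal_iff_nhdsWithin] at this
    have b1 := hK.sr_seg htK (conn_seg_diff h.ne) ⟨left_mem_segment ℝ z y, h.ne⟩ sdiff_subset
      (fun p hp e => hp.2 (h.seg p hp.1 (e.imp (fun e => Ar_subset_hull ht e) id)))
      (h.not_seg ht hty)
    refine tendsto_nhds_unique (l := 𝓝[segment ℝ z y \ {y}] y) (tendsto_const_nhds.mul
      (tendsto_rt (tendsto_id.mono_left nhdsWithin_le_nhds) tendsto_const_nhds tendsto_const_nhds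
        (by rw [segment_symm]; exact h.not_seg ht hty)))
      ((tendsto_const_nhds.mul ((rr_cont' hty).tendsto.mono_left nhdsWithin_le_nhds)).congr' ?_)
    filter_upwards [self_mem_nhdsWithin, nhdsWithin_le_nhds hleg] with p b2 b3
    rw [← b3 b2.1 b2.2, id, ← b1 p b2, sr]
  have a2 : ∀ᶠ v in 𝓝 y, v ∈ pj '' N → sr K z v = rr (Ar K y) y z v := by
    rw [← eventually_nhdsWithin_iff]
    refine sq_ev ((h.sr_root hK hL).1 y h.mem) ?_ (h.sr_ne hK hL h.mem) ?_
    · rw [sr, ← rr_self h.ne.symm]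
      exact (rr_cont' h.ne).continuousWithinAt
    · filter_upwards [self_mem_nhdsWithin] with v hv
      rw [(h.sr_root hK hL).2 v hv, rr_sq T.l0.tame T.zero T.l0.mem T.xL]
  have := mem_closure_iff_nhdsWithin_neBot.1 hν
  have a3 : Tendsto pj (𝓝[Side z y c N] ν) (𝓝 y) := hy ▸ pj_cont.continuousWithinAt.tendsto
  rw [a1]
  refine tendsto_nhds_unique (l := 𝓝[Side z y c N] ν) (sg_cont t).continuousWithinAt.tendsto
    ((tendsto_const_nhds.mul ((rr_cont' hty).tendsto.comp a3)).congr' ?_)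
  filter_upwards [self_mem_nhdsWithin, a3 a2, a3 (T.planar_lim hc2 ec)] with μ b1 b2 b3
  have b4 := h.not_seg ⟨μ, b1.1, rfl⟩ b1.2.1
  have b5 : ∀ᶠ w in fl μ, w ∉ Ar K y ∪ segment ℝ z y := by
    filter_upwards [fl_V μ, fl_le μ ((tame_segment z y).cpt.isClosed.isOpen_compl.mem_nhds b4)]
      with w c1 c2 e
    exact e.elim (fun e => c1 (Or.inl (hK.Ar_sub hyK e))) c2
  have b6 := b3 (fl μ) (fl_le μ)
  rw [hK.union_Up htK hA] at b6
  refine tendsto_nhds_unique (b6 ?_ ?_) (hK.fl_sr μ htK)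
  · filter_upwards [fl_V μ, b5] with w c1 c2
    exact ⟨c2, fun e => c1 (Or.inl (hK.Ar_sub htK e)), fun e => c1 (Or.inr e)⟩
  · rw [← b2 ⟨μ, b1.1, rfl⟩, ← b1.2.2]
    refine ((hK.fl_sr μ hyK).mul (tendsto_rt tendsto_const_nhds tendsto_const_nhds (fl_le μ)
      b4)).congr' ?_
    filter_upwards [b5] with w hw
    exact (F_hair T.l0.tame T.zero T.l0.mem T.i1 hw).symm

theorem Hair.cover (h : Hair K (pj '' N) z y) (hK : PD K) (hN : IsCompact N)
    (hp : IsPreconnected N) (hnt : N.Nontrivial) :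
    closure (Side z y I N) ∪ closure (Side z y (-I) N) = N := by
  refine Subset.antisymm (union_subset (closure_side hN) (closure_side hN)) fun ν hν => ?_
  by_contra hcon
  obtain ⟨μ, a1, a2⟩ := hK.small hN hp hnt (isClosed_closure.union isClosed_closure).isOpen_compl
    ⟨ν, hν, hcon⟩ (finite_singleton y)
  exact a1.2 ((h.dich hK (cont_pj hN hp) a1.1 a2).imp (fun e => subset_closure e)
    fun e => subset_closure e)

theorem Hair.exists_land (h : Hair K (pj '' N) z y) (hK : PD K) (hN : IsCompact N)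
    (hp : IsPreconnected N) (hnt : N.Nontrivial) (h1 : (Side z y I N).Nonempty)
    (h2 : (Side z y (-I) N).Nonempty) :
    ∃ m, m ∈ closure (Side z y I N) ∧ m ∈ closure (Side z y (-I) N) := by
  obtain ⟨a, ha⟩ := h1
  obtain ⟨b, hb⟩ := h2
  obtain ⟨m, -, hm⟩ := isPreconnected_closed_iff.1 hp _ _ isClosed_closure isClosed_closure
    (h.cover hK hN hp hnt).symm.subset ⟨a, ha.1, subset_closure ha⟩ ⟨b, hb.1, subset_closure hb⟩
  exact ⟨m, hm⟩

theorem Hair.cross (h : Hair K (pj '' N) z y) (hK : PD K) (hN : IsCompact N)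
    (hp : IsPreconnected N) (hnt : N.Nontrivial) (hc : c = I ∨ c = -I) {D : Set (Z K)}
    (hD : IsPreconnected D) (hDN : D ⊆ N) {m : Z K} (hm : m ∈ N) (hl : Land (pj '' N) z y m)
    (hmD : m ∉ D) {ν : Z K} (hν : ν ∈ D) (hs : ν ∈ Side z y c N) {μ : Z K} (hμ : μ ∈ D)
    (hy : pj μ ≠ y) : μ ∈ Side z y c N := by
  have hL := cont_pj hN hp
  have key := isPreconnected_iff_subset_of_disjoint_closed.1 hD _ _ isClosed_closure
    isClosed_closure (hDN.trans (h.cover hK hN hp hnt).symm.subset) (by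
      rw [eq_empty_iff_forall_notMem]
      rintro κ ⟨a1, a2, a3⟩
      exact hmD (hK.land_unique hN hp (hDN a1) hm (h.land hK hN hL a2 a3) hl ▸ a1))
  rcases hc with rfl | rfl
  · rcases key with k | k
    · exact h.rel_closed hK hN hL (k hμ) hy
    · exact (h.not_both hK hL I_sq hs (h.rel_closed hK hN hL (k hν) hs.2.1)).elim
  · rcases key with k | k
    · exact (h.not_both hK hL I_sq (h.rel_closed hK hN hL (k hν) hs.2.1) hs).elim
    · exact h.rel_closed hK hN hL (k hμ) hy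

end Pool.Agent.Lib.MP_1126ca_gt
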