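import Pool.Agent.Lib.MP_1126ca_gt.Cut
import Pool.Agent.Lib.MP_1126ca_gt.Conn

set_option autoImplicit false

open Set Topology Filter Function Complex Metric

namespace Pool.Agent.Lib.MP_1126ca_gt

theorem weakly_chainable (X : Set (ℝ × ℝ)) (hX : IsCompact X) (hp : IsPathConnected X)
    (hu : ∀ A B : Set (ℝ × ℝ), A ⊆ X → B ⊆ X → IsCompact A → IsConnected A →
      IsCompact B → IsConnected B → IsPreconnected (A ∩ B)) :
    ∃ (Y : Type) (_ : MetricSpace Y), CompactSpace Y ∧ ConnectedSpace Y ∧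
      (∀ ε : ℝ, 0 < ε → ∃ g : Y → ℝ, Continuous g ∧
        ∀ y y' : Y, g y = g y' → dist y y' < ε) ∧
      ∃ f : Y → ℝ × ℝ, Continuous f ∧ Set.range f = X := by
  obtain ⟨p, hpX, hmax⟩ := hX.exists_isMaxOn hp.nonempty continuous_fst.continuousOn
  let φ : ℂ ≃ₜ ℝ × ℝ := equivRealProdCLM.toHomeomorph.trans (Homeomorph.addRight p)
  have hφ : ∀ z, φ z = (z.re + p.1, z.im + p.2) := fun z => rfl
  have hK : PD (φ ⁻¹' X) := by
    refine ⟨φ.isCompact_preimage.2 hX, φ.isPathConnected_preimage.2 hp, fun A B hA hB => ?_, ?_,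
      fun z hz => ?_⟩
    · rcases A.eq_empty_or_nonempty with rfl | nA
      · simpa using isPreconnected_empty
      rcases B.eq_empty_or_nonempty with rfl | nB
      · simpa using isPreconnected_empty
      rw [← φ.isPreconnected_image, image_inter φ.injective]
      exact hu _ _ (image_subset_iff.2 hA.sub) (image_subset_iff.2 hB.sub)
        (hA.cpt.image φ.continuous) ⟨nA.image _, hA.conn.image _ φ.continuous.continuousOn⟩
        (hB.cpt.image φ.continuous) ⟨nB.image _, hB.conn.image _ φ.continuous.continuousOn⟩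
    · simpa [hφ] using hpX
    · have h1 : (φ z).1 ≤ p.1 := hmax hz.1
      rw [hφ] at h1
      exact Complex.ext (le_antisymm (by simpa using h1) hz.2.1) hz.2.2
  have := hK.compactZ
  have := hK.connZ
  have key := exists_chainable (X := Z (φ ⁻¹' X)) (π := φ ∘ pj) (φ.continuous.comp pj_cont)
    fun D hD ε hε => good_univ (fun M h1 h2 h3 => hK.hasCut h1 h2 h3) hD hε
  rwa [range_comp, hK.range_pj, image_preimage_eq X φ.surjective] at key

end Pool.Agent.Lib.MP_1126ca_gt
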