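import Pool.Agent.Lib.MP_1126ca_gt.Dend

set_option autoImplicit false

open Set Topology Filter Function Complex Metric

namespace Pool.Agent.Lib.MP_1126ca_gt

/-- The arc from the origin to `t`. -/
def Ar (K : Set ℂ) (t : ℂ) : Set ℂ := ⋂₀ {C | Cont K C ∧ (0 : ℂ) ∈ C ∧ t ∈ C}

/-- The arc from `u` to `t`, for `u` below `t`. -/
def Up (K : Set ℂ) (u t : ℂ) : Set ℂ := {p | p ∈ Ar K t ∧ u ∈ Ar K p}

variable {K : Set ℂ}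

theorem Ar_min {C : Set ℂ} {t : ℂ} (hC : Cont K C) (h0 : (0 : ℂ) ∈ C) (ht : t ∈ C) :
    Ar K t ⊆ C := sInter_subset_of_mem ⟨hC, h0, ht⟩

theorem zero_mem_Ar (t : ℂ) : (0 : ℂ) ∈ Ar K t := fun _ h => h.2.1

theorem self_mem_Ar (t : ℂ) : t ∈ Ar K t := fun _ h => h.2.2

structure Par (K : Set ℂ) (t : ℂ) (ℓ : ℝ) (α : ℝ → ℂ) : Prop where
  pos : 0 ≤ ℓ
  cont : Continuous α
  inj : InjOn α (Icc 0 ℓ)
  top : α ℓ = t
  ar : ∀ s ∈ Icc 0 ℓ, Ar K (α s) = α '' Icc 0 s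
  sub : α '' Icc 0 ℓ ⊆ K

theorem PD.par (hK : PD K) {t : ℂ} (ht : t ∈ K) : ∃ ℓ α, Par K t ℓ α := by
  obtain ⟨ℓ, α, h0, h1, h2, h3, h4, h5⟩ : ∃ (ℓ : ℝ) (α : ℝ → ℂ), 0 ≤ ℓ ∧ Continuous α ∧
      InjOn α (Icc 0 ℓ) ∧ α 0 = 0 ∧ α ℓ = t ∧ α '' Icc 0 ℓ ⊆ K := by
    by_cases h : 0 = t
    · refine ⟨0, fun _ => 0, le_rfl, continuous_const, by simp, rfl, h, ?_⟩
      simpa using hK.zero
    · obtain ⟨α, hα, h'⟩ := hK.exists_arc hK.self hK.zero ht h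
      exact ⟨1, α, zero_le_one, hα.cont, hα.inj, hα.zero, hα.one, h'⟩
  refine ⟨ℓ, α, h0, h1, h2, h4, fun s hs => ?_, h5⟩
  have hs' : Icc 0 s ⊆ Icc 0 ℓ := Icc_subset_Icc_right hs.2
  refine Subset.antisymm (Ar_min (cont_image h1 ((image_mono hs').trans h5))
    ⟨0, left_mem_Icc.2 hs.1, h3⟩ ⟨s, right_mem_Icc.2 hs.1, rfl⟩) (subset_sInter ?_)
  rintro C ⟨a1, a2, a3⟩
  exact hK.arc_sub h1 hs.1 (h2.mono hs') ((image_mono hs').trans h5) a1 (h3.symm ▸ a2) a3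

theorem Par.ar_top {t : ℂ} {ℓ : ℝ} {α : ℝ → ℂ} (h : Par K t ℓ α) : Ar K t = α '' Icc 0 ℓ := by
  rw [← h.ar ℓ (right_mem_Icc.2 h.pos), h.top]

theorem Par.le_iff {t : ℂ} {ℓ : ℝ} {α : ℝ → ℂ} (h : Par K t ℓ α) {s s' : ℝ} (hs : s ∈ Icc 0 ℓ)
    (hs' : s' ∈ Icc 0 ℓ) : α s ∈ Ar K (α s') ↔ s ≤ s' := by
  rw [h.ar s' hs']
  constructor
  · rintro ⟨r, hr, e⟩
    rw [← h.inj ⟨hr.1, hr.2.trans hs'.2⟩ hs e]
    exact hr.2
  · exact fun e => ⟨s, ⟨hs.1, e⟩, rfl⟩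

theorem Par.up {t : ℂ} {ℓ : ℝ} {α : ℝ → ℂ} (h : Par K t ℓ α) {s : ℝ} (hs : s ∈ Icc 0 ℓ) :
    Up K (α s) t = α '' Icc s ℓ := by
  ext p
  simp only [Up, mem_ofPred_eq, h.ar_top]
  constructor
  · rintro ⟨⟨r, hr, rfl⟩, e⟩
    exact ⟨r, ⟨(h.le_iff hs hr).1 e, hr.2⟩, rfl⟩
  · rintro ⟨r, hr, rfl⟩
    have : r ∈ Icc 0 ℓ := ⟨hs.1.trans hr.1, hr.2⟩
    exact ⟨⟨r, this, rfl⟩, (h.le_iff hs this).2 hr.1⟩

theorem PD.Ar_cont (hK : PD K) {t : ℂ} (ht : t ∈ K) : Cont K (Ar K t) := by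
  obtain ⟨ℓ, α, h⟩ := hK.par ht
  rw [h.ar_top]
  exact cont_image h.cont h.sub

theorem PD.Ar_sub (hK : PD K) {t u : ℂ} (ht : t ∈ K) (hu : u ∈ Ar K t) : u ∈ K :=
  (hK.Ar_cont ht).sub hu

theorem PD.Ar_mono (hK : PD K) {t u : ℂ} (ht : t ∈ K) (hu : u ∈ Ar K t) : Ar K u ⊆ Ar K t :=
  Ar_min (hK.Ar_cont ht) (zero_mem_Ar t) hu

theorem PD.antisymm (hK : PD K) {t u : ℂ} (ht : t ∈ K) (hu : u ∈ Ar K t) (h : t ∈ Ar K u) :
    u = t := by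
  obtain ⟨ℓ, α, hα⟩ := hK.par ht
  obtain ⟨s, hs, rfl⟩ := hα.ar_top ▸ hu
  rw [← hα.top] at h ⊢
  rw [le_antisymm hs.2 ((hα.le_iff (right_mem_Icc.2 hα.pos) hs).1 h)]

theorem PD.total (hK : PD K) {t u v : ℂ} (ht : t ∈ K) (hu : u ∈ Ar K t) (hv : v ∈ Ar K t) :
    u ∈ Ar K v ∨ v ∈ Ar K u := by
  obtain ⟨ℓ, α, hα⟩ := hK.par ht
  obtain ⟨s, hs, rfl⟩ := hα.ar_top ▸ hu
  obtain ⟨s', hs', rfl⟩ := hα.ar_top ▸ hv
  rw [hα.le_iff hs hs', hα.le_iff hs' hs]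
  exact le_total s s'

theorem PD.Ar_zero (hK : PD K) : Ar K 0 ⊆ {0} :=
  Ar_min ⟨singleton_subset_iff.2 hK.zero, isCompact_singleton, isPreconnected_singleton⟩ rfl rfl

theorem PD.exists_max (hK : PD K) {t : ℂ} (ht : t ∈ K) {P : Set ℂ} (hP : IsClosed P)
    (hne : (Ar K t ∩ P).Nonempty) : ∃ y ∈ Ar K t ∩ P, Ar K t ∩ P ⊆ Ar K y := by
  obtain ⟨ℓ, α, hα⟩ := hK.par ht
  rw [hα.ar_top] at hne ⊢
  obtain ⟨s, hs, hmax⟩ := (isCompact_Icc.inter_right (hP.preimage hα.cont)).exists_isGreatest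
    (s := Icc 0 ℓ ∩ α ⁻¹' P) (by
      obtain ⟨_, ⟨s, hs, rfl⟩, h⟩ := hne
      exact ⟨s, hs, h⟩)
  refine ⟨α s, ⟨⟨s, hs.1, rfl⟩, hs.2⟩, ?_⟩
  rintro _ ⟨⟨r, hr, rfl⟩, h⟩
  exact (hα.le_iff hr hs.1).2 (hmax ⟨hr, h⟩)

theorem PD.exists_min (hK : PD K) {t : ℂ} (ht : t ∈ K) {P : Set ℂ} (hP : IsClosed P)
    (hne : (Ar K t ∩ P).Nonempty) : ∃ y ∈ Ar K t ∩ P, ∀ v ∈ Ar K t ∩ P, y ∈ Ar K v := by
  obtain ⟨ℓ, α, hα⟩ := hK.par ht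
  rw [hα.ar_top] at hne ⊢
  obtain ⟨s, hs, hmin⟩ := (isCompact_Icc.inter_right (hP.preimage hα.cont)).exists_isLeast
    (s := Icc 0 ℓ ∩ α ⁻¹' P) (by
      obtain ⟨_, ⟨s, hs, rfl⟩, h⟩ := hne
      exact ⟨s, hs, h⟩)
  refine ⟨α s, ⟨⟨s, hs.1, rfl⟩, hs.2⟩, ?_⟩
  rintro _ ⟨⟨r, hr, rfl⟩, h⟩
  exact (hα.le_iff hs.1 hr).2 (hmin ⟨hr, h⟩)

theorem PD.meet (hK : PD K) {x t : ℂ} (hx : x ∈ K) (ht : t ∈ K) :
    ∃ b, b ∈ Ar K x ∧ b ∈ Ar K t ∧ Ar K x ∩ Ar K t ⊆ Ar K b := by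
  obtain ⟨b, h1, h2⟩ := hK.exists_max hx (hK.Ar_cont ht).cpt.isClosed
    ⟨0, zero_mem_Ar x, zero_mem_Ar t⟩
  exact ⟨b, h1.1, h1.2, h2⟩

theorem PD.Up_cont (hK : PD K) {t u : ℂ} (ht : t ∈ K) (hu : u ∈ Ar K t) : Cont K (Up K u t) := by
  obtain ⟨ℓ, α, hα⟩ := hK.par ht
  obtain ⟨s, hs, rfl⟩ := hα.ar_top ▸ hu
  rw [hα.up hs]
  exact cont_image hα.cont ((image_mono (Icc_subset_Icc_left hs.1)).trans hα.sub)

theorem left_mem_Up {t u : ℂ} (hu : u ∈ Ar K t) : u ∈ Up K u t := ⟨hu, self_mem_Ar u⟩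

theorem right_mem_Up {t u : ℂ} (hu : u ∈ Ar K t) : t ∈ Up K u t := ⟨self_mem_Ar t, hu⟩

theorem PD.union_Up (hK : PD K) {t u : ℂ} (ht : t ∈ K) (hu : u ∈ Ar K t) :
    Ar K u ∪ Up K u t = Ar K t := by
  refine Subset.antisymm (union_subset (hK.Ar_mono ht hu) fun p hp => hp.1) fun p hp => ?_
  exact (hK.total ht hp hu).imp id fun h => ⟨hp, h⟩

theorem PD.inter_Up (hK : PD K) {t u : ℂ} (hu : u ∈ K) : Ar K u ∩ Up K u t ⊆ {u} :=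
  fun _ hp => hK.antisymm hu hp.1 hp.2.2

theorem Cont.ray (hK : PD K) {C : Set ℂ} (hC : Cont K C) : C ∩ Ray ⊆ {0} :=
  (inter_subset_inter_left _ hC.sub).trans hK.ray

theorem PD.leg_Ar (hK : PD K) {b : ℂ} (hb : b ∈ K) : Leg (Ar K b) b := by
  refine ⟨hK.tame (hK.Ar_cont hb), self_mem_Ar b, ?_, (hK.Ar_cont hb).ray hK⟩
  obtain ⟨ℓ, α, hα⟩ := hK.par hb
  have : Ar K b \ {b} = α '' Ico 0 ℓ := by
    rw [hα.ar_top, ← Icc_sdiff_right, ← hα.top, ← image_singleton]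
    exact (hα.inj.image_sdiff_subset (singleton_subset_iff.2 (right_mem_Icc.2 hα.pos))).symm
  rw [this]
  exact isPreconnected_Ico.image _ hα.cont.continuousOn

theorem PD.leg_Up (hK : PD K) {t u : ℂ} (ht : t ∈ K) (hu : u ∈ Ar K t) : Leg (Up K u t) u := by
  refine ⟨hK.tame (hK.Up_cont ht hu), left_mem_Up hu, ?_, (hK.Up_cont ht hu).ray hK⟩
  obtain ⟨ℓ, α, hα⟩ := hK.par ht
  obtain ⟨s, hs, rfl⟩ := hα.ar_top ▸ hu
  have : Up K (α s) t \ {α s} = α '' Ioc s ℓ := by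
    rw [hα.up hs, ← Icc_sdiff_left, ← image_singleton]
    exact ((hα.inj.mono (Icc_subset_Icc_left hs.1)).image_sdiff_subset
      (singleton_subset_iff.2 (left_mem_Icc.2 hs.2))).symm
  rw [this]
  exact isPreconnected_Ioc.image _ hα.cont.continuousOn

theorem PD.tri_meet (hK : PD K) {x t b : ℂ} (hx : x ∈ K) (ht : t ∈ K) (h1 : b ∈ Ar K x)
    (h2 : b ∈ Ar K t) (h : Ar K x ∩ Ar K t ⊆ Ar K b) (nx : x ≠ b) (nt : t ≠ b) :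
    Tri (Ar K b) (Up K b x) (Up K b t) b x t :=
  have hb := hK.Ar_sub hx h1
  ⟨hK.leg_Ar hb, hK.leg_Up hx h1, hK.leg_Up ht h2, zero_mem_Ar b, fun e => e ▸ hK.Ar_zero,
    hK.inter_Up hb, hK.inter_Up hb, fun _ hp => hK.antisymm hb (h ⟨hp.1.1, hp.2.1⟩) hp.1.2,
    right_mem_Up h1, right_mem_Up h2, nx, nt⟩

theorem PD.borsuk_seq (hK : PD K) {x : ℕ → ℂ} (hx : ∀ n, x n ∈ K)
    (hm : ∀ n, x n ∈ Ar K (x (n + 1))) {a : ℂ} (ha : Tendsto x atTop (𝓝 a)) :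
    x 0 ∈ Ar K a := by
  by_contra hy
  have haK : a ∈ K := hK.cpt.isClosed.mem_of_tendsto ha (Eventually.of_forall hx)
  have mono : Monotone fun n => Ar K (x n) :=
    monotone_nat_of_le_succ fun n => hK.Ar_mono (hx _) (hm n)
  have le : ∀ {m k}, m ≤ k → x m ∈ Ar K (x k) := fun h => mono h (self_mem_Ar _)
  let Q : ℕ → Set ℂ := fun m => ⋃ k, Up K (x m) (x (m + k))
  have hQ : ∀ m k, m ≤ k → x k ∈ Q m := fun m k h => mem_iUnion.2 ⟨k - m, by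
    rw [Nat.add_sub_cancel' h]
    exact right_mem_Up (le h)⟩
  have hT : ∀ m, Cont K (closure (Q m)) := fun m => by
    have h1 : closure (Q m) ⊆ K := closure_minimal (iUnion_subset fun k =>
      (hK.Up_cont (hx _) (le (Nat.le_add_right m k))).sub) hK.cpt.isClosed
    refine ⟨h1, hK.cpt.of_isClosed_subset isClosed_closure h1, IsPreconnected.closure ?_⟩
    exact isPreconnected_iUnion ⟨x m, mem_iInter.2 fun k => left_mem_Up (le (Nat.le_add_right m k))⟩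
      fun k => (hK.Up_cont (hx _) (le (Nat.le_add_right m k))).conn
  have haT : ∀ m, a ∈ closure (Q m) := fun m =>
    mem_closure_of_tendsto ha (eventually_atTop.2 ⟨m, fun k hk => hQ m k hk⟩)
  have hTm : ∀ m, closure (Q 0) ⊆ closure (Q m) := fun m => closure_minimal (by
    intro p hp
    obtain ⟨k, h1, h2⟩ := mem_iUnion.1 hp
    have := Ar_min ((hK.Ar_cont haK).union (hT m) (self_mem_Ar a) (haT m))
      (Or.inl (zero_mem_Ar a)) (Or.inr (subset_closure (hQ m (m + k) (Nat.le_add_right m k))))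
      (mono (show 0 + k ≤ m + k by omega) h1)
    exact this.resolve_left fun e => hy (hK.Ar_mono haK e h2)) isClosed_closure
  have key : ∀ C, Cont K C → (∃ᶠ k in atTop, x k ∈ C) → closure (Q 0) ⊆ C := by
    intro C hC hf
    obtain ⟨m, hm⟩ := hf.exists
    refine (hTm m).trans (closure_minimal (fun p hp => ?_) hC.cpt.isClosed)
    obtain ⟨k, h1, h2⟩ := mem_iUnion.1 hp
    obtain ⟨k', a1, a2⟩ := frequently_atTop.1 hf (m + k)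
    rcases Ar_min ((hK.Ar_cont (hx m)).union hC (self_mem_Ar _) hm) (Or.inl (zero_mem_Ar _))
      (Or.inr a2) (mono a1 h1) with h | h
    · rw [hK.antisymm (hx m) h h2]
      exact hm
    · exact h
  obtain ⟨C, D, hC, hD, hCD, h1, h2⟩ := hK.decomp (hT 0) ⟨a, haT 0, x 0,
    subset_closure (hQ 0 0 le_rfl), fun e => hy (e ▸ self_mem_Ar a)⟩
  have : ∃ᶠ k in atTop, x k ∈ C ∨ x k ∈ D := Frequently.of_forall fun k => by
    have : x k ∈ C ∪ D := hCD ▸ subset_closure (hQ 0 k (Nat.zero_le k))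
    exact this
  rcases frequently_or_distrib.1 this with h | h
  · exact h1 (Subset.antisymm (hCD ▸ subset_union_left) (key C hC h))
  · exact h2 (Subset.antisymm (hCD ▸ subset_union_right) (key D hD h))

theorem PD.borsuk (hK : PD K) {Y : Set ℂ} (hY : Y ⊆ K) {a : ℂ}
    (h : ∀ y ∈ Y, y ≠ a → ∀ ε > 0, ∃ y' ∈ Y, y ∈ Ar K y' ∧ dist y' a < ε) : Y ⊆ Ar K a := by
  intro y hy
  by_contra hya
  have step : ∀ (n : ℕ) (p : {p // p ∈ Y ∧ y ∈ Ar K p}), ∃ q : {p // p ∈ Y ∧ y ∈ Ar K p},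
      p.1 ∈ Ar K q.1 ∧ dist q.1 a < 1 / (n + 1) := by
    intro n p
    obtain ⟨q, a1, a2, a3⟩ := h p.1 p.2.1 (fun e => hya (e ▸ p.2.2)) _
      (Nat.one_div_pos_of_nat (n := n))
    exact ⟨⟨q, a1, hK.Ar_mono (hY a1) a2 p.2.2⟩, a2, a3⟩
  choose f hf1 hf2 using step
  let x : ℕ → {p // p ∈ Y ∧ y ∈ Ar K p} := fun n => Nat.rec ⟨y, hy, self_mem_Ar y⟩ f n
  refine hya (hK.borsuk_seq (x := fun n => (x n).1) (fun n => hY (x n).2.1) (fun n => hf1 n _) ?_)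
  rw [← tendsto_add_atTop_iff_nat 1, tendsto_iff_dist_tendsto_zero]
  exact squeeze_zero (fun _ => dist_nonneg) (fun n => (hf2 n _).le)
    tendsto_one_div_add_atTop_nhds_zero_nat

/-- The union of all arcs from the origin to points of `L`. -/
def hull (K L : Set ℂ) : Set ℂ := ⋃ t ∈ L, Ar K t

theorem Ar_subset_hull {L : Set ℂ} {t : ℂ} (ht : t ∈ L) : Ar K t ⊆ hull K L :=
  subset_biUnion_of_mem (u := fun t => Ar K t) ht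

theorem PD.hull_eq (hK : PD K) {L : Set ℂ} (hL : Cont K L) (hne : L.Nonempty) :
    ∃ y ∈ L, hull K L = Ar K y ∪ L ∧ Ar K y ∩ L ⊆ {y} := by
  obtain ⟨t, ht⟩ := hne
  obtain ⟨y, ⟨a1, a2⟩, a3⟩ := hK.exists_min (hL.sub ht) hL.cpt.isClosed ⟨t, self_mem_Ar t, ht⟩
  refine ⟨y, a2, Subset.antisymm (iUnion₂_subset fun u hu => Ar_min
    ((hK.Ar_cont (hL.sub a2)).union hL (self_mem_Ar y) a2) (Or.inl (zero_mem_Ar y)) (Or.inr hu))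
    (union_subset (Ar_subset_hull a2) fun u hu => Ar_subset_hull hu (self_mem_Ar u)),
    fun u hu => hK.antisymm (hL.sub a2) hu.1 (a3 u ⟨hK.Ar_mono (hL.sub ht) a1 hu.1, hu.2⟩)⟩

theorem PD.hull_cont (hK : PD K) {L : Set ℂ} (hL : Cont K L) (hne : L.Nonempty) :
    Cont K (hull K L) := by
  obtain ⟨y, h1, h2, -⟩ := hK.hull_eq hL hne
  rw [h2]
  exact (hK.Ar_cont (hL.sub h1)).union hL (self_mem_Ar y) h1

end Pool.Agent.Lib.MP_1126ca_gt
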