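import Pool.Agent.Lib.MP_1126ca_gt.Root

set_option autoImplicit false

open Set Topology Filter Function Complex Metric

namespace Pool.Agent.Lib.MP_1126ca_gt

structure Leg (A : Set ℂ) (b : ℂ) : Prop where
  tame : Tame A
  mem : b ∈ A
  conn : IsPreconnected (A \ {b})
  ray : A ∩ Ray ⊆ {0}

/-- Three legs meeting at `b`, the first one containing the origin. -/
structure Tri (L J J' : Set ℂ) (b x t : ℂ) : Prop where
  l0 : Leg L b
  l1 : Leg J b
  l2 : Leg J' b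
  zero : (0 : ℂ) ∈ L
  base : b = 0 → L ⊆ {0}
  i1 : L ∩ J ⊆ {b}
  i2 : L ∩ J' ⊆ {b}
  i3 : J ∩ J' ⊆ {b}
  mx : x ∈ J
  mt : t ∈ J'
  nx : x ≠ b
  nt : t ≠ b

/-- The local root of `w - x` near `b`. -/
noncomputable def rr (L : Set ℂ) (b x w : ℂ) : ℂ := F L x b * rt w b x

theorem rr_sq {L : Set ℂ} {b x : ℂ} (hL : Tame L) (h0 : (0 : ℂ) ∈ L) (hb : b ∈ L) (hx : x ∉ L)
    (w : ℂ) : rr L b x w ^ 2 = w - x :=
  mul_rt_sq (fun e => hx (e ▸ hb)) ((hL.F_root h0 hx).2 b hb)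

theorem rr_self {L : Set ℂ} {b x : ℂ} (h : b ≠ x) : rr L b x b = F L x b := by
  rw [rr, rt_self h, mul_one]

theorem rr_cont {L : Set ℂ} {b x w : ℂ} (h : x ∉ segment ℝ w b) : ContinuousAt (rr L b x) w :=
  tendsto_const_nhds.mul (tendsto_rt tendsto_id tendsto_const_nhds tendsto_const_nhds h)

theorem rr_cont' {L : Set ℂ} {b x : ℂ} (h : x ≠ b) : ContinuousAt (rr L b x) b :=
  rr_cont (by simpa using h)

variable {L J J' : Set ℂ} {b x t c : ℂ}

theorem Tri.symm (h : Tri L J J' b x t) : Tri L J' J b t x :=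
  ⟨h.l0, h.l2, h.l1, h.zero, h.base, h.i2, h.i1, by rw [inter_comm]; exact h.i3, h.mt, h.mx,
    h.nt, h.nx⟩

theorem Tri.out (h : Tri L J J' b x t) {v : ℂ} (hv : v ∈ J) (hb : v ≠ b) :
    v ∉ L ∪ J' ∧ v ∉ Ray := by
  refine ⟨?_, fun hR => ?_⟩
  · rintro (h1 | h1)
    · exact hb (h.i1 ⟨h1, hv⟩)
    · exact hb (h.i3 ⟨hv, h1⟩)
  · have : v = 0 := h.l1.ray ⟨hv, hR⟩
    subst this
    exact hb (h.i1 ⟨h.zero, hv⟩)

theorem Tri.tame (h : Tri L J J' b x t) : Tame (L ∪ J) :=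
  h.l0.tame.union h.l1.tame h.l0.mem h.l1.mem h.i1

theorem Tri.tameJ (h : Tri L J J' b x t) : Tame (J ∪ J') :=
  h.l1.tame.union h.l2.tame h.l1.mem h.l2.mem h.i3

theorem Tri.xL (h : Tri L J J' b x t) : x ∉ L := fun e => (h.out h.mx h.nx).1 (Or.inl e)

theorem Tri.leg (h : Tri L J J' b x t) (hc : c ^ 2 = -1)
    (e : F (L ∪ J') x t = c * F (L ∪ J) t x) :
    ∀ᶠ v in 𝓝 b, v ∈ J → v ≠ b → F (L ∪ J') v t = c * rr L b t v := by
  have ht := h.symm.out h.mt h.nt
  have hX := h.tame.F_root (Or.inl h.zero) ht.1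
  have hc0 : c ≠ 0 := by
    rintro rfl
    simp at hc
  have h1 := sq_conn h.l1.conn (f := fun v => F (L ∪ J') v t) (g := fun v => c * F (L ∪ J) t v)
    (fun v hv => (h.symm.tame.F_cont (Or.inl h.zero) (h.out hv.1 hv.2).1 (h.out hv.1 hv.2).2
      (Or.inr h.mt)).continuousWithinAt)
    (continuousOn_const.mul (hX.1.mono fun v hv => Or.inr hv.1))
    (fun v hv => by
      rw [(h.symm.tame.F_root (Or.inl h.zero) (h.out hv.1 hv.2).1).2 t (Or.inr h.mt), mul_pow,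
        hX.2 v (Or.inr hv.1), hc]
      ring)
    (fun v hv => mul_ne_zero hc0 (hX.ne ht.1 (Or.inr hv.1))) (y := x) ⟨h.mx, h.nx⟩ e
  have h2 : ∀ᶠ v in 𝓝[L ∪ J] b, F (L ∪ J) t v = rr L b t v := by
    refine sq_ev (hX.1 b (Or.inl h.l0.mem)) ?_ (hX.ne ht.1 (Or.inl h.l0.mem)) ?_
    · rw [← F_mono h.l0.tame.conn h.zero h.symm.xL subset_union_left ⟨_, hX⟩ b h.l0.mem,
        ← rr_self h.nt.symm]
      exact (rr_cont' h.nt).continuousWithinAt
    · filter_upwards [self_mem_nhdsWithin] with v hv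
      rw [hX.2 v hv, rr_sq h.l0.tame h.zero h.l0.mem h.symm.xL]
  rw [eventually_nhdsWithin_iff] at h2
  filter_upwards [h2] with v hv h3 h4
  rw [h1 v ⟨h3, h4⟩, hv (Or.inr h3)]

theorem sub_slit {v x : ℂ} (hv : v ∈ Ray) (hx : x ∉ Ray) : v - x ∈ slitPlane := by
  rw [← neg_sub]
  exact neg_mem_slit fun h => hx (by simpa using Ray_add h hv)

theorem ext_root (hL : Leg L b) (h0 : (0 : ℂ) ∈ L) (h1 : x ∉ L) (h2 : x ∉ Ray) :
    ∃ e, IsRoot (L ∪ Ray) x e ∧ e b = F L x b ∧ e 1 = sqrt (1 - x) := by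
  obtain ⟨a1, a2⟩ := F_spec h0 (hL.tame.root x h1)
  obtain ⟨e, b1, b2, b3⟩ := glue (f := F L x) (g := fun v => sqrt (v - x)) hL.tame.cpt.isClosed
    isClosed_Ray a1.1 (fun v hv => ((contAt_sqrt (sub_slit hv h2)).comp
      (f := fun v => v - x) (by fun_prop)).continuousWithinAt) (by
      intro v hv hv'
      have : v = 0 := hL.ray ⟨hv, hv'⟩
      rw [this, a2, zero_sub])
  refine ⟨e, ⟨b1, ?_⟩, b2 hL.mem, b3 one_mem_Ray⟩
  rintro v (hv | hv)
  · rw [b2 hv, a1.2 v hv]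
  · rw [b3 hv, sqrt_sq']

theorem Tri.low_out (h : Tri L J J' b x t) {v : ℂ} (hv : v ∈ L ∪ Ray) (hb : v ≠ b) :
    v ∉ J ∪ J' := by
  rintro (h1 | h1)
  · rcases hv with h2 | h2
    · exact (h.out h1 hb).1 (Or.inl h2)
    · exact (h.out h1 hb).2 h2
  · rcases hv with h2 | h2
    · exact (h.symm.out h1 hb).1 (Or.inl h2)
    · exact (h.symm.out h1 hb).2 h2

theorem Tri.low (h : Tri L J J' b x t) :
    ∀ᶠ v in 𝓝 b, v ∈ L ∪ Ray → v ≠ b → dl (J ∪ J') v x t * rr L b t v = rr L b x v := by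
  have hx := h.out h.mx h.nx
  have ht := h.symm.out h.mt h.nt
  obtain ⟨e, a1, a2, a3⟩ := ext_root h.l0 h.zero h.xL hx.2
  obtain ⟨e', b1, b2, b3⟩ := ext_root h.l0 h.zero h.symm.xL ht.2
  have hx' : x ∉ L ∪ Ray := fun e => e.elim h.xL hx.2
  have ht' : t ∉ L ∪ Ray := fun e => e.elim h.symm.xL ht.2
  have hb1 : (1 : ℂ) ≠ b := fun e => one_ne_zero (h.l0.ray ⟨e ▸ h.l0.mem, one_mem_Ray⟩)
  have hconn : IsPreconnected ((L ∪ Ray) \ {b}) := by
    by_cases hb : b = 0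
    · have : (L ∪ Ray) \ {b} = Ray \ {0} := by
        rw [hb, union_sdiff_distrib, sdiff_eq_empty.2 (h.base hb), empty_union]
      rw [this]
      exact convex_Ray_diff.isPreconnected
    · have : (L ∪ Ray) \ {b} = (L \ {b}) ∪ Ray := by
        rw [union_sdiff_distrib, sdiff_singleton_eq_self (s := Ray)
          fun e => hb (h.l0.ray ⟨h.l0.mem, e⟩)]
      rw [this]
      exact h.l0.conn.union 0 ⟨h.zero, fun e => hb (mem_singleton_iff.1 e).symm⟩ zero_mem_Ray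
        convex_Ray.isPreconnected
  have hJ1 : IsRoot (J ∪ J') 1 (fun z => I * sqrt (1 - z)) := by
    refine ⟨fun z hz => ContinuousAt.continuousWithinAt (continuousAt_const.mul
      ((contAt_sqrt ?_).comp (f := fun z : ℂ => 1 - z) (by fun_prop))), fun z _ => ?_⟩
    · by_cases hz' : z ∈ Ray
      · have : z = 0 := hz.elim (fun e => h.l1.ray ⟨e, hz'⟩) fun e => h.l2.ray ⟨e, hz'⟩
        simp [this]
      · exact sub_slit one_mem_Ray hz'
    · rw [mul_pow, sqrt_sq', I_sq]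
      ring
  have h1 := sq_conn hconn (f := fun v => dl (J ∪ J') v x t * e' v) (g := e)
    (ContinuousOn.mul (fun v hv => (h.tameJ.dl_cont (h.low_out hv.1 hv.2) (Or.inl h.mx)
      (Or.inr h.mt)).continuousWithinAt) (b1.1.mono sdiff_subset)) (a1.1.mono sdiff_subset)
    (fun v hv => by
      rw [mul_pow, b1.2 v hv.1, a1.2 v hv.1]
      linear_combination -h.tameJ.dl_sq (h.low_out hv.1 hv.2) (Or.inl h.mx) (Or.inr h.mt))
    (fun v hv => a1.ne hx' hv.1) (y := 1) ⟨Or.inr one_mem_Ray, hb1⟩ (by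
      have := dl_spec h.tameJ.conn (h.low_out (Or.inr one_mem_Ray) hb1) hJ1 (Or.inl h.mx)
        (Or.inr h.mt)
      rw [a3, b3]
      apply mul_left_cancel₀ I_ne_zero
      linear_combination -this)
  have key : ∀ (x : ℂ) (e : ℂ → ℂ), x ∉ L ∪ Ray → IsRoot (L ∪ Ray) x e → e b = F L x b →
      ∀ᶠ v in 𝓝 b, v ∈ L ∪ Ray → e v = rr L b x v := by
    intro x e hx a1 a2
    have hxb : x ≠ b := fun e => hx (Or.inl (e ▸ h.l0.mem))
    rw [← eventually_nhdsWithin_iff]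
    refine sq_ev (a1.1 b (Or.inl h.l0.mem)) ?_ (a1.ne hx (Or.inl h.l0.mem)) ?_
    · rw [a2, ← rr_self hxb.symm]
      exact (rr_cont' hxb).continuousWithinAt
    · filter_upwards [self_mem_nhdsWithin] with v hv
      rw [a1.2 v hv, rr_sq h.l0.tame h.zero h.l0.mem fun e => hx (Or.inl e)]
  filter_upwards [key x e hx' a1 a2, key t e' ht' b1 b2] with v c1 c2 hv hb
  rw [← c1 hv, ← c2 hv]
  exact h1 v ⟨hv, hb⟩

theorem sphere_conn (v : ℂ) (r : ℝ) : IsPreconnected (sphere v r) :=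
  isPreconnected_sphere (by rw [rank_real_complex]; exact Nat.one_lt_ofNat) v r

theorem Tri.planar (h : Tri L J J' b x t) (hc : c ^ 2 = -1)
    (e : F (L ∪ J') x t = c * F (L ∪ J) t x) :
    ∀ᶠ w in 𝓝 b, w ∉ L ∪ J → w ∉ L ∪ J' → w ∉ Ray → F (L ∪ J) w x = c * rr L b x w →
      F (L ∪ J') w t = c * rr L b t w := by
  have hc0 : c ≠ 0 := by
    rintro rfl
    simp at hc
  have e' : F (L ∪ J) t x = -c * F (L ∪ J') x t := by
    rw [e]
    linear_combination (F (L ∪ J) t x) * hc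
  obtain ⟨ε, hε, hball⟩ := Metric.eventually_nhds_iff_ball.1 ((h.leg hc e).and
    ((h.symm.leg (c := -c) (by rw [neg_sq, hc]) e').and (h.low.and
      ((eventually_ne_nhds h.nx.symm).and (eventually_ne_nhds h.nt.symm)))))
  have sx := rr_sq h.l0.tame h.zero h.l0.mem h.xL
  have st := rr_sq h.l0.tame h.zero h.l0.mem h.symm.xL
  have cx : ∀ v ∈ ball b ε, ContinuousAt (rr L b x) v := fun v hv => rr_cont fun e =>
    (hball x ((convex_ball b ε).segment_subset hv (mem_ball_self hε) e)).2.2.2.1 rfl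
  have ct : ∀ v ∈ ball b ε, ContinuousAt (rr L b t) v := fun v hv => rr_cont fun e =>
    (hball t ((convex_ball b ε).segment_subset hv (mem_ball_self hε) e)).2.2.2.2 rfl
  have nx : ∀ v ∈ ball b ε, c * rr L b x v ≠ 0 := fun v hv =>
    mul_ne_zero hc0 (ne_zero_of_sq (sx v) (hball v hv).2.2.2.1)
  have nt : ∀ v ∈ ball b ε, c * rr L b t v ≠ 0 := fun v hv =>
    mul_ne_zero hc0 (ne_zero_of_sq (st v) (hball v hv).2.2.2.2)
  have z1 : (0 : ℂ) ∈ L ∪ J := Or.inl h.zero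
  have z2 : (0 : ℂ) ∈ L ∪ J' := Or.inl h.zero
  have qx : ∀ w ∉ L ∪ J, F (L ∪ J) w x ^ 2 = (c * rr L b x w) ^ 2 := fun w hw => by
    rw [(h.tame.F_root z1 hw).2 x (Or.inr h.mx), mul_pow, sx, hc]
    ring
  have qt : ∀ w ∉ L ∪ J', F (L ∪ J') w t ^ 2 = (c * rr L b t w) ^ 2 := fun w hw => by
    rw [(h.symm.tame.F_root z2 hw).2 t (Or.inr h.mt), mul_pow, st, hc]
    ring
  let Φ : Set ℂ := {w | w ∉ L ∪ J ∧ w ∉ L ∪ J' ∧ w ∉ Ray ∧ F (L ∪ J) w x = c * rr L b x w ∧
    F (L ∪ J') w t = -(c * rr L b t w)}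
  have f1 : ∀ v ∈ ball b ε, v ∉ L ∪ J → v ∉ Ray → F (L ∪ J) v x ≠ c * rr L b x v →
      v ∈ interior Φᶜ := by
    intro v hv h1 h2 h3
    rw [mem_interior_iff_mem_nhds]
    filter_upwards [((h.tame.F_cont z1 h1 h2 (Or.inr h.mx)).sub (continuousAt_const.mul
      (cx v hv))).eventually_ne (sub_ne_zero.2 h3)] with w hw hΦ
    exact hw (sub_eq_zero.2 hΦ.2.2.2.1)
  have f2 : ∀ v ∈ ball b ε, v ∉ L ∪ J' → v ∉ Ray → F (L ∪ J') v t ≠ -(c * rr L b t v) →
      v ∈ interior Φᶜ := by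
    intro v hv h1 h2 h3
    rw [mem_interior_iff_mem_nhds]
    filter_upwards [((h.symm.tame.F_cont z2 h1 h2 (Or.inr h.mt)).sub (continuousAt_const.mul
      (ct v hv)).neg).eventually_ne (sub_ne_zero.2 h3)] with w hw hΦ
    exact hw (sub_eq_zero.2 hΦ.2.2.2.2)
  have hall : Tame (L ∪ (J ∪ J')) := h.l0.tame.union h.tameJ h.l0.mem (Or.inl h.l1.mem) (by
    rintro v ⟨h1, h2 | h2⟩
    · exact h.i1 ⟨h1, h2⟩
    · exact h.i2 ⟨h1, h2⟩)
  have dich : ∀ v ∈ ball b ε, v ≠ b → v ∈ interior Φ ∪ interior Φᶜ := by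
    intro v hv hb
    obtain ⟨a1, a2, a3, -, -⟩ := hball v hv
    by_cases hJ : v ∈ J
    · refine Or.inr (f2 v hv (h.out hJ hb).1 (h.out hJ hb).2 ?_)
      rw [a1 hJ hb]
      exact ne_neg_self (nt v hv)
    by_cases hJ' : v ∈ J'
    · refine Or.inr (f1 v hv (h.symm.out hJ' hb).1 (h.symm.out hJ' hb).2 ?_)
      rw [a2 hJ' hb, neg_mul]
      exact (ne_neg_self (nx v hv)).symm
    by_cases hL : v ∈ L ∪ Ray
    · right
      rw [mem_interior_iff_mem_nhds]
      have hne : dl (J ∪ J') v x t * rr L b t v + rr L b x v ≠ 0 := by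
        rw [a3 hL hb, ← two_mul]
        exact mul_ne_zero two_ne_zero (right_ne_zero_of_mul (nx v hv))
      filter_upwards [(((h.tameJ.dl_cont (h.low_out hL hb) (Or.inl h.mx) (Or.inr h.mt)).mul
        (ct v hv)).add (cx v hv)).eventually_ne hne] with w hw hΦ
      obtain ⟨b1, b2, b3, b4, b5⟩ := hΦ
      have hw' : w ∉ L ∪ (J ∪ J') := by
        rintro (e | e | e)
        · exact b1 (Or.inl e)
        · exact b1 (Or.inr e)
        · exact b2 (Or.inr e)
      have hr := hall.F_root (Or.inl h.zero) hw'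
      have := dl_spec h.tameJ.conn (fun e => hw' (Or.inr e)) (hr.mono subset_union_right)
        (Or.inl h.mx) (Or.inr h.mt)
      rw [← F_mono h.tame.conn z1 b1 (union_subset_union_right _ subset_union_left) ⟨_, hr⟩ x
        (Or.inr h.mx), ← F_mono h.symm.tame.conn z2 b2
        (union_subset_union_right _ subset_union_right) ⟨_, hr⟩ t (Or.inr h.mt), b4, b5] at this
      apply hw
      apply mul_left_cancel₀ hc0
      simp only [Pi.add_apply, Pi.mul_apply]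
      linear_combination this
    have o1 : v ∉ L ∪ J := fun e => e.elim (fun e => hL (Or.inl e)) hJ
    have o2 : v ∉ L ∪ J' := fun e => e.elim (fun e => hL (Or.inl e)) hJ'
    have o3 : v ∉ Ray := fun e => hL (Or.inr e)
    by_cases b4 : F (L ∪ J) v x = c * rr L b x v
    swap
    · exact Or.inr (f1 v hv o1 o3 b4)
    by_cases b5 : F (L ∪ J') v t = -(c * rr L b t v)
    swap
    · exact Or.inr (f2 v hv o2 o3 b5)
    left
    rw [mem_interior_iff_mem_nhds]
    have n1 := h.tame.cpt.isClosed.isOpen_compl.mem_nhds o1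
    have n2 := h.symm.tame.cpt.isClosed.isOpen_compl.mem_nhds o2
    have g1 : ∀ᶠ w in 𝓝 v, F (L ∪ J) w x = c * rr L b x w := by
      refine sq_ev (a := F (L ∪ J) v x) (h.tame.F_cont z1 o1 o3 (Or.inr h.mx)) ?_
        (b4 ▸ nx v hv) ?_
      · rw [b4]
        exact continuousAt_const.mul (cx v hv)
      · filter_upwards [n1] with w hw using qx w hw
    have g2 : ∀ᶠ w in 𝓝 v, F (L ∪ J') w t = -(c * rr L b t w) := by
      refine sq_ev (a := F (L ∪ J') v t) (h.symm.tame.F_cont z2 o2 o3 (Or.inr h.mt)) ?_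
        (b5 ▸ neg_ne_zero.2 (nt v hv)) ?_
      · rw [b5]
        exact (continuousAt_const.mul (ct v hv)).neg
      · filter_upwards [n2] with w hw
        rw [qt w hw, neg_sq]
    filter_upwards [n1, n2, isClosed_Ray.isOpen_compl.mem_nhds o3, g1, g2] with w c1 c2 c3 c4 c5
    exact ⟨c1, c2, c3, c4, c5⟩
  filter_upwards [ball_mem_nhds b hε] with w hw b1 b2 b3 b4
  rcases eq_or_eq_neg_of_sq_eq_sq _ _ (qt w b2) with b5 | b5
  · exact b5
  exfalso
  have hwb : w ≠ b := fun e => b1 (Or.inl (e ▸ h.l0.mem))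
  have hρ : 0 < dist w b := dist_pos.2 hwb
  rcases (sphere_conn b (dist w b)).subset_or_subset isOpen_interior isOpen_interior
    (disjoint_compl_right.mono interior_subset interior_subset) (fun v hv => dich v
      (by rw [mem_ball, mem_sphere.1 hv]; exact hw) fun e => by
        rw [e, mem_sphere, dist_self] at hv
        exact hρ.ne hv) with h1 | h1
  · obtain ⟨v, hv, hv'⟩ := h.l1.tame.conn.intermediate_value h.l1.mem h.mx
      (f := fun v => dist v b) (by fun_prop) (show dist w b ∈ Icc (dist b b) (dist x b) from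
        ⟨by simp, le_of_not_gt fun e => (hball x (lt_trans e hw)).2.2.2.1 rfl⟩)
    exact (interior_subset (h1 hv')).1 (Or.inr hv)
  · exact interior_subset (h1 (show w ∈ sphere b (dist w b) from rfl)) ⟨b1, b2, b3, b4, b5⟩

theorem two_sided {v a : ℂ} (hL : Tame L) (hJ : Tame J) (h0 : (0 : ℂ) ∈ L) (h1 : v ∈ L)
    (h2 : v ∈ J) (hi : L ∩ J ⊆ {v}) (ht : t ∈ J) (htv : t ≠ v) (hR : v ∉ Ray)
    (ha : a ^ 2 = t - v) :
    ∃ᶠ w in 𝓝 v, w ∉ L ∪ J ∧ w ∉ Ray ∧ F (L ∪ J) w t = a * rt w v t := by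
  classical
  intro hcon
  have hU := hL.union hJ h1 h2 hi
  have ha' : ∀ w, (a * rt w v t) ^ 2 = t - w := fun w => mul_rt_sq' htv.symm ha
  obtain ⟨ε, hε, hball⟩ := Metric.eventually_nhds_iff_ball.1 (hcon.and
    ((eventually_ne_nhds htv.symm).and (isClosed_Ray.isOpen_compl.mem_nhds hR)))
  let g : ℂ → ℂ := fun w => if w ∈ L then -(a * rt w v t) / dl J w t v else F L w v
  have g1 : ∀ w ∈ ball v ε, w ∉ J → g w = -(a * rt w v t) / dl J w t v := by
    intro w hw hwJ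
    by_cases hwL : w ∈ L
    · exact if_pos hwL
    have hw' : w ∉ L ∪ J := fun e => e.elim hwL hwJ
    have hr := hU.F_root (Or.inl h0) hw'
    simp only [g, if_neg hwL]
    rw [F_mono hL.conn h0 hwL subset_union_left ⟨_, hr⟩ v h1, eq_div_iff (hJ.dl_ne hwJ ht h2),
      mul_comm, ← dl_spec hJ.conn hwJ (hr.mono subset_union_right) ht h2]
    refine (eq_or_eq_neg_of_sq_eq_sq _ _ ((hr.2 t (Or.inr ht)).trans (ha' w).symm)).resolve_left ?_
    exact fun e => (hball w hw).1 ⟨hw', (hball w hw).2.2, e⟩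
  refine no_root_sphere v (half_pos hε) ⟨fun w => I * g w, fun w hw => ?_, fun w hw => ?_⟩
  · have hw1 : w ∈ ball v ε := sphere_subset_ball (half_lt_self hε) hw
    have hw2 : w ≠ v := ne_of_mem_sphere hw (half_pos hε).ne'
    refine (continuousAt_const.mul ?_).continuousWithinAt
    by_cases hwL : w ∈ L
    · have hwJ : w ∉ J := fun e => hw2 (hi ⟨hwL, e⟩)
      refine ContinuousAt.congr (f := fun w => -(a * rt w v t) / dl J w t v) ?_ ?_
      · refine ContinuousAt.div (ContinuousAt.neg (continuousAt_const.mul ?_))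
          (hJ.dl_cont hwJ ht h2) (hJ.dl_ne hwJ ht h2)
        exact tendsto_rt tendsto_id tendsto_const_nhds tendsto_const_nhds fun e =>
          (hball t ((convex_ball v ε).segment_subset hw1 (mem_ball_self hε) e)).2.1 rfl
      · filter_upwards [isOpen_ball.mem_nhds hw1, hJ.cpt.isClosed.isOpen_compl.mem_nhds hwJ]
          with z c1 c2 using (g1 z c1 c2).symm
    · refine (hL.F_cont h0 hwL (hball w hw1).2.2 h1).congr ?_
      filter_upwards [hL.cpt.isClosed.isOpen_compl.mem_nhds hwL] with z c1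
      exact (if_neg c1).symm
  · have hw1 : w ∈ ball v ε := sphere_subset_ball (half_lt_self hε) hw
    have hw2 : w ≠ v := ne_of_mem_sphere hw (half_pos hε).ne'
    have : g w ^ 2 = v - w := by
      by_cases hwL : w ∈ L
      · have hwJ : w ∉ J := fun e => hw2 (hi ⟨hwL, e⟩)
        rw [g1 w hw1 hwJ, div_pow, neg_sq, ha', div_eq_iff (pow_ne_zero 2 (hJ.dl_ne hwJ ht h2)),
          mul_comm, hJ.dl_sq hwJ ht h2]
      · simp only [g, if_neg hwL]
        exact (hL.F_root h0 hwL).2 v h1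
    rw [mul_pow, this, I_sq]
    ring

end Pool.Agent.Lib.MP_1126ca_gt
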