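import Pool.Agent.Lib.MP_1126ca_gt.Top

set_option autoImplicit false

open Set Topology Filter Function Complex Metric

namespace Pool.Agent.Lib.MP_1126ca_gt

/-- The closed positive real half line. -/
def Ray : Set ℂ := {z | 0 ≤ z.re ∧ z.im = 0}

theorem neg_mem_slit {w : ℂ} (h : w ∉ Ray) : -w ∈ slitPlane := by
  rw [mem_slitPlane_iff]
  simp only [Ray, mem_ofPred_eq, not_and] at h
  by_cases h1 : w.im = 0
  · left
    by_contra h2
    exact h (by simpa using h2) h1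
  · right
    simpa using h1

theorem isClosed_Ray : IsClosed Ray :=
  (isClosed_le continuous_const continuous_re).inter (isClosed_eq continuous_im continuous_const)

theorem zero_mem_Ray : (0 : ℂ) ∈ Ray := ⟨le_rfl, rfl⟩

theorem one_mem_Ray : (1 : ℂ) ∈ Ray := ⟨zero_le_one, rfl⟩

theorem Ray_add {a b : ℂ} (ha : a ∈ Ray) (hb : b ∈ Ray) : a + b ∈ Ray :=
  ⟨by simpa using add_nonneg ha.1 hb.1, by simp [ha.2, hb.2]⟩

theorem convex_Ray : Convex ℝ Ray := by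
  intro a ha b hb s t hs ht _
  refine ⟨?_, by simp [ha.2, hb.2]⟩
  simpa using add_nonneg (mul_nonneg hs ha.1) (mul_nonneg ht hb.1)

theorem convex_Ray_diff : Convex ℝ (Ray \ {0}) := by
  have : Ray \ {0} = {z : ℂ | 0 < z.re} ∩ Ray := by
    ext z
    constructor
    · rintro ⟨h1, h2⟩
      refine ⟨lt_of_le_of_ne h1.1 fun h => h2 (Complex.ext h.symm h1.2), h1⟩
    · rintro ⟨h1, h2⟩
      refine ⟨h2, fun h => ?_⟩
      rw [mem_singleton_iff.1 h] at h1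
      exact lt_irrefl (0 : ℝ) h1
  rw [this]
  exact (convex_halfSpace_re_gt 0).inter convex_Ray

theorem sqrt_sq' (a : ℂ) : sqrt a ^ 2 = a := cpow_ofNat_inv_pow a 2

theorem contAt_sqrt {z : ℂ} (hz : z ∈ slitPlane) : ContinuousAt sqrt z :=
  continuousAt_sqrt (hz.imp le_of_lt id)

/-- Ratio of square roots of `p - w` and `q - w` along the segment from `q` to `p`. -/
noncomputable def rt (p q w : ℂ) : ℂ := sqrt ((p - w) / (q - w))

theorem rt_sq (p q w : ℂ) : rt p q w ^ 2 = (p - w) / (q - w) := sqrt_sq' _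

theorem rt_self {q w : ℂ} (h : q ≠ w) : rt q q w = 1 := by
  rw [rt, div_self (sub_ne_zero.2 h), sqrt_one]

theorem mul_rt_sq {a p q w : ℂ} (h : q ≠ w) (ha : a ^ 2 = q - w) : (a * rt p q w) ^ 2 = p - w := by
  rw [mul_pow, rt_sq, ha, mul_div_cancel₀ _ (sub_ne_zero.2 h)]

theorem mul_rt_sq' {a p q w : ℂ} (h : q ≠ w) (ha : a ^ 2 = w - q) :
    (a * rt p q w) ^ 2 = w - p := by
  have := sub_ne_zero.2 h
  rw [mul_pow, rt_sq, ha]
  field_simp
  ring

theorem ratio_slit {p q w : ℂ} (h : w ∉ segment ℝ p q) : (p - w) / (q - w) ∈ slitPlane := by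
  have hq : q - w ≠ 0 := sub_ne_zero.2 fun e => h (e ▸ right_mem_segment ℝ p q)
  by_contra hc
  rw [mem_slitPlane_iff, not_or, not_lt, not_not] at hc
  set r : ℝ := -((p - w) / (q - w)).re with hr
  have hr0 : 0 ≤ r := by linarith [hc.1]
  have e : (p - w) / (q - w) = -(r : ℂ) := Complex.ext (by simp [hr]) (by simp [hc.2])
  rw [div_eq_iff hq] at e
  have h1 : (1 + r : ℝ) ≠ 0 := by positivity
  have h2 : (1 + r : ℂ) ≠ 0 := by exact_mod_cast h1
  refine h ⟨1 / (1 + r), r / (1 + r), by positivity, by positivity, by field_simp, ?_⟩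
  simp only [real_smul]
  push_cast
  field_simp
  linear_combination e

theorem tendsto_rt {α : Type*} {l : Filter α} {p q w : α → ℂ} {p₀ q₀ w₀ : ℂ}
    (hp : Tendsto p l (𝓝 p₀)) (hq : Tendsto q l (𝓝 q₀)) (hw : Tendsto w l (𝓝 w₀))
    (h : w₀ ∉ segment ℝ p₀ q₀) :
    Tendsto (fun a => rt (p a) (q a) (w a)) l (𝓝 (rt p₀ q₀ w₀)) := by
  have hq' : q₀ - w₀ ≠ 0 := sub_ne_zero.2 fun e => h (e ▸ right_mem_segment ℝ p₀ q₀)
  exact (contAt_sqrt (ratio_slit h)).tendsto.comp ((hp.sub hw).div (hq.sub hw) hq')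

theorem tendsto_rt_one {α : Type*} {l : Filter α} {p q w : α → ℂ} {q₀ w₀ : ℂ}
    (hp : Tendsto p l (𝓝 q₀)) (hq : Tendsto q l (𝓝 q₀)) (hw : Tendsto w l (𝓝 w₀))
    (h : q₀ ≠ w₀) : Tendsto (fun a => rt (p a) (q a) (w a)) l (𝓝 1) := by
  rw [← rt_self h]
  exact tendsto_rt hp hq hw (by simpa using h.symm)

theorem sq_conn {α : Type*} [TopologicalSpace α] {S : Set α} (hS : IsPreconnected S)
    {f g : α → ℂ} (hf : ContinuousOn f S) (hg : ContinuousOn g S)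
    (h : ∀ x ∈ S, f x ^ 2 = g x ^ 2) (h0 : ∀ x ∈ S, g x ≠ 0) {y : α} (hy : y ∈ S)
    (e : f y = g y) : ∀ x ∈ S, f x = g x :=
  hS.eq_of_sq_eq hf hg h (fun {x} hx => h0 x hx) hy e

theorem sq_ev {α : Type*} {l : Filter α} {f g : α → ℂ} {a : ℂ} (hf : Tendsto f l (𝓝 a))
    (hg : Tendsto g l (𝓝 a)) (ha : a ≠ 0) (h : ∀ᶠ x in l, f x ^ 2 = g x ^ 2) :
    ∀ᶠ x in l, f x = g x := by
  have h1 : ∀ᶠ x in l, f x + g x ≠ 0 :=
    (hf.add hg).eventually_ne (by rwa [← two_mul, mul_ne_zero_iff_left two_ne_zero])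
  filter_upwards [h, h1] with x h2 h3
  rcases eq_or_eq_neg_of_sq_eq_sq _ _ h2 with h4 | h4
  · exact h4
  · exact absurd (by rw [h4, neg_add_cancel]) h3

theorem ne_zero_of_sq {a x w : ℂ} (h : a ^ 2 = x - w) (hx : x ≠ w) : a ≠ 0 := by
  rintro rfl
  exact hx (sub_eq_zero.1 (by simpa using h.symm))

theorem ne_neg_self {a : ℂ} (h : a ≠ 0) : a ≠ -a := fun e =>
  h (by linear_combination e / 2)

def IsRoot (A : Set ℂ) (w : ℂ) (f : ℂ → ℂ) : Prop :=
  ContinuousOn f A ∧ ∀ x ∈ A, f x ^ 2 = x - w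

def Root (A : Set ℂ) (w : ℂ) : Prop := ∃ f, IsRoot A w f

theorem IsRoot.mono {A B : Set ℂ} {w : ℂ} {f : ℂ → ℂ} (h : IsRoot A w f) (hB : B ⊆ A) :
    IsRoot B w f := ⟨h.1.mono hB, fun x hx => h.2 x (hB hx)⟩

theorem IsRoot.neg {A : Set ℂ} {w : ℂ} {f : ℂ → ℂ} (h : IsRoot A w f) :
    IsRoot A w (fun x => -f x) := ⟨h.1.neg, fun x hx => by rw [neg_sq, h.2 x hx]⟩

theorem IsRoot.ne {A : Set ℂ} {w : ℂ} {f : ℂ → ℂ} (h : IsRoot A w f) (hw : w ∉ A) {x : ℂ}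
    (hx : x ∈ A) : f x ≠ 0 := ne_zero_of_sq (h.2 x hx) fun e => hw (e ▸ hx)

theorem IsRoot.eq {A : Set ℂ} {w : ℂ} {f g : ℂ → ℂ} (hA : IsPreconnected A) (hw : w ∉ A)
    (hf : IsRoot A w f) (hg : IsRoot A w g) {y : ℂ} (hy : y ∈ A) (e : f y = g y) :
    ∀ x ∈ A, f x = g x :=
  sq_conn hA hf.1 hg.1 (fun x hx => by rw [hf.2 x hx, hg.2 x hx]) (fun _ hx => hg.ne hw hx) hy e

theorem Root.mono {A B : Set ℂ} {w : ℂ} (h : Root A w) (hB : B ⊆ A) : Root B w :=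
  h.imp fun _ hf => hf.mono hB

theorem root_union {A B : Set ℂ} {w : ℂ} (hA : IsClosed A) (hB : IsClosed B)
    (hp : IsPreconnected (A ∩ B)) (hw : w ∉ A) (h1 : Root A w) (h2 : Root B w) :
    Root (A ∪ B) w := by
  have key : ∀ f g : ℂ → ℂ, IsRoot A w f → IsRoot B w g → EqOn f g (A ∩ B) → Root (A ∪ B) w := by
    intro f g hf hg e
    obtain ⟨h, a1, a2, a3⟩ := glue hA hB hf.1 hg.1 fun x hx hx' => e ⟨hx, hx'⟩
    refine ⟨h, a1, ?_⟩
    rintro x (hx | hx)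
    · rw [a2 hx, hf.2 x hx]
    · rw [a3 hx, hg.2 x hx]
  obtain ⟨f, hf⟩ := h1
  obtain ⟨g, hg⟩ := h2
  rcases hp.eq_or_eq_neg_of_sq_eq (hf.1.mono inter_subset_left) (hg.1.mono inter_subset_right)
    (fun x hx => by simp only [Pi.pow_apply, hf.2 x hx.1, hg.2 x hx.2])
    (fun {x} hx => ne_zero_of_sq (hg.2 x hx.2) fun e => hw (e ▸ hx.1)) with h | h
  · exact key f g hf hg h
  · exact key f _ hf hg.neg h

theorem isRoot_segment {p q w a : ℂ} (h : w ∉ segment ℝ p q) (ha : a ^ 2 = q - w) :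
    IsRoot (segment ℝ p q) w (fun z => a * rt z q w) := by
  have hq : q ≠ w := fun e => h (e ▸ right_mem_segment ℝ p q)
  refine ⟨fun z hz => ContinuousAt.continuousWithinAt ?_, fun z _ => mul_rt_sq hq ha⟩
  exact tendsto_const_nhds.mul (tendsto_rt tendsto_id tendsto_const_nhds tendsto_const_nhds
    fun h' => h ((convex_segment p q).segment_subset hz (right_mem_segment ℝ p q) h'))

theorem no_root_sphere (v : ℂ) {r : ℝ} (hr : 0 < r) : ¬ Root (sphere v r) v := by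
  rintro ⟨f, hf⟩
  have hS : IsPreconnected (sphere v r) :=
    isPreconnected_sphere (by rw [rank_real_complex]; exact Nat.one_lt_ofNat) v r
  have hv : v ∉ sphere v r := by simpa using hr.ne
  have hm : ∀ x ∈ sphere v r, 2 * v - x ∈ sphere v r := by
    intro x hx
    rw [mem_sphere_iff_norm] at hx ⊢
    rw [show 2 * v - x - v = -(x - v) by ring, norm_neg, hx]
  have hg : IsRoot (sphere v r) v (fun x => I * f (2 * v - x)) := by
    refine ⟨continuousOn_const.mul (hf.1.comp (by fun_prop) hm), fun x hx => ?_⟩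
    rw [mul_pow, hf.2 _ (hm x hx), I_sq]
    ring
  obtain ⟨y, hy⟩ : (sphere v r).Nonempty := NormedSpace.sphere_nonempty.2 hr.le
  have e : 2 * v - (2 * v - y) = y := by ring
  rcases eq_or_eq_neg_of_sq_eq_sq _ _ ((hf.2 y hy).trans (hg.2 y hy).symm) with h | h
  · have h1 := hf.eq hS hv hg hy h _ (hm y hy)
    simp only [e] at h h1
    rw [h1, ← mul_assoc, I_mul_I, neg_one_mul] at h
    exact ne_neg_self (hf.ne hv hy) h
  · have h1 := hf.eq hS hv hg.neg hy h _ (hm y hy)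
    simp only [e] at h h1
    rw [h1, mul_neg, neg_neg, ← mul_assoc, I_mul_I, neg_one_mul] at h
    exact ne_neg_self (hf.ne hv hy) h

theorem ev_segment {G : Set ℂ} (hG : IsClosed G) {y : ℂ} (hy : y ∉ G) {α : Type*} {l : Filter α}
    {p q : α → ℂ} (hp : Tendsto p l (𝓝 y)) (hq : Tendsto q l (𝓝 y)) :
    ∀ᶠ a in l, ∀ z ∈ segment ℝ (p a) (q a), z ∉ G := by
  obtain ⟨ε, hε, h⟩ := Metric.isOpen_iff.1 hG.isOpen_compl y hy
  filter_upwards [hp (ball_mem_nhds y hε), hq (ball_mem_nhds y hε)] with a h1 h2 z hz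
  exact h ((convex_ball y ε).segment_subset h1 h2 hz)

theorem pert {J : Set ℂ} (hJ : IsClosed J) {y : ℂ} (hy : y ∉ J) {f : ℂ → ℂ}
    (hf : IsRoot J y f) : ∀ᶠ w in 𝓝 y, IsRoot J w (fun z => f z * rt w y z) := by
  filter_upwards [ev_segment hJ hy tendsto_id tendsto_const_nhds] with w hw
  refine ⟨hf.1.mul fun z hz => ContinuousAt.continuousWithinAt ?_, fun z hz =>
    mul_rt_sq' (fun e => hy (e ▸ hz)) (hf.2 z hz)⟩
  exact tendsto_rt tendsto_const_nhds tendsto_const_nhds tendsto_id fun h => hw z h hz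

open Classical in
/-- The root of `x - w` on `A`, normalised at the origin. -/
noncomputable def F (A : Set ℂ) (w : ℂ) : ℂ → ℂ :=
  if h : ∃ f, IsRoot A w f ∧ f 0 = sqrt (-w) then h.choose else 0

theorem F_spec {A : Set ℂ} {w : ℂ} (h0 : (0 : ℂ) ∈ A) (h : Root A w) :
    IsRoot A w (F A w) ∧ F A w 0 = sqrt (-w) := by
  have : ∃ f, IsRoot A w f ∧ f 0 = sqrt (-w) := by
    obtain ⟨f, hf⟩ := h
    rcases eq_or_eq_neg_of_sq_eq_sq (f 0) (sqrt (-w))
      (by rw [hf.2 0 h0, sqrt_sq', zero_sub]) with h | h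
    · exact ⟨f, hf, h⟩
    · exact ⟨_, hf.neg, by simp [h]⟩
  rw [F, dif_pos this]
  exact this.choose_spec

theorem F_eq {A : Set ℂ} {w : ℂ} (hA : IsPreconnected A) (h0 : (0 : ℂ) ∈ A) (hw : w ∉ A)
    {f : ℂ → ℂ} (hf : IsRoot A w f) (e : f 0 = sqrt (-w)) : ∀ x ∈ A, F A w x = f x :=
  (F_spec h0 ⟨f, hf⟩).1.eq hA hw hf h0 ((F_spec h0 ⟨f, hf⟩).2.trans e.symm)

theorem F_mono {A B : Set ℂ} {w : ℂ} (hA : IsPreconnected A) (h0 : (0 : ℂ) ∈ A) (hw : w ∉ A)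
    (hB : A ⊆ B) (h : Root B w) : ∀ x ∈ A, F A w x = F B w x :=
  F_eq hA h0 hw ((F_spec (hB h0) h).1.mono hB) (F_spec (hB h0) h).2

/-- A continuum on which every `x - w` has a continuous root. -/
structure Tame (A : Set ℂ) : Prop where
  cpt : IsCompact A
  conn : IsPreconnected A
  root : ∀ w ∉ A, Root A w

theorem Tame.union {A B : Set ℂ} (hA : Tame A) (hB : Tame B) {b : ℂ} (h1 : b ∈ A) (h2 : b ∈ B)
    (h : A ∩ B ⊆ {b}) : Tame (A ∪ B) :=
  ⟨hA.cpt.union hB.cpt, hA.conn.union b h1 h2 hB.conn, fun w hw =>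
    root_union hA.cpt.isClosed hB.cpt.isClosed (subsingleton_singleton.anti h).isPreconnected
      (fun e => hw (Or.inl e)) (hA.root w fun e => hw (Or.inl e)) (hB.root w fun e => hw (Or.inr e))⟩

theorem tame_segment (p q : ℂ) : Tame (segment ℝ p q) :=
  ⟨by rw [segment_eq_image]; exact isCompact_Icc.image (by fun_prop),
    (convex_segment p q).isPreconnected, fun w hw => ⟨_, isRoot_segment hw (sqrt_sq' _)⟩⟩

theorem Tame.F_root {A : Set ℂ} (hA : Tame A) (h0 : (0 : ℂ) ∈ A) {w : ℂ} (hw : w ∉ A) :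
    IsRoot A w (F A w) := (F_spec h0 (hA.root w hw)).1

theorem Tame.F_cont {A : Set ℂ} (hA : Tame A) (h0 : (0 : ℂ) ∈ A) {y : ℂ} (hy : y ∉ A)
    (hR : y ∉ Ray) {t : ℂ} (ht : t ∈ A) : ContinuousAt (fun w => F A w t) y := by
  obtain ⟨h1, h2⟩ := F_spec h0 (hA.root y hy)
  have hy0 : y ≠ 0 := fun e => hy (e ▸ h0)
  have lim : ∀ z ∈ A, Tendsto (fun w => F A y z * rt w y z) (𝓝 y) (𝓝 (F A y z)) := by
    intro z hz
    simpa using (tendsto_const_nhds (x := F A y z)).mul (tendsto_rt_one tendsto_id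
      tendsto_const_nhds tendsto_const_nhds (fun e : y = z => hy (e ▸ hz)))
  have h3 := pert hA.cpt.isClosed hy h1
  have h4 : ∀ᶠ w in 𝓝 y, F A y 0 * rt w y 0 = sqrt (-w) := by
    refine sq_ev (lim 0 h0) ?_ (h1.ne hy h0) ?_
    · rw [h2]
      exact (contAt_sqrt (neg_mem_slit hR)).tendsto.comp (continuous_neg.tendsto y)
    · filter_upwards [h3] with w hw
      rw [hw.2 0 h0, sqrt_sq', zero_sub]
  refine (lim t ht).congr' ?_
  filter_upwards [h3, h4, hA.cpt.isClosed.isOpen_compl.mem_nhds hy] with w a1 a2 a3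
  exact (F_eq hA.conn h0 a3 a1 a2 t ht).symm

open Classical in
/-- Ratio of the values at `p` and `q` of a root of `x - w` on `J`. -/
noncomputable def dl (J : Set ℂ) (w p q : ℂ) : ℂ :=
  if h : Root J w then h.choose p / h.choose q else 0

theorem dl_spec {J : Set ℂ} {w p q : ℂ} (hJ : IsPreconnected J) (hw : w ∉ J) {f : ℂ → ℂ}
    (hf : IsRoot J w f) (hp : p ∈ J) (hq : q ∈ J) : f p = dl J w p q * f q := by
  have h : Root J w := ⟨f, hf⟩
  have hg : IsRoot J w h.choose := h.choose_spec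
  rw [dl, dif_pos h]
  have h1 := hg.ne hw hq
  rcases eq_or_eq_neg_of_sq_eq_sq _ _ ((hf.2 q hq).trans (hg.2 q hq).symm) with e | e
  · rw [hf.eq hJ hw hg hq e p hp, e]
    field_simp
  · rw [hf.eq hJ hw hg.neg hq e p hp, e]
    field_simp

theorem Tame.dl_sq {J : Set ℂ} (hJ : Tame J) {w p q : ℂ} (hw : w ∉ J) (hp : p ∈ J) (hq : q ∈ J) :
    dl J w p q ^ 2 * (q - w) = p - w := by
  obtain ⟨f, hf⟩ := hJ.root w hw
  rw [← hf.2 p hp, ← hf.2 q hq, dl_spec hJ.conn hw hf hp hq, mul_pow]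

theorem Tame.dl_ne {J : Set ℂ} (hJ : Tame J) {w p q : ℂ} (hw : w ∉ J) (hp : p ∈ J) (hq : q ∈ J) :
    dl J w p q ≠ 0 := by
  intro e
  have := hJ.dl_sq hw hp hq
  rw [e] at this
  exact hw ((sub_eq_zero.1 (by simpa using this.symm) : p = w) ▸ hp)

theorem Tame.dl_cont {J : Set ℂ} (hJ : Tame J) {y p q : ℂ} (hy : y ∉ J) (hp : p ∈ J)
    (hq : q ∈ J) : ContinuousAt (fun w => dl J w p q) y := by
  obtain ⟨f, hf⟩ := hJ.root y hy
  have lim : ∀ z ∈ J, Tendsto (fun w => f z * rt w y z) (𝓝 y) (𝓝 (f z)) := by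
    intro z hz
    simpa using (tendsto_const_nhds (x := f z)).mul (tendsto_rt_one tendsto_id
      tendsto_const_nhds tendsto_const_nhds (fun e : y = z => hy (e ▸ hz)))
  have h1 := (lim p hp).div (lim q hq) (hf.ne hy hq)
  have h2 : f p / f q = dl J y p q := by
    rw [dl_spec hJ.conn hy hf hp hq, mul_div_cancel_right₀ _ (hf.ne hy hq)]
  rw [h2] at h1
  refine h1.congr' ?_
  filter_upwards [pert hJ.cpt.isClosed hy hf, hJ.cpt.isClosed.isOpen_compl.mem_nhds hy]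
    with w a1 a2
  have := dl_spec hJ.conn a2 a1 hp hq
  simp only [Pi.div_apply] at this ⊢
  rw [this, mul_div_cancel_right₀ _ (a1.ne a2 hq)]

theorem anti {z₁ y₁ z₂ y₂ a b c : ℂ} (hd : Disjoint (segment ℝ z₁ y₁) (segment ℝ z₂ y₂))
    (ha : a ^ 2 = y₂ - z₁) (hb : b ^ 2 = y₁ - z₂) (hc : c ^ 2 = -1)
    (h : b * rt y₂ z₂ y₁ * rt z₁ y₁ y₂ = c * a) :
    a * rt y₁ z₁ y₂ * rt z₂ y₂ y₁ = -c * b := by
  have key : ∀ z₁ y₁ z₂ y₂ a : ℂ, Disjoint (segment ℝ z₁ y₁) (segment ℝ z₂ y₂) →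
      a ^ 2 = y₂ - z₁ → ∀ p ∈ segment ℝ z₁ y₁, ∀ q ∈ segment ℝ z₂ y₂,
        ContinuousAt (fun r : ℂ × ℂ => a * rt r.1 z₁ y₂ * rt r.2 y₂ r.1) (p, q) ∧
        (a * rt p z₁ y₂ * rt q y₂ p) ^ 2 = q - p := by
    intro z₁ y₁ z₂ y₂ a hd ha p hp q hq
    have d1 : ∀ u ∈ segment ℝ z₁ y₁, ∀ v ∈ segment ℝ z₂ y₂, u ≠ v := fun u hu v hv e =>
      Set.disjoint_left.1 hd hu (e ▸ hv)
    refine ⟨(tendsto_const_nhds.mul (tendsto_rt continuousAt_fst tendsto_const_nhds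
      tendsto_const_nhds fun h => ?_)).mul (tendsto_rt continuousAt_snd tendsto_const_nhds
      continuousAt_fst fun h => ?_), mul_rt_sq (d1 p hp _ (right_mem_segment ℝ _ _)).symm
        (mul_rt_sq' (d1 _ (left_mem_segment ℝ _ _) _ (right_mem_segment ℝ _ _)) ha)⟩
    · exact d1 _ ((convex_segment z₁ y₁).segment_subset hp (left_mem_segment ℝ _ _) h) _
        (right_mem_segment ℝ _ _) rfl
    · exact d1 _ hp _ ((convex_segment z₂ y₂).segment_subset hq (right_mem_segment ℝ _ _) h) rfl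
  have d1 : ∀ u ∈ segment ℝ z₁ y₁, ∀ v ∈ segment ℝ z₂ y₂, u ≠ v := fun u hu v hv e =>
    Set.disjoint_left.1 hd hu (e ▸ hv)
  have l1 := left_mem_segment ℝ z₁ y₁
  have r1 := right_mem_segment ℝ z₁ y₁
  have l2 := left_mem_segment ℝ z₂ y₂
  have r2 := right_mem_segment ℝ z₂ y₂
  have hc0 : c ≠ 0 := by
    rintro rfl
    simp at hc
  have := sq_conn (S := segment ℝ z₁ y₁ ×ˢ segment ℝ z₂ y₂)
    ((convex_segment _ _).isPreconnected.prod (convex_segment _ _).isPreconnected)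
    (f := fun r : ℂ × ℂ => b * rt r.2 z₂ y₁ * rt r.1 y₁ r.2)
    (g := fun r : ℂ × ℂ => c * (a * rt r.1 z₁ y₂ * rt r.2 y₂ r.1))
    (fun r hr => ((key _ _ _ _ b hd.symm hb r.2 hr.2 r.1 hr.1).1.comp
      (f := fun r : ℂ × ℂ => (r.2, r.1)) (by fun_prop)).continuousWithinAt)
    (fun r hr => (continuousAt_const.mul (key _ _ _ _ a hd ha r.1 hr.1 r.2 hr.2).1).continuousWithinAt)
    (fun r hr => by
      rw [(key _ _ _ _ b hd.symm hb r.2 hr.2 r.1 hr.1).2, mul_pow c,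
        (key _ _ _ _ a hd ha r.1 hr.1 r.2 hr.2).2, hc]
      ring)
    (fun r hr => mul_ne_zero hc0 (ne_zero_of_sq (key _ _ _ _ a hd ha r.1 hr.1 r.2 hr.2).2
      (d1 _ hr.1 _ hr.2).symm)) (y := (z₁, y₂)) ⟨l1, r2⟩ (by
      simp only [rt_self (d1 _ l1 _ r2), rt_self (d1 _ l1 _ r2).symm, mul_one]
      exact h) (y₁, z₂) ⟨r1, l2⟩
  simp only [rt_self (d1 _ r1 _ l2), rt_self (d1 _ r1 _ l2).symm, mul_one] at this
  rw [this]
  linear_combination (a * rt y₁ z₁ y₂ * rt z₂ y₂ y₁) * hc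

end Pool.Agent.Lib.MP_1126ca_gt
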