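import Mathlib

set_option autoImplicit false

open Set Topology Filter Function

namespace Pool.Agent.Lib.MP_1126ca_gt

variable {X : Type} [TopologicalSpace X]

omit [TopologicalSpace X] in
theorem directed_chain {𝒞 : Set (Set X)} (hc : IsChain (· ⊆ ·) 𝒞) :
    Directed (· ⊇ ·) (fun C : 𝒞 => (C : Set X)) := by
  intro C D
  rcases hc.total C.2 D.2 with h | h
  · exact ⟨C, Subset.rfl, h⟩
  · exact ⟨D, h, Subset.rfl⟩

theorem chain_subset_open [T2Space X] {𝒞 : Set (Set X)} (hne : 𝒞.Nonempty)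
    (hc : IsChain (· ⊆ ·) 𝒞) (hk : ∀ C ∈ 𝒞, IsCompact C) {U : Set X} (hU : IsOpen U)
    (h : ⋂₀ 𝒞 ⊆ U) : ∃ C ∈ 𝒞, C ⊆ U := by
  have : Nonempty 𝒞 := hne.to_subtype
  obtain ⟨C, hC⟩ := exists_subset_nhds_of_isCompact' (directed_chain hc)
    (fun C => hk C C.2) (fun C => (hk C C.2).isClosed) (U := U) (by
      intro x hx
      rw [← sInter_eq_iInter] at hx
      exact hU.mem_nhds (h hx))
  exact ⟨C, C.2, hC⟩

theorem chain_compact [T2Space X] {𝒞 : Set (Set X)} (hne : 𝒞.Nonempty)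
    (hk : ∀ C ∈ 𝒞, IsCompact C) : IsCompact (⋂₀ 𝒞) := by
  obtain ⟨C, hC⟩ := hne
  exact (hk C hC).of_isClosed_subset (isClosed_sInter fun D hD => (hk D hD).isClosed)
    (sInter_subset_of_mem hC)

theorem chain_preconnected [T2Space X] {𝒞 : Set (Set X)} (hne : 𝒞.Nonempty)
    (hc : IsChain (· ⊆ ·) 𝒞) (hk : ∀ C ∈ 𝒞, IsCompact C) (hp : ∀ C ∈ 𝒞, IsPreconnected C) :
    IsPreconnected (⋂₀ 𝒞) := by
  have hS := chain_compact hne hk
  rw [isPreconnected_iff_subset_of_disjoint_closed]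
  intro u v hu hv hs huv
  have hd : Disjoint (⋂₀ 𝒞 ∩ u) (⋂₀ 𝒞 ∩ v) := by
    rw [Set.disjoint_left]
    rintro x ⟨h1, h2⟩ ⟨-, h3⟩
    have : x ∈ ⋂₀ 𝒞 ∩ (u ∩ v) := ⟨h1, h2, h3⟩
    rw [huv] at this
    exact this
  obtain ⟨U, V, hU, hV, h1, h2, hUV⟩ :=
    SeparatedNhds.of_isCompact_isCompact (hS.inter_right hu) (hS.inter_right hv) hd
  obtain ⟨C, hC, hCs⟩ := chain_subset_open hne hc hk (hU.union hV) (by
    intro x hx
    rcases hs hx with h | h
    · exact Or.inl (h1 ⟨hx, h⟩)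
    · exact Or.inr (h2 ⟨hx, h⟩))
  rcases (hp C hC).subset_or_subset hU hV hUV hCs with h | h
  · left
    intro x hx
    rcases hs hx with h' | h'
    · exact h'
    · exact absurd (h2 ⟨hx, h'⟩) (Set.disjoint_left.1 hUV (h (hx C hC)))
  · right
    intro x hx
    rcases hs hx with h' | h'
    · exact absurd (h (hx C hC)) (Set.disjoint_left.1 hUV (h1 ⟨hx, h'⟩))
    · exact h'

theorem exists_minimal_bad [T2Space X] (Bad : Set X → Prop) {S : Set X} (hS : IsCompact S)
    (hSp : IsPreconnected S) (hB : Bad S)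
    (hch : ∀ 𝒞 : Set (Set X), 𝒞.Nonempty → IsChain (· ⊆ ·) 𝒞 → (∀ C ∈ 𝒞, IsCompact C) →
      (∀ C ∈ 𝒞, C ⊆ S) → (∀ C ∈ 𝒞, Bad C) → Bad (⋂₀ 𝒞)) :
    ∃ M, M ⊆ S ∧ IsCompact M ∧ IsPreconnected M ∧ Bad M ∧
      ∀ M', M' ⊆ M → IsCompact M' → IsPreconnected M' → Bad M' → M' = M := by
  obtain ⟨M, hMS, hM⟩ := zorn_superset_nonempty
    {C : Set X | IsCompact C ∧ IsPreconnected C ∧ C ⊆ S ∧ Bad C} (by
      intro 𝒞 h𝒞 hc hne
      have hk : ∀ C ∈ 𝒞, IsCompact C := fun C hC => (h𝒞 hC).1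
      obtain ⟨C₀, hC₀⟩ := id hne
      exact ⟨⋂₀ 𝒞, ⟨chain_compact hne hk, chain_preconnected hne hc hk fun C hC => (h𝒞 hC).2.1,
        (sInter_subset_of_mem hC₀).trans (h𝒞 hC₀).2.2.1,
        hch 𝒞 hne hc hk (fun C hC => (h𝒞 hC).2.2.1) fun C hC => (h𝒞 hC).2.2.2⟩,
        fun s hs => sInter_subset_of_mem hs⟩) S ⟨hS, hSp, Subset.rfl, hB⟩
  refine ⟨M, hMS, hM.1.1, hM.1.2.1, hM.1.2.2.2, fun M' h1 h2 h3 h4 => ?_⟩
  exact Subset.antisymm h1 (hM.2 ⟨h2, h3, h1.trans hMS, h4⟩ h1)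

/-- One half of a connected set that is cut at one point is connected. -/
theorem preconnected_of_cut {A B : Set X} {m : X} (hA : IsClosed A) (hB : IsClosed B)
    (hp : IsPreconnected (A ∪ B)) (hAB : A ∩ B ⊆ {m}) : IsPreconnected A := by
  rw [isPreconnected_iff_subset_of_disjoint_closed]
  have key : ∀ u v : Set X, IsClosed u → IsClosed v → A ⊆ u ∪ v → A ∩ (u ∩ v) = ∅ →
      (m ∈ A → m ∈ u) → A ⊆ u ∨ A ⊆ v := by
    intro u v hu hv hs huv hm
    have := (isPreconnected_iff_subset_of_disjoint_closed.1 hp) ((A ∩ u) ∪ B) (A ∩ v)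
      ((hA.inter hu).union hB) (hA.inter hv) (by
        rintro x (hx | hx)
        · rcases hs hx with h | h
          · exact Or.inl (Or.inl ⟨hx, h⟩)
          · exact Or.inr ⟨hx, h⟩
        · exact Or.inl (Or.inr hx)) (by
        rw [eq_empty_iff_forall_notMem]
        rintro x ⟨-, (⟨h1, h2⟩ | h1), h3, h4⟩
        · have : x ∈ A ∩ (u ∩ v) := ⟨h1, h2, h4⟩
          rw [huv] at this
          exact this
        · have h5 : x = m := hAB ⟨h3, h1⟩
          subst h5
          have : x ∈ A ∩ (u ∩ v) := ⟨h3, hm h3, h4⟩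
          rw [huv] at this
          exact this)
    rcases this with h | h
    · left
      intro x hx
      rcases h (Or.inl hx) with h' | h'
      · exact h'.2
      · have h5 : x = m := hAB ⟨hx, h'⟩
        subst h5
        exact hm hx
    · right
      exact fun x hx => (h (Or.inl hx)).2
  intro u v hu hv hs huv
  by_cases hm : m ∈ A → m ∈ u
  · exact key u v hu hv hs huv hm
  · push Not at hm
    have := key v u hv hu (by rwa [union_comm]) (by rwa [inter_comm v u])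
      (fun h => (hs h).resolve_left hm.2)
    exact this.symm

theorem compact_component [T2Space X] {W : Set X} (hW : IsCompact W) (b : X) :
    IsCompact (connectedComponentIn W b) := by
  by_cases hb : b ∈ W
  · have : CompactSpace W := isCompact_iff_compactSpace.1 hW
    rw [connectedComponentIn_eq_image hb]
    exact isClosed_connectedComponent.isCompact.image continuous_subtype_val
  · rw [connectedComponentIn_eq_empty hb]
    exact isCompact_empty

/-- Separation of a component from a closed set. -/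
theorem exists_split [T2Space X] {W G : Set X} (hW : IsCompact W) {b : X} (hb : b ∈ W)
    (hG : IsClosed G) (hd : Disjoint (connectedComponentIn W b) G) :
    ∃ P Q : Set X, IsCompact P ∧ IsCompact Q ∧ P ∪ Q = W ∧ Disjoint P Q ∧ b ∈ P ∧
      Disjoint P G := by
  have : CompactSpace W := isCompact_iff_compactSpace.1 hW
  let ι := {Z : Set W // IsClopen Z ∧ (⟨b, hb⟩ : W) ∈ Z}
  have : Nonempty ι := ⟨⟨univ, isClopen_univ, mem_univ _⟩⟩
  obtain ⟨Z, hZ⟩ := exists_subset_nhds_of_isCompact' (V := fun Z : ι => (Z : Set W))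
    (fun Z Z' => ⟨⟨Z.1 ∩ Z'.1, Z.2.1.inter Z'.2.1, Z.2.2, Z'.2.2⟩, inter_subset_left,
      inter_subset_right⟩) (fun Z => Z.2.1.isClosed.isCompact) (fun Z => Z.2.1.isClosed)
    (U := (Subtype.val ⁻¹' G)ᶜ) (by
      intro x hx
      rw [← connectedComponent_eq_iInter_isClopen] at hx
      refine (hG.preimage continuous_subtype_val).isOpen_compl.mem_nhds ?_
      intro hxG
      rw [connectedComponentIn_eq_image hb] at hd
      exact Set.disjoint_left.1 hd ⟨x, hx, rfl⟩ hxG)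
  refine ⟨Subtype.val '' Z.1, Subtype.val '' Z.1ᶜ,
    Z.2.1.isClosed.isCompact.image continuous_subtype_val,
    Z.2.1.compl.isClosed.isCompact.image continuous_subtype_val, ?_, ?_, ⟨_, Z.2.2, rfl⟩, ?_⟩
  · rw [← image_union, union_compl_self, image_univ, Subtype.range_coe]
  · exact (disjoint_image_iff Subtype.val_injective).2 disjoint_compl_right
  · rw [Set.disjoint_left]
    rintro _ ⟨x, hx, rfl⟩ hxG
    exact hZ hx hxG

theorem glue {Y : Type*} [TopologicalSpace Y] {P Q : Set X} (hP : IsClosed P) (hQ : IsClosed Q)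
    {f g : X → Y} (hf : ContinuousOn f P) (hg : ContinuousOn g Q)
    (hfg : ∀ x ∈ P, x ∈ Q → f x = g x) :
    ∃ h : X → Y, ContinuousOn h (P ∪ Q) ∧ EqOn h f P ∧ EqOn h g Q := by
  classical
  have h1 : EqOn (fun x => if x ∈ P then f x else g x) f P := fun x hx => if_pos hx
  have h2 : EqOn (fun x => if x ∈ P then f x else g x) g Q := by
    intro x hx
    by_cases h : x ∈ P
    · simp only [if_pos h, hfg x h hx]
    · simp only [if_neg h]
  exact ⟨_, (hf.congr h1).union_of_isClosed (hg.congr h2) hP hQ, h1, h2⟩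

theorem exists_extend [NormalSpace X] {Y : Type} [TopologicalSpace Y] [TietzeExtension.{0, 0} Y]
    {S : Set X} (hS : IsClosed S) {f : X → Y} (hf : ContinuousOn f S) :
    ∃ g : X → Y, Continuous g ∧ EqOn g f S := by
  obtain ⟨g, hg⟩ := ContinuousMap.exists_restrict_eq hS
    (⟨S.domRestrict f, continuousOn_iff_continuous_domRestrict.1 hf⟩ : C(S, Y))
  refine ⟨g, g.continuous, fun x hx => ?_⟩
  exact congrArg (fun F : C(S, Y) => F ⟨x, hx⟩) hg

end Pool.Agent.Lib.MP_1126ca_gt
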