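import Pool.Agent.Lib.MP_1126ca_gt.Order

set_option autoImplicit false

open Set Topology Filter Function Complex Metric

namespace Pool.Agent.Lib.MP_1126ca_gt

/-- The branch of the root of `t - w` that is cut along the arc to `t` and the ray. -/
noncomputable def sr (K : Set ℂ) (w t : ℂ) : ℂ := F (Ar K t) w t

noncomputable def Psi (K : Set ℂ) (w : ℂ) : ℂ × (ℂ → ℂ) := (w, K.indicator (F K w))

def ZS (K : Set ℂ) : Set (ℂ × (ℂ → ℂ)) := {ν | ν.1 ∈ K ∧ ν ∈ closure (Psi K '' (K ∪ Ray)ᶜ)}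

/-- The dendroid cut open along all its arcs. -/
abbrev Z (K : Set ℂ) : Type := ZS K

variable {K : Set ℂ}

def pj (ν : Z K) : ℂ := ν.1.1

def sg (ν : Z K) (t : ℂ) : ℂ := ν.1.2 t

noncomputable def fl (ν : Z K) : Filter ℂ := comap (Psi K) (𝓝 ν.1) ⊓ 𝓟 (K ∪ Ray)ᶜ

theorem pj_mem (ν : Z K) : pj ν ∈ K := ν.2.1

theorem pj_cont : Continuous (pj : Z K → ℂ) := continuous_fst.comp continuous_subtype_val

theorem sg_cont (t : ℂ) : Continuous fun ν : Z K => sg ν t :=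
  (continuous_apply t).comp (continuous_snd.comp continuous_subtype_val)

instance fl_neBot (ν : Z K) : (fl ν).NeBot := by
  have h := mem_closure_iff_clusterPt.1 ν.2.2
  rw [ClusterPt, ← map_principal, ← Filter.push_pull', map_neBot_iff] at h
  exact h

theorem fl_Psi (ν : Z K) : Tendsto (Psi K) (fl ν) (𝓝 ν.1) := tendsto_comap.mono_left inf_le_left

theorem fl_le (ν : Z K) : Tendsto id (fl ν) (𝓝 (pj ν)) :=
  (continuous_fst.tendsto _).comp (fl_Psi ν)

theorem fl_V (ν : Z K) : ∀ᶠ w in fl ν, w ∉ K ∪ Ray :=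
  mem_inf_of_right (mem_principal_self _)

theorem fl_ind (ν : Z K) (t : ℂ) :
    Tendsto (fun w => K.indicator (F K w) t) (fl ν) (𝓝 (sg ν t)) :=
  (((continuous_apply t).comp continuous_snd).tendsto _).comp (fl_Psi ν)

theorem fl_sg (ν : Z K) {t : ℂ} (ht : t ∈ K) : Tendsto (fun w => F K w t) (fl ν) (𝓝 (sg ν t)) := by
  simpa only [indicator_of_mem ht] using fl_ind ν t

theorem sg_out (ν : Z K) {t : ℂ} (ht : t ∉ K) : sg ν t = 0 := by
  have := fl_ind ν t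
  simp only [indicator_of_notMem ht] at this
  exact tendsto_nhds_unique this tendsto_const_nhds

theorem Z_ext {ν μ : Z K} (h1 : pj ν = pj μ) (h2 : ∀ t ∈ K, sg ν t = sg μ t) : ν = μ := by
  refine Subtype.ext (Prod.ext h1 (funext fun t => ?_))
  by_cases ht : t ∈ K
  · exact h2 t ht
  · exact (sg_out ν ht).trans (sg_out μ ht).symm

theorem Z_tendsto {α : Type*} {l : Filter α} {m : α → Z K} {ν : Z K}
    (h1 : Tendsto (fun a => pj (m a)) l (𝓝 (pj ν)))
    (h2 : ∀ t ∈ K, Tendsto (fun a => sg (m a) t) l (𝓝 (sg ν t))) : Tendsto m l (𝓝 ν) := by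
  refine tendsto_subtype_rng.2 (h1.prodMk_nhds (tendsto_pi_nhds.2 fun t => ?_))
  by_cases ht : t ∈ K
  · exact h2 t ht
  · change Tendsto (fun a => sg (m a) t) l (𝓝 (sg ν t))
    simp only [sg_out _ ht]
    exact tendsto_const_nhds

theorem PD.FK (hK : PD K) {w : ℂ} (hw : w ∉ K ∪ Ray) : IsRoot K w (F K w) :=
  (hK.tame hK.self).F_root hK.zero fun e => hw (Or.inl e)

theorem PD.F_sub (hK : PD K) {A B : Set ℂ} (hA : Cont K A) (hB : Cont K B) (hAB : A ⊆ B)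
    (h0 : (0 : ℂ) ∈ A) {w : ℂ} (hw : w ∉ B) {t : ℂ} (ht : t ∈ A) : F A w t = F B w t :=
  F_mono hA.conn h0 (fun e => hw (hAB e)) hAB ((hK.tame hB).root w hw) t ht

theorem PD.sr_eq (hK : PD K) {A : Set ℂ} (hA : Cont K A) (h0 : (0 : ℂ) ∈ A) {w : ℂ}
    (hw : w ∉ A) {t : ℂ} (ht : t ∈ A) : sr K w t = F A w t :=
  hK.F_sub (hK.Ar_cont (hA.sub ht)) hA (Ar_min hA h0 ht) (zero_mem_Ar t) hw (self_mem_Ar t)

theorem PD.sr_sq (hK : PD K) {w t : ℂ} (ht : t ∈ K) (hw : w ∉ Ar K t) : sr K w t ^ 2 = t - w :=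
  ((hK.tame (hK.Ar_cont ht)).F_root (zero_mem_Ar t) hw).2 t (self_mem_Ar t)

theorem PD.sr_cont (hK : PD K) {y t : ℂ} (ht : t ∈ K) (hy : y ∉ Ar K t) (hR : y ∉ Ray) :
    ContinuousAt (fun w => sr K w t) y :=
  (hK.tame (hK.Ar_cont ht)).F_cont (zero_mem_Ar t) hy hR (self_mem_Ar t)

theorem PD.fl_sr (hK : PD K) (ν : Z K) {t : ℂ} (ht : t ∈ K) :
    Tendsto (fun w => sr K w t) (fl ν) (𝓝 (sg ν t)) := by
  refine (fl_sg ν ht).congr' ?_
  filter_upwards [fl_V ν] with w hw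
  exact (hK.sr_eq hK.self hK.zero (fun e => hw (Or.inl e)) ht).symm

theorem PD.sg_sq (hK : PD K) (ν : Z K) {t : ℂ} (ht : t ∈ K) : sg ν t ^ 2 = t - pj ν := by
  refine tendsto_nhds_unique ((fl_sg ν ht).pow 2) ((tendsto_const_nhds.sub (fl_le ν)).congr' ?_)
  filter_upwards [fl_V ν] with w hw
  exact ((hK.FK hw).2 t ht).symm

theorem PD.not_ray (hK : PD K) {y : ℂ} (hy : y ∈ K) (h0 : y ≠ 0) : y ∉ Ray :=
  fun e => h0 (hK.ray ⟨hy, e⟩)

theorem PD.sg_eq (hK : PD K) (ν : Z K) {t : ℂ} (ht : t ∈ K) (hy : pj ν ∉ Ar K t) :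
    sg ν t = sr K (pj ν) t :=
  tendsto_nhds_unique (hK.fl_sr ν ht) ((hK.sr_cont ht hy (hK.not_ray (pj_mem ν)
    fun e => hy (e ▸ zero_mem_Ar t))).tendsto.comp (fl_le ν))

theorem PD.dir (hK : PD K) (ν : Z K) {J : Set ℂ} (hJ : Cont K J) {p q : ℂ} (hp : p ∈ J)
    (hq : q ∈ J) (hy : pj ν ∉ J) : sg ν p = dl J (pj ν) p q * sg ν q := by
  refine tendsto_nhds_unique (fl_sg ν (hJ.sub hp)) (((((hK.tame hJ).dl_cont hy hp
    hq).tendsto.comp (fl_le ν)).mul (fl_sg ν (hJ.sub hq))).congr' ?_)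
  filter_upwards [fl_V ν] with w hw
  exact (dl_spec hJ.conn (fun e => hw (Or.inl (hJ.sub e))) ((hK.FK hw).mono hJ.sub) hp hq).symm

theorem norm_le_of_sq {a b : ℂ} {M : ℝ} (h : a ^ 2 = b) (hb : ‖b‖ ≤ M) : ‖a‖ ≤ 1 + M := by
  rw [← h, norm_pow] at hb
  nlinarith [norm_nonneg a]

theorem compact_box (M : ℝ) :
    IsCompact (closedBall (0 : ℂ) M ×ˢ univ.pi fun t : ℂ => closedBall (0 : ℂ) (1 + (‖t‖ + M))) :=
  (isCompact_closedBall _ _).prod (isCompact_univ_pi fun _ => isCompact_closedBall _ _)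

theorem PD.compactZ (hK : PD K) : CompactSpace (Z K) := by
  obtain ⟨M, hM⟩ := hK.cpt.isBounded.exists_norm_le
  have hM0 : 0 ≤ M := by simpa using hM 0 hK.zero
  refine isCompact_iff_compactSpace.1 ((compact_box M).of_isClosed_subset
    ((hK.cpt.isClosed.preimage continuous_fst).inter isClosed_closure) fun ν hν =>
      ⟨mem_closedBall_zero_iff.2 (hM _ hν.1), fun t _ => mem_closedBall_zero_iff.2 ?_⟩)
  by_cases ht : t ∈ K
  · exact norm_le_of_sq (hK.sg_sq ⟨ν, hν⟩ ht) ((norm_sub_le _ _).trans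
      (add_le_add_right (hM _ hν.1) _))
  · rw [show ν.2 t = 0 from sg_out ⟨ν, hν⟩ ht, norm_zero]
    positivity

theorem PD.exists_cluster (hK : PD K) {l : Filter ℂ} [l.NeBot] {y : ℂ} (hy : y ∈ K)
    (h1 : l ≤ 𝓝 y) (h2 : ∀ᶠ w in l, w ∉ K ∪ Ray) : ∃ ν : Z K, pj ν = y ∧
      ∀ t ∈ K, ∀ a, Tendsto (fun w => F K w t) l (𝓝 a) → sg ν t = a := by
  obtain ⟨U, hU⟩ := Ultrafilter.exists_le l
  obtain ⟨ν, -, hν⟩ := (compact_box (‖y‖ + 1)).ultrafilter_le_nhds (U.map (Psi K)) (by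
    rw [le_principal_iff]
    change ∀ᶠ w in U, Psi K w ∈ _
    filter_upwards [hU h2, hU (h1 (ball_mem_nhds y one_pos))] with w a1 a2
    have a3 : ‖w‖ ≤ ‖y‖ + 1 := by
      rw [mem_ball_iff_norm] at a2
      linarith [norm_sub_norm_le w y]
    refine ⟨mem_closedBall_zero_iff.2 a3, fun t _ => mem_closedBall_zero_iff.2 ?_⟩
    by_cases ht : t ∈ K
    · simp only [Psi, indicator_of_mem ht]
      exact norm_le_of_sq ((hK.FK a1).2 t ht) ((norm_sub_le _ _).trans (add_le_add_right a3 _))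
    · simp only [Psi, indicator_of_notMem ht, norm_zero]
      positivity)
  have hν' : Tendsto (Psi K) U (𝓝 ν) := hν
  have e1 : ν.1 = y := tendsto_nhds_unique ((continuous_fst.tendsto _).comp hν') (hU.trans h1)
  refine ⟨⟨ν, e1 ▸ hy, mem_closure_of_tendsto hν' ?_⟩, e1, fun t ht a ha => ?_⟩
  · filter_upwards [hU h2] with w hw using mem_image_of_mem _ hw
  · have := (((continuous_apply t).comp continuous_snd).tendsto _).comp hν'
    simp only [Function.comp_def, Psi, indicator_of_mem ht] at this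
    exact tendsto_nhds_unique this (ha.mono_left hU)

theorem PD.range_pj (hK : PD K) : range (pj : Z K → ℂ) = K := by
  refine Subset.antisymm (range_subset_iff.2 pj_mem) fun y hy => ?_
  have : (𝓝[(K ∪ Ray)ᶜ] y).NeBot := mem_closure_iff_nhdsWithin_neBot.1 (hK.dense y)
  obtain ⟨ν, h, -⟩ := hK.exists_cluster (l := 𝓝[(K ∪ Ray)ᶜ] y) hy nhdsWithin_le_nhds
    self_mem_nhdsWithin
  exact ⟨ν, h⟩

theorem PD.both (hK : PD K) {t v a : ℂ} (ht : t ∈ K) (hv : v ∈ Ar K t) (h0 : v ≠ 0)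
    (hvt : v ≠ t) (ha : a ^ 2 = t - v) : ∃ κ : Z K, pj κ = v ∧ sg κ t = a := by
  have hvK := hK.Ar_sub ht hv
  have h1 := two_sided (hK.tame (hK.Ar_cont hvK)) (hK.tame (hK.Up_cont ht hv)) (zero_mem_Ar v)
    (self_mem_Ar v) (left_mem_Up hv) (hK.inter_Up hvK) (right_mem_Up hv) hvt.symm
    (hK.not_ray hvK h0) ha
  rw [hK.union_Up ht hv] at h1
  have h2 : ∃ᶠ w in 𝓝 v, w ∉ K ∪ Ray ∧ F K w t = a * rt w v t := by
    refine frequently_frequently_nhds.1 ?_
    refine (h1.and_eventually (ev_segment isClosed_singleton hvt tendsto_id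
      tendsto_const_nhds)).mono ?_
    rintro w ⟨⟨a1, a2, a3⟩, a4⟩
    have a5 : t ∉ segment ℝ w v := fun e => a4 t e rfl
    have a6 : ∀ᶠ z in 𝓝 w, sr K z t = a * rt z v t := by
      refine sq_ev (a := sr K w t) (hK.sr_cont ht a1 a2) ?_ (ne_zero_of_sq (hK.sr_sq ht a1)
        fun e => a1 (e ▸ self_mem_Ar t)) ?_
      · rw [show sr K w t = a * rt w v t from a3]
        exact tendsto_const_nhds.mul (tendsto_rt tendsto_id tendsto_const_nhds
          tendsto_const_nhds a5)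
      · filter_upwards [(hK.Ar_cont ht).cpt.isClosed.isOpen_compl.mem_nhds a1] with z hz
        rw [hK.sr_sq ht hz, mul_rt_sq' hvt ha]
    refine ((mem_closure_iff_frequently.1 (hK.dense w)).and_eventually a6).mono ?_
    rintro z ⟨b1, b2⟩
    exact ⟨b1, (hK.sr_eq hK.self hK.zero (fun e => b1 (Or.inl e)) ht).symm.trans b2⟩
  have := frequently_iff_neBot.1 h2
  have h3 : ∀ᶠ w in 𝓝 v ⊓ 𝓟 {w | w ∉ K ∪ Ray ∧ F K w t = a * rt w v t},
      w ∉ K ∪ Ray ∧ F K w t = a * rt w v t := mem_inf_of_right (mem_principal_self _)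
  obtain ⟨κ, b1, b2⟩ := hK.exists_cluster hvK inf_le_left (h3.mono fun w h => h.1)
  refine ⟨κ, b1, b2 t ht a (Tendsto.congr' (h3.mono fun w h => h.2.symm) ?_)⟩
  simpa using ((tendsto_const_nhds (x := a)).mul (tendsto_rt_one tendsto_id tendsto_const_nhds
    tendsto_const_nhds hvt)).mono_left inf_le_left

theorem PD.fibre (hK : PD K) {M : Set (Z K)} (hM : IsPreconnected M)
    (h : (pj '' M).Subsingleton) : M.Subsingleton := by
  intro ν hν μ hμ
  have e : ∀ κ ∈ M, pj κ = pj μ := fun κ hκ => h ⟨κ, hκ, rfl⟩ ⟨μ, hμ, rfl⟩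
  refine Z_ext (e ν hν) fun t ht => ?_
  by_cases h0 : sg μ t = 0
  · have := hK.sg_sq ν ht
    rw [e ν hν, ← hK.sg_sq μ ht, h0] at this
    rw [h0]
    simpa using this
  · exact sq_conn hM (sg_cont t).continuousOn continuousOn_const
      (fun κ hκ => by rw [hK.sg_sq κ ht, hK.sg_sq μ ht, e κ hκ]) (fun _ _ => h0) hμ rfl ν hν

theorem cont_pj {N : Set (Z K)} (hN : IsCompact N) (hp : IsPreconnected N) : Cont K (pj '' N) :=
  ⟨image_subset_iff.2 fun ν _ => pj_mem ν, hN.image pj_cont, hp.image _ pj_cont.continuousOn⟩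

theorem PD.block (hK : PD K) {N : Set (Z K)} (hN : IsCompact N) (hp : IsPreconnected N) {t : ℂ}
    (ht : t ∈ K) (h : t ∉ pj '' N) :
    ∃ r : ℂ → ℂ, ContinuousOn r (pj '' N) ∧ ∀ ν ∈ N, sg ν t = r (pj ν) := by
  obtain ⟨f, hf⟩ := (hK.tame (cont_pj hN hp)).root t h
  rcases hp.eq_or_eq_neg_of_sq_eq (f := fun ν => sg ν t) (g := fun ν => I * f (pj ν))
    (sg_cont t).continuousOn
    (continuousOn_const.mul (hf.1.comp pj_cont.continuousOn (mapsTo_image _ _)))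
    (fun ν hν => by
      simp only [Pi.pow_apply]
      rw [hK.sg_sq ν ht, mul_pow, hf.2 _ ⟨ν, hν, rfl⟩, I_sq]
      ring)
    (fun {ν} hν => mul_ne_zero I_ne_zero (hf.ne h ⟨ν, hν, rfl⟩)) with e | e
  · exact ⟨fun y => I * f y, continuousOn_const.mul hf.1, e⟩
  · exact ⟨fun y => -(I * f y), (continuousOn_const.mul hf.1).neg, e⟩

theorem PD.small (hK : PD K) {N : Set (Z K)} (hN : IsCompact N) (hp : IsPreconnected N)
    (hnt : N.Nontrivial) {U : Set (Z K)} (hU : IsOpen U) (hne : (N ∩ U).Nonempty) {S : Set ℂ}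
    (hS : S.Finite) : ∃ ν ∈ N ∩ U, pj ν ∉ S := by
  by_contra hcon
  push Not at hcon
  have := hK.compactZ
  obtain ⟨ν, hν⟩ := hne
  obtain ⟨μ, hμ, hμν⟩ := hnt.exists_ne ν
  obtain ⟨W, h1, h2, h3⟩ := exists_mem_nhds_isClosed_subset
    (inter_mem (hU.mem_nhds hν.2) (isOpen_ne.mem_nhds hμν.symm))
  have hνW : ν ∈ N ∩ W := ⟨hν.1, mem_of_mem_nhds h1⟩
  have h4 : (connectedComponentIn (N ∩ W) ν).Subsingleton :=
    hK.fibre isPreconnected_connectedComponentIn (hS.countable.isTotallyDisconnected _ (by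
      rintro _ ⟨κ, hκ, rfl⟩
      have := connectedComponentIn_subset _ _ hκ
      exact hcon κ ⟨this.1, (h3 this.2).1⟩)
      (isPreconnected_connectedComponentIn.image _ pj_cont.continuousOn))
  obtain ⟨P, Q, hP, hQ, hPQ, hd, hνP, hG⟩ := exists_split (G := (interior W)ᶜ) (hN.inter_right h2)
    hνW isOpen_interior.isClosed_compl (by
      rw [Set.disjoint_left]
      intro κ hκ hκ'
      rw [h4 hκ (mem_connectedComponentIn hνW)] at hκ'
      exact hκ' (mem_interior_iff_mem_nhds.2 h1))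
  rcases isPreconnected_iff_subset_of_disjoint_closed.1 hp P (Q ∪ (interior W)ᶜ) hP.isClosed
    (hQ.isClosed.union isOpen_interior.isClosed_compl) (by
      intro κ hκ
      by_cases h : κ ∈ interior W
      · have : κ ∈ P ∪ Q := hPQ ▸ ⟨hκ, interior_subset h⟩
        exact this.imp id Or.inl
      · exact Or.inr (Or.inr h)) (by
      rw [eq_empty_iff_forall_notMem]
      rintro κ ⟨-, a1, a2 | a2⟩
      · exact Set.disjoint_left.1 hd a1 a2
      · exact Set.disjoint_left.1 hG a1 a2) with h | h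
  · have : μ ∈ N ∩ W := hPQ ▸ Or.inl (h hμ)
    exact (h3 this.2).2 rfl
  · rcases h hν.1 with a | a
    · exact Set.disjoint_left.1 hd hνP a
    · exact Set.disjoint_left.1 hG hνP a

theorem Tri.planar_lim {L J J' : Set ℂ} {b x t c : ℂ} (h : Tri L J J' b x t) (hc : c ^ 2 = -1)
    (e : F (L ∪ J') x t = c * F (L ∪ J) t x) :
    ∀ᶠ y in 𝓝 b, ∀ l : Filter ℂ, Tendsto id l (𝓝 y) →
      (∀ᶠ w in l, w ∉ L ∪ J ∧ w ∉ L ∪ J' ∧ w ∉ Ray) →
      Tendsto (fun w => F (L ∪ J) w x) l (𝓝 (c * rr L b x y)) →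
      Tendsto (fun w => F (L ∪ J') w t) l (𝓝 (c * rr L b t y)) := by
  have hc0 : c ≠ 0 := by
    rintro rfl
    simp at hc
  filter_upwards [(h.planar hc e).eventually_nhds,
    ev_segment isClosed_singleton h.nx.symm tendsto_id tendsto_const_nhds,
    ev_segment isClosed_singleton h.nt.symm tendsto_id tendsto_const_nhds] with y a1 a2 a3 l b1 b2 b3
  have sx := rr_sq h.l0.tame h.zero h.l0.mem h.xL
  have c1 : ∀ᶠ w in l, F (L ∪ J) w x = c * rr L b x w := by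
    refine sq_ev b3 (tendsto_const_nhds.mul ((rr_cont fun e => a2 x e rfl).tendsto.comp b1))
      (mul_ne_zero hc0 (ne_zero_of_sq (sx y) (a2 y (left_mem_segment ℝ _ _)))) ?_
    filter_upwards [b2] with w hw
    rw [(h.tame.F_root (Or.inl h.zero) hw.1).2 x (Or.inr h.mx), mul_pow, sx, hc]
    ring
  refine (tendsto_const_nhds.mul ((rr_cont fun e => a3 t e rfl).tendsto.comp b1)).congr' ?_
  filter_upwards [b1 a1, b2, c1] with w c2 c3 c4
  exact (c2 c3.1 c3.2.1 c3.2.2 c4).symm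

theorem Tri.exists_sign {L J J' : Set ℂ} {b x t : ℂ} (h : Tri L J J' b x t) :
    ∃ c, (c = I ∨ c = -I) ∧ F (L ∪ J') x t = c * F (L ∪ J) t x := by
  have h1 := (h.symm.tame.F_root (Or.inl h.zero) (h.out h.mx h.nx).1).2 t (Or.inr h.mt)
  have h2 := (h.tame.F_root (Or.inl h.zero) (h.symm.out h.mt h.nt).1).2 x (Or.inr h.mx)
  rcases eq_or_eq_neg_of_sq_eq_sq (F (L ∪ J') x t) (I * F (L ∪ J) t x) (by
    rw [h1, mul_pow, h2, I_sq]
    ring) with e | e
  · exact ⟨I, Or.inl rfl, e⟩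
  · exact ⟨-I, Or.inr rfl, by rw [e, neg_mul]⟩

theorem sign_sq {c : ℂ} (h : c = I ∨ c = -I) : c ^ 2 = -1 := by
  rcases h with rfl | rfl <;> simp

end Pool.Agent.Lib.MP_1126ca_gt
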